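import Pool.Agent.W498.Dom.Gen

/-!
# Limits of solutions of polynomial families of linear systems
-/

open Polynomial

namespace Pool.Agent.Y101

open Pool.Agent.W498.Dom

variable {K : Type*} [Field K]

section

variable {E F G : Type*} [AddCommGroup E] [Module K E] [AddCommGroup F] [Module K F]
  [AddCommGroup G] [Module K G]

/-- A polynomial family of vectors with infinitely many values in a subspace. -/
lemma PVec.mem_of_infinite {v : K → F} (hv : PVec v) {S : Submodule K F} {T : Set K}
    (hT : T.Infinite) (h : ∀ t ∈ T, v t ∈ S) (s : K) : v s ∈ S := by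
  by_contra hs
  obtain ⟨φ, hφ, hφS⟩ := Submodule.exists_le_ker_of_notMem hs
  obtain ⟨p, hp⟩ := hv φ
  have h0 : p = 0 := by
    apply Polynomial.eq_zero_of_infinite_isRoot
    apply hT.mono
    intro t ht
    rw [Set.mem_setOf_eq, Polynomial.IsRoot.def, ← hp]
    exact hφS (h t ht)
  apply hφ
  rw [hp, h0, eval_zero]

/-- The solutions of a polynomial family of linear systems with a polynomial right hand side. -/
theorem PFam.solve_poly [Module.Finite K E] {A : K → E →ₗ[K] F} (hA : PFam A)
    (h0 : Function.Injective (A 0)) {w : K → F} (hw : PVec w) :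
    ∃ (q : K[X]) (v : K → E), q.eval 0 ≠ 0 ∧ PVec v ∧
      ∀ s x, A s x = w s → q.eval s • x = v s := by
  obtain ⟨G, hG⟩ := LinearMap.exists_leftInverse_of_injective (A 0) (LinearMap.ker_eq_bot.2 h0)
  have hfam : PFam (fun s => (G ∘ₗ A s : Module.End K E)) := fun x => (hA x).map G
  obtain ⟨P, hP⟩ := hfam.exists_matrix
  set b := Module.finBasis K E with hb
  choose r hr using fun j => (hw.map G) (b.coord j)
  have hdet : ∀ s, P.det.eval s = LinearMap.det (G ∘ₗ A s : Module.End K E) := by
    intro s
    have h1 : P.det.eval s = (P.map (eval s)).det := by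
      have := RingHom.map_det (evalRingHom s) P
      simpa using this
    rw [h1, hP, LinearMap.det_toMatrix]
  refine ⟨P.det, fun s => ∑ i, (∑ j, (P.adjugate i j).eval s * b.coord j (G (w s))) • b i,
    ?_, ?_, ?_⟩
  · rw [hdet 0, hG, LinearMap.det_id]
    exact one_ne_zero
  · apply PVec.sum
    intro i _
    have h1 := (PVec.const (K := K) (b i)).smul (∑ j, P.adjugate i j * r j)
    have h2 : (fun s => (∑ j, P.adjugate i j * r j).eval s • b i) =
        fun s => (∑ j, (P.adjugate i j).eval s * b.coord j (G (w s))) • b i := by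
      funext s
      rw [eval_finsetSum]
      simp [hr]
    rw [h2] at h1
    exact h1
  · intro s x hx
    have h1 : (P.map (eval s)).mulVec (b.equivFun x) = b.equivFun (G (w s)) := by
      rw [hP]
      have := LinearMap.toMatrix_mulVec_repr b b (G ∘ₗ A s : Module.End K E) x
      have h2 : (G ∘ₗ A s : Module.End K E) x = G (w s) := by rw [LinearMap.comp_apply, hx]
      rw [h2] at this
      exact this
    have h3 : (P.map (eval s)).adjugate = P.adjugate.map (eval s) := by
      have := RingHom.map_adjugate (evalRingHom s) P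
      simpa using this.symm
    have h4 : (P.map (eval s)).adjugate.mulVec ((P.map (eval s)).mulVec (b.equivFun x)) =
        P.det.eval s • b.equivFun x := by
      rw [Matrix.mulVec_mulVec, Matrix.adjugate_mul, Matrix.smul_mulVec, Matrix.one_mulVec]
      have h5 : P.det.eval s = (P.map (eval s)).det := by
        have := RingHom.map_det (evalRingHom s) P
        simpa using this
      rw [h5]
    rw [h1, h3] at h4
    apply b.equivFun.injective
    rw [map_smul, ← h4]
    funext i
    rw [map_sum, Finset.sum_apply, Finset.sum_eq_single i]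
    · rw [map_smul, Pi.smul_apply, Module.Basis.equivFun_self, if_pos rfl, smul_eq_mul, mul_one]
      rfl
    · intro j _ hj
      rw [map_smul, Pi.smul_apply, Module.Basis.equivFun_self, if_neg hj, smul_zero]
    · intro h; exact absurd (Finset.mem_univ _) h

/-- **The limit of solutions.** If the systems `A t x = w t` have for infinitely many `t` a
solution `x` with `ℓ x` in the subspace `S`, and `A 0` is injective, then the same holds for
`t = 0`. -/
theorem PFam.limit [Module.Finite K E] {A : K → E →ₗ[K] F} (hA : PFam A)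
    (h0 : Function.Injective (A 0)) {w : K → F} (hw : PVec w) (ℓ : E →ₗ[K] G)
    (S : Submodule K G) {T : Set K} (hT : T.Infinite) (h : ∀ t ∈ T, ∃ x, A t x = w t ∧ ℓ x ∈ S) :
    ∃ x, A 0 x = w 0 ∧ ℓ x ∈ S := by
  obtain ⟨q, v, hq, hv, hqv⟩ := PFam.solve_poly hA h0 hw
  have h1 : ℓ (v 0) ∈ S := by
    refine PVec.mem_of_infinite (hv.map ℓ) hT (fun t ht => ?_) 0
    obtain ⟨x, hx, hxS⟩ := h t ht
    rw [← hqv t x hx, map_smul]
    exact S.smul_mem _ hxS
  have h2 : A 0 (v 0) = q.eval 0 • w 0 := by
    have h3 : PVec (fun s => A s (v s) - q.eval s • w s) := (hA.apply hv).sub (hw.smul q)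
    have h4 := PVec.mem_of_infinite h3 (S := ⊥) hT (fun t ht => by
      obtain ⟨x, hx, -⟩ := h t ht
      rw [← hqv t x hx, map_smul, hx, sub_self]
      exact Submodule.zero_mem _) 0
    exact sub_eq_zero.1 ((Submodule.mem_bot _).1 h4)
  refine ⟨(q.eval 0)⁻¹ • v 0, ?_, ?_⟩
  · rw [map_smul, h2, smul_smul, inv_mul_cancel₀ hq, one_smul]
  · rw [map_smul]
    exact S.smul_mem _ h1

end

end Pool.Agent.Y101
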