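import Pool.Agent.H447R3.AoB
import Pool.Agent.W498.Dom.Bi

/-!
# The Lefschetz structure on a sum of shifted copies
-/

open Finset

namespace Pool.Agent.Y101

open Pool.Agent.H914 Pool.Agent.H447 Pool.Agent.W498.Dom

section Comb

variable {K : Type*} [Field K] {A : Type*} [Ring A] [Algebra K A]

/-- The sum of two commuting triples. -/
lemma sl2_comb {h e f h' e' f' : A} (t : Sl2 h e f) (t' : Sl2 h' e' f')
    (c1 : h * e' = e' * h) (c2 : h * f' = f' * h) (c3 : h' * e = e * h') (c4 : h' * f = f * h')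
    (c5 : e * f' = f' * e) (c6 : e' * f = f * e') {r s : K} (hr : r ≠ 0) (hs : s ≠ 0) :
    Sl2 (h + h') (r • e + s • e') (r⁻¹ • f + s⁻¹ • f') := by
  constructor
  · have h1 : r * r⁻¹ = 1 := mul_inv_cancel₀ hr
    have h2 : s * s⁻¹ = 1 := mul_inv_cancel₀ hs
    have e1 : (r • e + s • e') * (r⁻¹ • f + s⁻¹ • f') - (r⁻¹ • f + s⁻¹ • f') * (r • e + s • e') =
        (r * r⁻¹) • (e * f - f * e) + (s * s⁻¹) • (e' * f' - f' * e') +
          (r * s⁻¹) • (e * f' - f' * e) + (s * r⁻¹) • (e' * f - f * e') := by
      simp only [add_mul, mul_add, smul_mul_assoc, mul_smul_comm, smul_add, smul_smul, smul_sub]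
      rw [mul_comm r⁻¹ r, mul_comm s⁻¹ s, mul_comm s⁻¹ r, mul_comm r⁻¹ s]
      abel
    rw [e1, h1, h2, c5, c6, sub_self, sub_self, smul_zero, smul_zero, t.ef, t'.ef]
    simp
  · have h1 := t.he
    have h2 := t'.he
    have e1 : (h + h') * (r • e + s • e') - (r • e + s • e') * (h + h') =
        r • (h * e - e * h) + s • (h' * e' - e' * h') := by
      simp only [add_mul, mul_add, smul_mul_assoc, mul_smul_comm, smul_sub, smul_add]
      rw [c1, c3]
      abel
    rw [e1, h1, h2, mul_add, mul_smul_comm, mul_smul_comm]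
  · have h1 := t.hf
    have h2 := t'.hf
    have e1 : (h + h') * (r⁻¹ • f + s⁻¹ • f') - (r⁻¹ • f + s⁻¹ • f') * (h + h') =
        r⁻¹ • (h * f - f * h) + s⁻¹ • (h' * f' - f' * h') := by
      simp only [add_mul, mul_add, smul_mul_assoc, mul_smul_comm, smul_sub, smul_add]
      rw [c2, c4]
      abel
    rw [e1, h1, h2, mul_add, mul_smul_comm, mul_smul_comm, neg_add, smul_neg, smul_neg]

end Comb

section

variable {K : Type*} [Field K] {V : Type*} [AddCommGroup V] [Module K V]

/-- The operator `g` on all the coordinates. -/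
def mapF (N : ℕ) (g : Module.End K V) : Module.End K (Fin N → V) :=
  LinearMap.pi fun k => g ∘ₗ LinearMap.proj k

lemma mapF_apply (N : ℕ) (g : Module.End K V) (a : Fin N → V) (k : Fin N) :
    mapF N g a k = g (a k) := rfl

lemma mapF_mul (N : ℕ) (g g' : Module.End K V) : mapF N (g * g') = mapF N g * mapF N g' := rfl

lemma mapF_sub (N : ℕ) (g g' : Module.End K V) : mapF N (g - g') = mapF N g - mapF N g' := rfl

/-- The shift of the coordinates. -/
def shiftF (K : Type*) [Field K] (V : Type*) [AddCommGroup V] [Module K V] (N : ℕ) :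
    Module.End K (Fin N → V) :=
  LinearMap.pi fun k =>
    if h : 0 < (k : ℕ) then LinearMap.proj ⟨k - 1, by omega⟩ else 0

lemma shiftF_apply (N : ℕ) (a : Fin N → V) (k : Fin N) :
    shiftF K V N a k = if h : 0 < (k : ℕ) then a ⟨k - 1, by omega⟩ else 0 := by
  rw [shiftF, LinearMap.pi_apply]
  split_ifs <;> rfl

/-- The lowering operator dual to the shift. -/
def downF (K : Type*) [Field K] (V : Type*) [AddCommGroup V] [Module K V] (N : ℕ) :
    Module.End K (Fin N → V) :=
  LinearMap.pi fun k =>
    if h : (k : ℕ) + 1 < N then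
      (((k : ℕ) + 1 : K) * ((N : K) - 1 - (k : ℕ))) • LinearMap.proj ⟨k + 1, h⟩ else 0

lemma downF_apply (N : ℕ) (a : Fin N → V) (k : Fin N) :
    downF K V N a k = if h : (k : ℕ) + 1 < N then
      (((k : ℕ) + 1 : K) * ((N : K) - 1 - (k : ℕ))) • a ⟨k + 1, h⟩ else 0 := by
  rw [downF, LinearMap.pi_apply]
  split_ifs <;> rfl

/-- The weight operator. -/
def wtF (K : Type*) [Field K] (V : Type*) [AddCommGroup V] [Module K V] (N : ℕ) :
    Module.End K (Fin N → V) :=
  LinearMap.pi fun k => (2 * (k : ℕ) - ((N : K) - 1)) • LinearMap.proj k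

lemma wtF_apply (N : ℕ) (a : Fin N → V) (k : Fin N) :
    wtF K V N a k = (2 * (k : ℕ) - ((N : K) - 1)) • a k := rfl

lemma sl2_shift (N : ℕ) : Sl2 (wtF K V N) (shiftF K V N) (downF K V N) := by
  constructor
  · apply LinearMap.ext
    intro a
    funext k
    rw [LinearMap.sub_apply, Pi.sub_apply, Module.End.mul_apply, Module.End.mul_apply,
      shiftF_apply, downF_apply, wtF_apply]
    have e1 : (if h : 0 < (k : ℕ) then downF K V N a ⟨k - 1, by omega⟩ else 0) =
        (((k : ℕ) : K) * ((N : K) - (k : ℕ))) • a k := by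
      split_ifs with h
      · rw [downF_apply, dif_pos (by simp only []; omega)]
        have hk : (⟨(⟨(k : ℕ) - 1, by omega⟩ : Fin N) + 1, by simp only []; omega⟩ : Fin N) = k := by
          apply Fin.ext
          simp only []
          omega
        rw [hk]
        congr 1
        simp only []
        rw [Nat.cast_sub (by omega : 1 ≤ (k : ℕ))]
        push_cast
        ring
      · have : ((k : ℕ) : K) = 0 := by
          rw [show (k : ℕ) = 0 by omega, Nat.cast_zero]
        rw [this, zero_mul, zero_smul]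
    have e2 : (if h : (k : ℕ) + 1 < N then
        (((k : ℕ) + 1 : K) * ((N : K) - 1 - (k : ℕ))) • shiftF K V N a ⟨k + 1, h⟩ else 0) =
        (((k : ℕ) + 1 : K) * ((N : K) - 1 - (k : ℕ))) • a k := by
      split_ifs with h
      · rw [shiftF_apply, dif_pos (by simp only []; omega)]
        rfl
      · have h1 : N = (k : ℕ) + 1 := by omega
        have h2 : (N : K) = ((k : ℕ) : K) + 1 := by exact_mod_cast congrArg (Nat.cast (R := K)) h1
        have : (N : K) - 1 - (k : ℕ) = 0 := by
          rw [h2]
          ring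
        rw [this, mul_zero, zero_smul]
    rw [e1, e2, ← sub_smul]
    congr 1
    ring
  · apply LinearMap.ext
    intro a
    funext k
    have h2 : (2 * shiftF K V N : Module.End K (Fin N → V)) a k =
        shiftF K V N a k + shiftF K V N a k := by
      rw [two_mul]; rfl
    rw [h2, LinearMap.sub_apply, Pi.sub_apply, Module.End.mul_apply, Module.End.mul_apply,
      wtF_apply, shiftF_apply, shiftF_apply]
    split_ifs with h
    · rw [wtF_apply]
      simp only []
      rw [Nat.cast_sub (by omega : 1 ≤ (k : ℕ)), ← sub_smul]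
      have : (2 * ((k : ℕ) : K) - ((N : K) - 1) -
          (2 * (((k : ℕ) : K) - ((1 : ℕ) : K)) - ((N : K) - 1))) = 1 + 1 := by
        push_cast
        ring
      rw [this, add_smul, one_smul]
    · simp
  · apply LinearMap.ext
    intro a
    funext k
    have h2 : (-(2 * downF K V N) : Module.End K (Fin N → V)) a k =
        -(downF K V N a k + downF K V N a k) := by
      rw [two_mul]; rfl
    rw [h2, LinearMap.sub_apply, Pi.sub_apply, Module.End.mul_apply, Module.End.mul_apply,
      wtF_apply, downF_apply, downF_apply]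
    split_ifs with h
    · rw [wtF_apply]
      simp only []
      push_cast
      module
    · simp

lemma mapF_shift (N : ℕ) (g : Module.End K V) :
    mapF N g * shiftF K V N = shiftF K V N * mapF N g := by
  apply LinearMap.ext
  intro a
  funext k
  rw [Module.End.mul_apply, Module.End.mul_apply, mapF_apply, shiftF_apply, shiftF_apply]
  split_ifs
  · rfl
  · rw [map_zero]

lemma mapF_down (N : ℕ) (g : Module.End K V) :
    mapF N g * downF K V N = downF K V N * mapF N g := by
  apply LinearMap.ext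
  intro a
  funext k
  rw [Module.End.mul_apply, Module.End.mul_apply, mapF_apply, downF_apply, downF_apply]
  split_ifs
  · rw [map_smul]; rfl
  · rw [map_zero]

lemma mapF_wt (N : ℕ) (g : Module.End K V) :
    mapF N g * wtF K V N = wtF K V N * mapF N g := by
  apply LinearMap.ext
  intro a
  funext k
  rw [Module.End.mul_apply, Module.End.mul_apply, mapF_apply, wtF_apply, wtF_apply, map_smul]
  rfl

lemma sl2_mapF (N : ℕ) {h e f : Module.End K V} (t : Sl2 h e f) :
    Sl2 (mapF N h) (mapF N e) (mapF N f) := by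
  constructor
  · rw [← mapF_mul, ← mapF_mul, ← mapF_sub, t.ef]
  · rw [← mapF_mul, ← mapF_mul, ← mapF_sub, t.he, two_mul, two_mul]
    rfl
  · rw [← mapF_mul, ← mapF_mul, ← mapF_sub, t.hf, two_mul, two_mul]
    rfl

variable [CharZero K] {gr : ℕ → Submodule K V} {n : ℕ} {L : Module.End K V}

/-- **Hard Lefschetz for the sum of shifted copies** (injectivity). -/
theorem shift_inj [Module.Finite K V] (h : DirectSum.IsInternal gr) (hL : IsHom gr 2 L)
    (hbd : ∀ i, 2 * n + 1 ≤ i → gr i = ⊥) (hHL : HardLef gr n L) {N : ℕ} {r s : K} (hr : r ≠ 0)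
    (hs : s ≠ 0) {c : ℕ} {d : ℤ} (hd : d + c = n + ((N : ℤ) - 1)) {a : Fin N → V}
    (ha : ∀ k : Fin N, a k ∈ grZ gr (d - 2 * (k : ℕ)))
    (h0 : ((r • mapF N L + s • shiftF K V N) ^ c) a = 0) : a = 0 := by
  obtain ⟨f, t, -, -⟩ := exists_sl2 h hL hbd hHL
  have t' := sl2_comb (sl2_mapF N t) (sl2_shift (K := K) (V := V) N) (mapF_shift N _) (mapF_down N _) (mapF_wt N _).symm (mapF_wt N _).symm (mapF_down N _)
    (mapF_shift N _).symm hr hs
  apply Pool.Agent.H447.e_pow_inj t' (c := c) _ h0
  funext k
  rw [LinearMap.add_apply, Pi.add_apply, mapF_apply, wtF_apply, Pi.smul_apply]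
  have hk := ha k
  by_cases hk0 : 0 ≤ d - 2 * (k : ℕ)
  · obtain ⟨l, hl⟩ := Int.eq_ofNat_of_zero_le hk0
    rw [hl] at hk
    have hk' : a k ∈ gr l := by
      have := hk
      rwa [grZ_natCast] at this
    rw [wt_apply h n hk', ← add_smul]
    congr 1
    have h2 : (l : ℤ) = n + ((N : ℤ) - 1) - c - 2 * (k : ℕ) := by
      have : (l : ℤ) = d - 2 * (k : ℕ) := hl.symm
      rw [this, ← hd]; ring
    have h3 : (l : K) = (n : K) + ((N : K) - 1) - c - 2 * (k : ℕ) := by
      have := congrArg (fun z : ℤ => (z : K)) h2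
      push_cast at this
      exact this
    rw [h3]
    ring
  · rw [grZ_of_neg (by omega)] at hk
    rw [(Submodule.mem_bot _).1 hk, map_zero, smul_zero, smul_zero, add_zero]

end

end Pool.Agent.Y101
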