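import Pool.Agent.Y101.Defs
import Pool.Agent.Y101.Lim
import Pool.Agent.Y101.Shift
import Pool.Agent.W534.QOp

/-!
# The cohomology of a blow-up
-/

open CategoryTheory AlgebraicGeometry Finset Polynomial

universe u v

namespace Pool.Agent.Y101

open Pool.Agent.H914 Pool.Agent.H447 Pool.Agent.W534 VarClass Obj WeilCohomology

variable {k : Type u} [Field k] {𝒱 : VarClass k} {ops : CycleOps 𝒱}
  {W : WeilCohomology.{u, v} ops} {X Z T F : 𝒱.Obj} {i : Z ⟶ X} {π : T ⟶ X} {j : F ⟶ T}
  {g : F ⟶ Z} {c m : ℕ}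

lemma cl_exc : W.cl T (exc ops j) = W.push j 1 := by
  rw [exc, W.cl_push, W.cl_fund]

lemma exc_mem (h : T.dim = F.dim + 1) : T.IsCyc 1 (exc ops j) :=
  ops.push_mem _ F.V.fundCycle_mem (by omega)

/-- The class `j_*(g^* a ζ ^ r)`. -/
noncomputable def tau (W : WeilCohomology.{u, v} ops) {Z T F : 𝒱.Obj} (j : F ⟶ T) (g : F ⟶ Z)
    (r : ℕ) : W.H Z →ₗ[W.K] W.H T :=
  W.push j ∘ₗ LinearMap.mulRight W.K (W.map j (W.cl T (exc ops j)) ^ r) ∘ₗ (W.map g).toLinearMap

lemma tau_apply (r : ℕ) (a : W.H Z) :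
    tau W j g r a = W.push j (W.map g a * W.map j (W.cl T (exc ops j)) ^ r) := rfl

lemma pow_even {c : W.H X} (hc : c ∈ W.gr X 2) (r : ℕ) : c ^ r ∈ W.gr X (2 * r) := by
  induction r with
  | zero => simpa using W.one_mem X
  | succ r ih =>
    rw [pow_succ]
    exact W.mul_mem ih hc

section

variable (h : IsBlowup W i π j g c)
include h

lemma zeta_mem : W.map j (W.cl T (exc ops j)) ∈ W.gr F 2 :=
  W.map_mem j (W.cl_mem (p := 1) (exc_mem h.dimF))

lemma zeta_pow_mem (r : ℕ) : W.map j (W.cl T (exc ops j)) ^ r ∈ W.gr F (2 * r) :=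
  pow_even (zeta_mem h) r

lemma exc_mul_map (x : W.H X) :
    W.cl T (exc ops j) * W.map π x = tau W j g 0 (W.map i x) := by
  rw [cl_exc, ← W.push_mul, one_mul, ← W.map_comp, h.comm, W.map_comp, tau_apply, pow_zero,
    mul_one]

lemma exc_mul_tau (r : ℕ) (a : W.H Z) :
    W.cl T (exc ops j) * tau W j g r a = tau W j g (r + 1) a := by
  have h1 : W.cl T (exc ops j) ∈ W.gr T (2 * 1) := W.cl_mem (p := 1) (exc_mem h.dimF)
  rw [tau_apply, W.mul_push j h1, tau_apply, ← mul_assoc,
    W.even_comm (p := 1) (zeta_mem h), mul_assoc, ← pow_succ']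

lemma map_mul_tau {u : W.H X} {p : ℕ} (hu : u ∈ W.gr X (2 * p)) (r : ℕ) (a : W.H Z) :
    W.map π u * tau W j g r a = tau W j g r (W.map i u * a) := by
  rw [tau_apply, W.mul_push j (W.map_mem π hu), tau_apply, ← W.map_comp, h.comm, W.map_comp,
    ← mul_assoc, ← map_mul]

lemma push_tau (r : ℕ) (a : W.H Z) :
    W.push π (tau W j g r a) = W.push i (W.push g (W.map j (W.cl T (exc ops j)) ^ r) * a) := by
  rw [tau_apply, ← W.push_comp, h.comm, W.push_comp, ← W.even_comm (zeta_pow_mem h r),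
    W.push_mul]

lemma push_tau_lt {r : ℕ} (hr : r < c) (a : W.H Z) : W.push π (tau W j g r a) = 0 := by
  have h1 := W.push_mem g (zeta_pow_mem h r)
  have h2 := h.dimX
  have h3 := h.dimT
  have h4 := h.dimF
  rw [grZ_of_neg (by push_cast; omega)] at h1
  rw [push_tau h, (Submodule.mem_bot _).1 h1, zero_mul, map_zero]

lemma push_tau_top (a : W.H Z) : W.push π (tau W j g c a) = (-1 : W.K) ^ c • W.push i a := by
  rw [push_tau h, show W.push g (W.map j (W.cl T (exc ops j)) ^ c) = (-1) ^ c from h.top]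
  have : ((-1 : W.H Z) ^ c) * a = (-1 : W.K) ^ c • a := by
    rcases Nat.even_or_odd c with h1 | h1
    · rw [h1.neg_one_pow, h1.neg_one_pow, one_mul, one_smul]
    · rw [h1.neg_one_pow, h1.neg_one_pow, neg_one_mul, neg_one_smul]
  rw [this, map_smul]

lemma push_one : W.push π 1 = 1 := by
  have h1 := h.birational
  rwa [W.cl_push, W.cl_fund, W.cl_fund] at h1

lemma push_map (x : W.H X) : W.push π (W.map π x) = x := by
  rw [← one_mul (W.map π x), W.push_mul, push_one h, one_mul]

/-- The coordinates. -/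
noncomputable def coords : (W.H X × (Fin c → W.H Z)) ≃ₗ[W.K] W.H T :=
  LinearEquiv.ofBijective
    ((W.map π).toLinearMap ∘ₗ LinearMap.fst _ _ _ +
      ∑ r : Fin c, tau W j g r ∘ₗ LinearMap.proj r ∘ₗ LinearMap.snd _ _ _)
    (by
      have := h.basis
      convert this using 1
      funext a
      simp only [LinearMap.add_apply, LinearMap.comp_apply, LinearMap.fst_apply,
        AlgHom.toLinearMap_apply, LinearMap.sum_apply, LinearMap.snd_apply, LinearMap.proj_apply,
        tau_apply, blowSum, excTerm, zetaPow])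

lemma coords_apply (e : W.H X × (Fin c → W.H Z)) :
    coords h e = W.map π e.1 + ∑ r : Fin c, tau W j g r (e.2 r) := by
  rw [coords, LinearEquiv.ofBijective_apply]
  simp only [LinearMap.add_apply, LinearMap.comp_apply, LinearMap.fst_apply,
    AlgHom.toLinearMap_apply, LinearMap.sum_apply, LinearMap.snd_apply, LinearMap.proj_apply]

lemma push_coords (e : W.H X × (Fin c → W.H Z)) : W.push π (coords h e) = e.1 := by
  rw [coords_apply, map_add, push_map h, map_sum,
    Finset.sum_eq_zero (fun r _ => push_tau_lt h r.2 _), add_zero]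

/-- The coordinates of `j_*(g^* a ζ ^ c)`. -/
noncomputable def topCo : W.H Z →ₗ[W.K] (Fin c → W.H Z) :=
  LinearMap.snd W.K _ _ ∘ₗ (coords h).symm.toLinearMap ∘ₗ tau W j g c

lemma tau_top (a : W.H Z) :
    tau W j g c a = (-1 : W.K) ^ c • W.map π (W.push i a) +
      ∑ r : Fin c, tau W j g r (topCo h a r) := by
  have h1 : coords h ((coords h).symm (tau W j g c a)) = tau W j g c a :=
    LinearEquiv.apply_symm_apply _ _
  have h2 := push_coords h ((coords h).symm (tau W j g c a))
  rw [h1, push_tau_top h] at h2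
  conv_lhs => rw [← h1]
  rw [coords_apply, ← h2, map_smul]
  rfl

end

end Pool.Agent.Y101
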