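import Pool.Agent.H914R2.KCorr

/-!
# Spans of algebraic classes
-/

open CategoryTheory AlgebraicGeometry Finset

universe u v

namespace Pool.Agent.Y101

open Pool.Agent.H914 VarClass Obj WeilCohomology

variable {k : Type u} [Field k] {𝒱 : VarClass k} {ops : CycleOps 𝒱}
  {W : WeilCohomology.{u, v} ops} {X Y Z : 𝒱.Obj} {p q r : ℕ}

lemma ka_gen {z : X.Cycles} (hz : X.IsCyc p z) : W.cl X z ∈ spanCycles W X p :=
  Submodule.subset_span ⟨p, rfl, z, hz, rfl⟩

lemma ka_ind {P : W.H X → Prop} (hg : ∀ z, X.IsCyc p z → P (W.cl X z)) (h0 : P 0)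
    (ha : ∀ a b, P a → P b → P (a + b)) (hs : ∀ (c : W.K) a, P a → P (c • a)) {a : W.H X}
    (h : a ∈ spanCycles W X p) : P a := by
  induction h using Submodule.span_induction with
  | mem x hx =>
    obtain ⟨p', hp, z, hz, rfl⟩ := hx
    obtain rfl : p' = p := by exact_mod_cast hp
    exact hg z hz
  | zero => exact h0
  | add x y _ _ hx hy => exact ha x y hx hy
  | smul c x _ hx => exact hs c x hx

lemma ka_gr {a : W.H X} (h : a ∈ spanCycles W X p) : a ∈ W.gr X (2 * p) :=
  ka_ind (P := fun a => a ∈ W.gr X (2 * p)) (fun _ hz => W.cl_mem hz) (Submodule.zero_mem _)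
    (fun _ _ => Submodule.add_mem _) (fun c _ => Submodule.smul_mem _ c) h

lemma ka_map (f : Y ⟶ X) {a : W.H X} (h : a ∈ spanCycles W X p) :
    W.map f a ∈ spanCycles W Y p := by
  refine ka_ind (P := fun a => W.map f a ∈ spanCycles W Y p) ?_ ?_ ?_ ?_ h
  · intro z hz
    rw [← W.cl_pull]
    exact ka_gen (ops.pull_mem f hz)
  · rw [map_zero]; exact Submodule.zero_mem _
  · intro a b ha hb
    rw [map_add]; exact Submodule.add_mem _ ha hb
  · intro c a ha
    rw [map_smul]; exact Submodule.smul_mem _ _ ha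

lemma ka_push (f : X ⟶ Y) (hpq : p + Y.dim = q + X.dim) {a : W.H X}
    (h : a ∈ spanCycles W X p) : W.push f a ∈ spanCycles W Y q := by
  refine ka_ind (P := fun a => W.push f a ∈ spanCycles W Y q) ?_ ?_ ?_ ?_ h
  · intro z hz
    rw [← W.cl_push]
    exact ka_gen (ops.push_mem f hz hpq)
  · rw [map_zero]; exact Submodule.zero_mem _
  · intro a b ha hb
    rw [map_add]; exact Submodule.add_mem _ ha hb
  · intro c a ha
    rw [map_smul]; exact Submodule.smul_mem _ _ ha

lemma ka_mul {a b : W.H X} (ha : a ∈ spanCycles W X p) (hb : b ∈ spanCycles W X q) :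
    a * b ∈ spanCycles W X (p + q : ℕ) := by
  refine ka_ind (P := fun a => a * b ∈ spanCycles W X (p + q : ℕ)) ?_ ?_ ?_ ?_ ha
  · intro z hz
    refine ka_ind (P := fun b => W.cl X z * b ∈ spanCycles W X (p + q : ℕ)) ?_ ?_ ?_ ?_ hb
    · intro w hw
      rw [← W.cl_mul]
      exact ka_gen (ops.mul_mem hz hw)
    · rw [mul_zero]; exact Submodule.zero_mem _
    · intro a b ha hb
      rw [mul_add]; exact Submodule.add_mem _ ha hb
    · intro c a ha
      rw [mul_smul_comm]; exact Submodule.smul_mem _ _ ha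
  · rw [zero_mul]; exact Submodule.zero_mem _
  · intro a b ha hb
    rw [add_mul]; exact Submodule.add_mem _ ha hb
  · intro c a ha
    rw [smul_mul_assoc]; exact Submodule.smul_mem _ _ ha

lemma ka_one : (1 : W.H X) ∈ spanCycles W X (0 : ℕ) := by
  rw [← W.cl_fund]
  exact ka_gen X.V.fundCycle_mem

lemma ka_pow {a : W.H X} (ha : a ∈ spanCycles W X (1 : ℕ)) (r : ℕ) :
    a ^ r ∈ spanCycles W X (r : ℕ) := by
  induction r with
  | zero => rw [pow_zero]; exact ka_one
  | succ r ih =>
    rw [pow_succ]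
    exact ka_mul ih ha

lemma ka_cast {a : W.H X} (ha : a ∈ spanCycles W X p) (h : p = q) : a ∈ spanCycles W X q := h ▸ ha

/-- Algebraic classes (with coefficients) commute with everything. -/
lemma ka_comm {a : W.H X} (ha : a ∈ spanCycles W X p) (b : W.H X) : a * b = b * a :=
  W.even_comm (ka_gr ha) b

/-- The projector to an integral degree. -/
noncomputable def projZ {K : Type*} [Field K] {V : Type*} [AddCommGroup V] [Module K V]
    {gr : ℕ → Submodule K V} (h : DirectSum.IsInternal gr) (l : ℤ) : Module.End K V :=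
  if 0 ≤ l then proj h l.toNat else 0

section

variable {K : Type*} [Field K] {V : Type*} [AddCommGroup V] [Module K V]
    {gr : ℕ → Submodule K V} (h : DirectSum.IsInternal gr)

lemma projZ_mem (l : ℤ) (a : V) : projZ h l a ∈ grZ gr l := by
  unfold projZ
  split_ifs with h0
  · obtain ⟨m, rfl⟩ := Int.eq_ofNat_of_zero_le h0
    rw [grZ_natCast, Int.toNat_natCast]
    exact proj_mem h m a
  · rw [LinearMap.zero_apply]; exact Submodule.zero_mem _

lemma projZ_same {i : ℕ} {a : V} (ha : a ∈ gr i) : projZ h (i : ℤ) a = a := by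
  rw [projZ, if_pos (Int.natCast_nonneg i), Int.toNat_natCast, proj_same h ha]

lemma projZ_ne {i : ℕ} {l : ℤ} {a : V} (ha : a ∈ gr i) (hl : (i : ℤ) ≠ l) : projZ h l a = 0 := by
  rw [projZ]
  split_ifs with h0
  · exact proj_ne h ha (by omega)
  · rfl

variable {V' : Type*} [AddCommGroup V'] [Module K V'] {gr' : ℕ → Submodule K V'}
  (h' : DirectSum.IsInternal gr')

/-- Homogeneous maps and projectors. -/
lemma proj_hom {φ : V →ₗ[K] V'} {s : ℤ} (hφ : ∀ i : ℕ, ∀ a ∈ gr i, φ a ∈ grZ gr' (i + s)) (l : ℕ)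
    (a : V) : proj h' l (φ a) = φ (projZ h (l - s) a) := by
  refine gr_induction h (p := fun a => proj h' l (φ a) = φ (projZ h (l - s) a)) ?_ ?_ a
  · intro i a ha
    have h1 := hφ i a ha
    by_cases hi : (i : ℤ) = l - s
    · rw [← hi, projZ_same h ha]
      rw [show (i : ℤ) + s = l by omega, grZ_natCast] at h1
      exact proj_same h' h1
    · rw [projZ_ne h ha hi, map_zero]
      by_cases h0 : 0 ≤ (i : ℤ) + s
      · obtain ⟨m, hm⟩ := Int.eq_ofNat_of_zero_le h0
        have h2 : φ a ∈ gr' m := by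
          have := h1
          rwa [hm, grZ_natCast] at this
        exact proj_ne h' h2 (by omega)
      · rw [grZ_of_neg (by omega)] at h1
        rw [(Submodule.mem_bot _).1 h1, map_zero]
  · intro a b ha hb
    rw [map_add, map_add, map_add, map_add, ha, hb]

end

end Pool.Agent.Y101
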