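import Pool.Agent.Y101.Blow
import Pool.Agent.Y101.Span
import Pool.Agent.W498.Dom.Class

/-!
# The conjecture B for a blow-up
-/

open CategoryTheory AlgebraicGeometry Finset

universe u v

namespace Pool.Agent.Y101

open Pool.Agent.H914 Pool.Agent.H447 Pool.Agent.W534 Pool.Agent.W550.B VarClass Obj
  WeilCohomology

variable {k : Type u} [Field k] {𝒱 : VarClass k} {ops : CycleOps 𝒱}
  {W : WeilCohomology.{u, v} ops} {X Z T F : 𝒱.Obj} {i : Z ⟶ X} {π : T ⟶ X} {j : F ⟶ T}
  {g : F ⟶ Z} {c : ℕ}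

/-- The varieties `X, Z, …, Z`. -/
def bfam (X Z : 𝒱.Obj) (c : ℕ) : Fin (c + 1) → 𝒱.Obj := Fin.cons X (fun _ => Z)

/-- The twists `0, 1, …, c`. -/
def btw (c : ℕ) : Fin (c + 1) → ℤ := Fin.cons 0 (fun r => (r : ℤ) + 1)

lemma mulRight_kop {p : ℕ} {a : W.H X} (ha : a ∈ spanCycles W X (p : ℕ)) :
    LinearMap.mulRight W.K a ∈ KOp W X X p := by
  rw [mem_KOp_iff]
  refine ⟨W.push (diag X) a, ?_, ?_⟩
  · rw [← Nat.cast_add]
    exact ka_push (diag X) (by rw [dim_prod]; ring) ha
  · apply LinearMap.ext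
    intro b
    rw [corr_diag, LinearMap.mulRight_apply, ka_comm ha]

section

variable (h : IsBlowup W i π j g c)
include h

lemma tau_kop (r : ℕ) : tau W j g r ∈ KOp W Z T (r + 1) := by
  have h1 : W.map j (W.cl T (exc ops j)) ^ r ∈ spanCycles W F (r : ℕ) :=
    ka_pow (ka_map j (ka_gen (exc_mem h.dimF))) r
  refine KOp.cast (KOp.comp (qop_push j).kop (KOp.comp (mulRight_kop h1) (qop_pull g).kop)) ?_
  rw [h.dimF]
  push_cast
  ring

/-- The bijective matrix of algebraic correspondences of a blow-up. -/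
lemma blow_bij : MapsBijectively W (bfam X Z c) (btw c) (fun _ : Fin 1 => T) (fun _ => 0) := by
  have h0 : ∃ F0 ∈ spanCycles W (X.prod T) ((X.dim : ℤ) + 0 - 0),
      W.corr F0 = (W.map π).toLinearMap := by
    have := mem_KOp_iff.1 (qop_pull (W := W) π).kop
    simpa using this
  obtain ⟨F0, hF0, hF0'⟩ := h0
  have h1 : ∀ r : Fin c, ∃ Fr ∈ spanCycles W (Z.prod T) ((Z.dim : ℤ) + ((r : ℤ) + 1) - 0),
      W.corr Fr = tau W j g r := by
    intro r
    have := mem_KOp_iff.1 (tau_kop h (r : ℕ))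
    simpa using this
  choose Fr hFr hFr' using h1
  set G : ∀ (s : Fin (c + 1)) (_ : Fin 1), W.H ((bfam X Z c s).prod T) := fun s _ =>
    Fin.cases (motive := fun s => W.H ((bfam X Z c s).prod T)) F0 Fr s with hG
  have hval : ∀ (x : ∀ s, W.H (bfam X Z c s)) (t : Fin 1),
      matrixOp W G x t = coords h (x 0, fun r => x r.succ) := by
    intro x t
    have e1 : matrixOp W G x t = ∑ s, W.corr (G s t) (x s) := by
      simp [matrixOp]
    rw [e1, Fin.sum_univ_succ, coords_apply]
    congr 1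
    · exact congrArg (fun f : W.H X →ₗ[W.K] W.H T => f (x 0)) hF0'
    · apply Finset.sum_congr rfl
      intro r _
      exact congrArg (fun f : W.H Z →ₗ[W.K] W.H T => f (x r.succ)) (hFr' r)
  refine ⟨G, ?_, ?_, ?_⟩
  · intro s t
    refine Fin.cases ?_ (fun r => ?_) s
    · exact hF0
    · exact hFr r
  · intro x y hxy
    have h2 := congrFun hxy 0
    rw [hval, hval] at h2
    have h3 := (coords h).injective h2
    funext s
    refine Fin.cases ?_ (fun r => ?_) s
    · exact congrArg Prod.fst h3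
    · exact congrFun (congrArg Prod.snd h3) r
  · intro y
    set e := (coords h).symm (y 0) with he
    refine ⟨Fin.cons (α := fun s => W.H (bfam X Z c s)) e.1 e.2, ?_⟩
    funext t
    rw [hval]
    have h2 : coords h e = y 0 := LinearEquiv.apply_symm_apply _ _
    rw [show t = 0 from Subsingleton.elim _ _, ← h2]
    rfl

/-- **The conjecture B for a blow-up.** -/
theorem blow_B (hc : 1 ≤ c) {D : X.Cycles} {E : Z.Cycles} {C : T.Cycles}
    (hD : IsLefschetzDivisor W X D) (hE : IsLefschetzDivisor W Z E)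
    (hC : IsLefschetzDivisor W T C) :
    LefschetzB W T C ↔ LefschetzB W X D ∧ LefschetzB W Z E := by
  have h1 := sums_main (X := bfam X Z c) (a := btw c) (Y := fun _ : Fin 1 => T) (b := fun _ => 0)
    (D := Fin.cons (α := fun s => (bfam X Z c s).Cycles) D (fun _ => E)) (E := fun _ => C)
    (by
      intro s
      refine Fin.cases ?_ (fun r => ?_) s
      · exact hD
      · exact hE) (fun _ => hC) (blow_bij h)
  constructor
  · intro hB
    have h2 := h1.2 (fun _ => hB)
    exact ⟨h2 0, h2 (Fin.succ ⟨0, by omega⟩)⟩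
  · rintro ⟨hX, hZ⟩
    refine h1.1 (fun s => ?_) 0
    refine Fin.cases ?_ (fun r => ?_) s
    · exact hX
    · exact hZ

end

end Pool.Agent.Y101
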