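import Pool.Agent.Y101.BlowM
import Pool.Agent.Y101.Span

/-!
# Degeneration of the polarisation on a blow-up
-/

open CategoryTheory AlgebraicGeometry Finset Polynomial

universe u v

namespace Pool.Agent.Y101

open Pool.Agent.H914 Pool.Agent.H447 Pool.Agent.W534 Pool.Agent.W498.Dom VarClass Obj
  WeilCohomology

variable {k : Type u} [Field k] {𝒱 : VarClass k} {ops : CycleOps 𝒱}
  {W : WeilCohomology.{u, v} ops} {X Z T F : 𝒱.Obj} {i : Z ⟶ X} {π : T ⟶ X} {j : F ⟶ T}
  {g : F ⟶ Z} {c m : ℕ}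

lemma isHom_L {D : X.Cycles} (hD : X.IsCyc 1 D) :
    IsHom (W.gr X) 2 (LinearMap.mulLeft W.K (W.cl X D)) := by
  simpa using rop_opAlg.hom (rop_mulLeft (W := W) hD)

lemma map_hom {Y : 𝒱.Obj} (f : Y ⟶ X) (i : ℕ) (a : W.H X) (ha : a ∈ W.gr X i) :
    (W.map f).toLinearMap a ∈ grZ (W.gr Y) (i + 0) := by
  rw [add_zero, grZ_natCast]
  exact W.map_mem f ha

lemma proj_map {Y : 𝒱.Obj} (f : Y ⟶ X) (l : ℕ) (a : W.H X) :
    proj (W.isInternal Y) l (W.map f a) = W.map f (proj (W.isInternal X) l a) := by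
  have h1 := proj_hom (W.isInternal X) (W.isInternal Y) (φ := (W.map f).toLinearMap) (s := 0)
    (map_hom f) l a
  rw [sub_zero, projZ, if_pos (Int.natCast_nonneg l), Int.toNat_natCast] at h1
  exact h1

section

variable (h : IsBlowup W i π j g c)
include h

lemma tau_hom (r : ℕ) (l : ℕ) (a : W.H Z) (ha : a ∈ W.gr Z l) :
    tau W j g r a ∈ grZ (W.gr T) (l + (2 * (r : ℤ) + 2)) := by
  have h1 := W.push_mem j (W.mul_mem (W.map_mem g ha) (zeta_pow_mem h r))
  rw [h.dimF] at h1
  rw [tau_apply]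
  convert h1 using 2
  push_cast
  ring

/-- The homogeneous coordinates. -/
lemma proj_coords (r : ℕ) (e : W.H X × (Fin c → W.H Z)) :
    proj (W.isInternal T) (2 * r) (coords h e) =
      coords h (proj (W.isInternal X) (2 * r) e.1,
        fun s => projZ (W.isInternal Z) (2 * (r : ℤ) - 2 - 2 * (s : ℕ)) (e.2 s)) := by
  rw [coords_apply, coords_apply, map_add, proj_map, map_sum]
  congr 1
  apply Finset.sum_congr rfl
  intro s _
  rw [proj_hom (W.isInternal Z) (W.isInternal T) (tau_hom h s)]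
  congr 3
  push_cast
  ring

/-- The coordinates of a class of degree `2 r`. -/
lemma coords_mem {r : ℕ} {e : W.H X × (Fin c → W.H Z)} (he : coords h e ∈ W.gr T (2 * r)) :
    e.1 ∈ W.gr X (2 * r) ∧
      ∀ s : Fin c, e.2 s ∈ grZ (W.gr Z) (2 * (r : ℤ) - 2 - 2 * (s : ℕ)) := by
  have h1 := proj_coords h r e
  rw [proj_same _ he] at h1
  have h2 := (coords h).injective h1
  constructor
  · rw [h2]
    exact proj_mem _ _ _
  · intro s
    rw [h2]
    exact projZ_mem _ _ _

end

/-- The homogeneous part of the space of coordinates. -/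
def bE (W : WeilCohomology.{u, v} ops) (X Z : 𝒱.Obj) (c r : ℕ) :
    Submodule W.K (W.H X × (Fin c → W.H Z)) :=
  (W.gr X (2 * r)).prod
    (Submodule.pi Set.univ fun s : Fin c => grZ (W.gr Z) (2 * (r : ℤ) - 2 - 2 * (s : ℕ)))

lemma mem_bE {r : ℕ} {e : W.H X × (Fin c → W.H Z)} : e ∈ bE W X Z c r ↔ e.1 ∈ W.gr X (2 * r) ∧
    ∀ s : Fin c, e.2 s ∈ grZ (W.gr Z) (2 * (r : ℤ) - 2 - 2 * (s : ℕ)) := by
  simp [bE, Submodule.mem_prod, Submodule.mem_pi]

lemma prodMap_pow {K : Type*} [Field K] {V V' : Type*} [AddCommGroup V] [Module K V]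
    [AddCommGroup V'] [Module K V'] (f : Module.End K V) (f' : Module.End K V') (n : ℕ)
    (e : V × V') : ((LinearMap.prodMap f f' : Module.End K (V × V')) ^ n) e =
      ((f ^ n) e.1, (f' ^ n) e.2) := by
  induction n generalizing e with
  | zero => rfl
  | succ n ih =>
    rw [pow_succ, Module.End.mul_apply, ih, pow_succ, pow_succ]
    rfl

/-- Rescaled coordinates. -/
noncomputable def rescale (W : WeilCohomology.{u, v} ops) (m : ℕ)
    (e : W.H X × (Fin (m + 1) → W.H Z)) (t : W.K) : W.H X × (Fin (m + 1) → W.H Z) :=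
  LinearMap.inl W.K _ _ e.1 + ∑ s : Fin (m + 1), ((Polynomial.X : W.K[X]) ^ (m - (s : ℕ))).eval t •
    (LinearMap.inr W.K (W.H X) (Fin (m + 1) → W.H Z)) (LinearMap.single W.K (fun _ => W.H Z) s (e.2 s))

lemma rescale_pvec (e : W.H X × (Fin (m + 1) → W.H Z)) : PVec (rescale W m e) :=
  (PVec.const _).add (PVec.sum fun _ _ => (PVec.const _).smul _)

lemma rescale_fst (e : W.H X × (Fin (m + 1) → W.H Z)) (t : W.K) : (rescale W m e t).1 = e.1 := by
  simp [rescale, Prod.fst_sum]

lemma rescale_snd (e : W.H X × (Fin (m + 1) → W.H Z)) (t : W.K) (s : Fin (m + 1)) :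
    (rescale W m e t).2 s = t ^ (m - (s : ℕ)) • e.2 s := by
  simp only [rescale, Prod.snd_add, Prod.snd_sum, LinearMap.inl_apply, zero_add, Prod.smul_snd,
    LinearMap.inr_apply, Finset.sum_apply, Pi.smul_apply, eval_pow, eval_X]
  rw [Finset.sum_eq_single s]
  · simp
  · intro s' _ hs
    simp [hs]
  · intro hs; exact absurd (Finset.mem_univ _) hs

section

variable (h : IsBlowup W i π j g (m + 1))
include h

lemma bTh_rescale {t : W.K} (ht : t ≠ 0) (e : W.H X × (Fin (m + 1) → W.H Z)) :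
    bTh W m π j g t (rescale W m e t) = coords h e := by
  rw [bTh_apply, coords_apply, rescale_fst]
  congr 1
  apply Finset.sum_congr rfl
  intro s _
  rw [rescale_snd, map_smul, smul_smul, ← mul_pow, inv_mul_cancel₀ ht, one_pow, one_smul]

lemma bTh_inj {t : W.K} (ht : t ≠ 0) : Function.Injective (bTh W m π j g t) := by
  rw [← LinearMap.ker_eq_bot, LinearMap.ker_eq_bot']
  intro e he
  set e' : W.H X × (Fin (m + 1) → W.H Z) := (e.1, fun s => (t⁻¹) ^ (m - (s : ℕ)) • e.2 s) with he'
  have h1 : coords h e' = 0 := by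
    rw [← he, bTh_apply, coords_apply]
    congr 1
    apply Finset.sum_congr rfl
    intro s _
    rw [he', map_smul]
  have h2 : e' = 0 := by
    apply (coords h).injective
    rw [h1, map_zero]
  apply Prod.ext
  · have h3 := congrArg Prod.fst h2
    simpa [he'] using h3
  · funext s
    have h3 := congrFun (congrArg Prod.snd h2) s
    simp only [he', Prod.snd_zero, Pi.zero_apply] at h3
    exact (smul_eq_zero.1 h3).resolve_left (pow_ne_zero _ (inv_ne_zero ht))

lemma bM_pow_spec {a : W.H X} (ha : a ∈ W.gr X 2) {t : W.K} (ht : t ≠ 0) (n : ℕ)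
    (e : W.H X × (Fin (m + 1) → W.H Z)) :
    (W.map π a - t • W.cl T (exc ops j)) ^ n * bTh W m π j g t e =
      bTh W m π j g t ((bM W m i (topCo h) a (W.map i a) t ^ n) e) := by
  induction n generalizing e with
  | zero => simp
  | succ n ih =>
    rw [pow_succ, mul_assoc, bM_spec h ha ht, ih, pow_succ, Module.End.mul_apply]

/-- **Degeneration of the polarisation on a blow-up.** If a class `w` on the blow-up is divisible,
by the power `k = dim X - 2 r` of `π^* D - t E` and with a quotient in the span of the algebraic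
classes of codimension `r`, for infinitely many rational `t`, then `π_* w` is divisible by the same
power of `D`. -/
theorem blow_limit {D : X.Cycles} (hD : X.IsCyc 1 D) (hX : HardLefschetz W X D)
    (hZ : HardLefschetz W Z (ops.pull i D)) {r n : ℕ} (hn : 2 * r + n = X.dim) {w : W.H T}
    {S : Set ℚ} (hS : S.Infinite) (hw : ∀ t ∈ S, ∃ y ∈ spanCycles W T (r : ℕ),
      (W.map π (W.cl X D) - (t : W.K) • W.cl T (exc ops j)) ^ n * y = w) :
    ∃ x ∈ spanCycles W X (r : ℕ), W.cl X D ^ n * x = W.push π w := by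
  have hD2 : W.cl X D ∈ W.gr X 2 := W.cl_mem (p := 1) hD
  set e := (coords h).symm w with he
  have hwe : coords h e = w := LinearEquiv.apply_symm_apply _ _
  set M := bM W m i (topCo h) (W.cl X D) (W.map i (W.cl X D)) with hM
  set A : W.K → bE W X Z (m + 1) r →ₗ[W.K] (W.H X × (Fin (m + 1) → W.H Z)) := fun t =>
    (M t ^ n) ∘ₗ (bE W X Z (m + 1) r).subtype with hA
  have hAf : PFam A := fun x =>
    ((bM_pfam (i := i) (topCo h) (W.cl X D) (W.map i (W.cl X D))).pow n) x.1
  have hA0 : Function.Injective (A 0) := by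
    rw [← LinearMap.ker_eq_bot, LinearMap.ker_eq_bot']
    rintro ⟨x, hx⟩ h0
    apply Subtype.ext
    obtain ⟨hx1, hx2⟩ := mem_bE.1 hx
    rw [hA] at h0
    simp only [LinearMap.comp_apply, Submodule.subtype_apply] at h0
    rw [hM, bM_zero, bM0, prodMap_pow] at h0
    apply Prod.ext
    · refine (hX (2 * r) (by omega)).1 _ hx1 ?_
      rw [show X.dim - 2 * r = n by omega]
      exact congrArg Prod.fst h0
    · have hdX := h.dimX
      refine shift_inj (W.isInternal Z) (n := Z.dim) (L := LinearMap.mulLeft W.K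
        (W.map i (W.cl X D))) ?_ W_hbd ?_ (N := m + 1) one_ne_zero (neg_ne_zero.2 one_ne_zero)
        (c := n) (d := 2 * (r : ℤ) - 2) ?_ hx2 (congrArg Prod.snd h0)
      · rw [← W.cl_pull]
        exact isHom_L (ops.pull_mem i hD)
      · rw [← W.cl_pull]
        exact hZ
      · push_cast
        omega
  obtain ⟨⟨x, hx⟩, hx0, hxS⟩ := PFam.limit hAf hA0 (rescale_pvec e)
    ((LinearMap.fst W.K _ _) ∘ₗ (bE W X Z (m + 1) r).subtype) (spanCycles W X (r : ℕ))
    (T := (fun t : ℚ => (t : W.K)) '' (S \ {0}))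
    ((hS.sdiff (Set.finite_singleton 0)).image (Set.injOn_of_injective Rat.cast_injective)) (by
      rintro _ ⟨t, ⟨ht, ht0⟩, rfl⟩
      have ht0' : (t : W.K) ≠ 0 := by
        rw [Ne, Rat.cast_eq_zero]
        exact ht0
      obtain ⟨y, hy, hyw⟩ := hw t ht
      set e' := (coords h).symm y with he'
      have hye : coords h e' = y := LinearEquiv.apply_symm_apply _ _
      have hmem := coords_mem h (r := r) (e := e') (by rw [hye]; exact ka_gr hy)
      refine ⟨⟨rescale W m e' t, ?_⟩, ?_, ?_⟩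
      · rw [mem_bE, rescale_fst]
        refine ⟨hmem.1, fun s => ?_⟩
        rw [rescale_snd]
        exact Submodule.smul_mem _ _ (hmem.2 s)
      · apply bTh_inj h ht0'
        rw [hA]
        simp only [LinearMap.comp_apply, Submodule.subtype_apply]
        rw [hM, ← bM_pow_spec h hD2 ht0', bTh_rescale h ht0', bTh_rescale h ht0', hye, hwe, hyw]
      · simp only [LinearMap.comp_apply, Submodule.subtype_apply, LinearMap.fst_apply]
        rw [rescale_fst, ← push_coords h e', hye]
        exact ka_push π (by rw [h.dimT]) hy)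
  refine ⟨x.1, hxS, ?_⟩
  have h1 := congrArg Prod.fst hx0
  rw [hA] at h1
  simp only [LinearMap.comp_apply, Submodule.subtype_apply] at h1
  rw [hM, bM_zero, bM0, prodMap_pow, rescale_fst, LinearMap.pow_mulLeft,
    LinearMap.mulLeft_apply] at h1
  have h2 : W.cl X D ^ n * x.1 = e.1 := h1
  rw [h2, ← hwe, push_coords h]

end

end Pool.Agent.Y101
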