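import Pool.Agent.Y101.Blow

/-!
# Multiplication by `π^* D - t E` on the cohomology of a blow-up
-/

open CategoryTheory AlgebraicGeometry Finset Polynomial

universe u v

namespace Pool.Agent.Y101

open Pool.Agent.H914 Pool.Agent.H447 Pool.Agent.W534 Pool.Agent.W498.Dom VarClass Obj
  WeilCohomology

variable {k : Type u} [Field k] {𝒱 : VarClass k} {ops : CycleOps 𝒱}
  {W : WeilCohomology.{u, v} ops} {X Z T F : 𝒱.Obj} {i : Z ⟶ X} {π : T ⟶ X} {j : F ⟶ T}
  {g : F ⟶ Z} {m : ℕ}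

/-- The constant part. -/
noncomputable def bM0 (W : WeilCohomology.{u, v} ops) (X Z : 𝒱.Obj) (m : ℕ) (a : W.H X)
    (b : W.H Z) : Module.End W.K (W.H X × (Fin (m + 1) → W.H Z)) :=
  LinearMap.prodMap (LinearMap.mulLeft W.K a)
    ((1 : W.K) • mapF (m + 1) (LinearMap.mulLeft W.K b) +
      (-1 : W.K) • shiftF W.K (W.H Z) (m + 1))

/-- The part with values in `H(X)`. -/
noncomputable def bR0 (W : WeilCohomology.{u, v} ops) (m : ℕ) (i : Z ⟶ X) :
    Module.End W.K (W.H X × (Fin (m + 1) → W.H Z)) :=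
  LinearMap.inl W.K _ _ ∘ₗ ((-1 : W.K) ^ (m + 1) • (W.push i ∘ₗ
    LinearMap.proj (Fin.last m) ∘ₗ LinearMap.snd W.K _ _))

/-- The part with values in the coordinate `r`. -/
noncomputable def bR1 (W : WeilCohomology.{u, v} ops) (X Z : 𝒱.Obj) (m : ℕ)
    (B : W.H Z →ₗ[W.K] (Fin (m + 1) → W.H Z)) (r : Fin (m + 1)) :
    Module.End W.K (W.H X × (Fin (m + 1) → W.H Z)) :=
  LinearMap.inr W.K _ _ ∘ₗ LinearMap.single W.K (fun _ => W.H Z) r ∘ₗ LinearMap.proj r ∘ₗ B ∘ₗ
    LinearMap.proj (Fin.last m) ∘ₗ LinearMap.snd W.K _ _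

/-- The part with values in the coordinate `0`. -/
noncomputable def bR2 (W : WeilCohomology.{u, v} ops) (m : ℕ) (i : Z ⟶ X) :
    Module.End W.K (W.H X × (Fin (m + 1) → W.H Z)) :=
  LinearMap.inr W.K _ _ ∘ₗ LinearMap.single W.K (fun _ => W.H Z) 0 ∘ₗ (W.map i).toLinearMap ∘ₗ
    LinearMap.fst W.K _ _

/-- Multiplication by `π^* D - t E` in the rescaled coordinates. -/
noncomputable def bM (W : WeilCohomology.{u, v} ops) (m : ℕ) (i : Z ⟶ X)
    (B : W.H Z →ₗ[W.K] (Fin (m + 1) → W.H Z)) (a : W.H X) (b : W.H Z) (t : W.K) :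
    Module.End W.K (W.H X × (Fin (m + 1) → W.H Z)) :=
  bM0 W X Z m a b - (Polynomial.X : W.K[X]).eval t • bR0 W m i -
    ∑ r : Fin (m + 1), ((Polynomial.X : W.K[X]) ^ (m + 1 - (r : ℕ))).eval t • bR1 W X Z m B r -
    ((Polynomial.X : W.K[X]) ^ (m + 1)).eval t • bR2 W m i

lemma bM_pfam (B : W.H Z →ₗ[W.K] (Fin (m + 1) → W.H Z)) (a : W.H X) (b : W.H Z) :
    PFam (bM W m i B a b) := by
  refine (((PFam.const _).sub ((PFam.const _).smul _)).sub (PFam.sum fun r _ => ?_)).sub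
    ((PFam.const _).smul _)
  exact (PFam.const _).smul _

lemma bM_zero (B : W.H Z →ₗ[W.K] (Fin (m + 1) → W.H Z)) (a : W.H X) (b : W.H Z) :
    bM W m i B a b 0 = bM0 W X Z m a b := by
  unfold bM
  rw [eval_X, zero_smul, sub_zero, Finset.sum_eq_zero, sub_zero, eval_pow, eval_X,
    zero_pow (Nat.succ_ne_zero m), zero_smul, sub_zero]
  intro r _
  rw [eval_pow, eval_X, zero_pow (by omega), zero_smul]

/-- The rescaled coordinates. -/
noncomputable def bTh (W : WeilCohomology.{u, v} ops) (m : ℕ) (π : T ⟶ X) (j : F ⟶ T) (g : F ⟶ Z)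
    (t : W.K) : (W.H X × (Fin (m + 1) → W.H Z)) →ₗ[W.K] W.H T :=
  (W.map π).toLinearMap ∘ₗ LinearMap.fst _ _ _ +
    ∑ r : Fin (m + 1), (t⁻¹) ^ (m - (r : ℕ)) • (tau W j g r ∘ₗ LinearMap.proj r ∘ₗ
      LinearMap.snd _ _ _)

lemma bTh_apply (t : W.K) (e : W.H X × (Fin (m + 1) → W.H Z)) :
    bTh W m π j g t e = W.map π e.1 + ∑ r : Fin (m + 1), (t⁻¹) ^ (m - (r : ℕ)) •
      tau W j g r (e.2 r) := by
  simp only [bTh, LinearMap.add_apply, LinearMap.comp_apply, LinearMap.fst_apply,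
    AlgHom.toLinearMap_apply, LinearMap.sum_apply, LinearMap.snd_apply, LinearMap.proj_apply,
    LinearMap.smul_apply]

variable (h : IsBlowup W i π j g (m + 1))
include h

/-- **Multiplication by `π^* D - t E`.** -/
lemma bM_spec {a : W.H X} (ha : a ∈ W.gr X 2) {t : W.K} (ht : t ≠ 0)
    (e : W.H X × (Fin (m + 1) → W.H Z)) :
    (W.map π a - t • W.cl T (exc ops j)) * bTh W m π j g t e =
      bTh W m π j g t (bM W m i (topCo h) a (W.map i a) t e) := by
  have ht1 : t * t⁻¹ = 1 := mul_inv_cancel₀ ht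
  -- the left hand side
  have hL : (W.map π a - t • W.cl T (exc ops j)) * bTh W m π j g t e =
      W.map π (a * e.1) - t • tau W j g 0 (W.map i e.1) +
        ∑ r : Fin (m + 1), (t⁻¹) ^ (m - (r : ℕ)) • (tau W j g r (W.map i a * e.2 r) -
          t • tau W j g (r + 1) (e.2 r)) := by
    rw [bTh_apply, mul_add, sub_mul, ← map_mul, smul_mul_assoc, exc_mul_map h, Finset.mul_sum]
    congr 1
    apply Finset.sum_congr rfl
    intro r _
    rw [mul_smul_comm, sub_mul, map_mul_tau h (p := 1) ha, smul_mul_assoc, exc_mul_tau h]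
  -- the parts of the right hand side
  have h0 : bTh W m π j g t (bM0 W X Z m a (W.map i a) e) =
      W.map π (a * e.1) + ∑ r : Fin (m + 1), (t⁻¹) ^ (m - (r : ℕ)) •
        tau W j g r (W.map i a * e.2 r) - ∑ r : Fin (m + 1), (t⁻¹) ^ (m - (r : ℕ)) •
          tau W j g r (shiftF W.K (W.H Z) (m + 1) e.2 r) := by
    rw [bTh_apply, add_sub_assoc, ← Finset.sum_sub_distrib]
    congr 1
    apply Finset.sum_congr rfl
    intro r _
    rw [← smul_sub, ← map_sub]
    congr 2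
    simp only [bM0, LinearMap.prodMap_apply, LinearMap.add_apply, LinearMap.smul_apply,
      Pi.add_apply, Pi.smul_apply, mapF_apply, LinearMap.mulLeft_apply]
    rw [one_smul, neg_one_smul, ← sub_eq_add_neg]
  have h1 : bTh W m π j g t (bR0 W m i e) =
      (-1 : W.K) ^ (m + 1) • W.map π (W.push i (e.2 (Fin.last m))) := by
    rw [bTh_apply, Finset.sum_eq_zero]
    · simp [bR0]
    · intro r _
      simp [bR0]
  have h2 : ∀ r : Fin (m + 1), bTh W m π j g t (bR1 W X Z m (topCo h) r e) =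
      (t⁻¹) ^ (m - (r : ℕ)) • tau W j g r (topCo h (e.2 (Fin.last m)) r) := by
    intro r
    rw [bTh_apply, Finset.sum_eq_single r]
    · simp [bR1]
    · intro s _ hs
      simp [bR1, hs]
    · intro hr
      exact absurd (Finset.mem_univ _) hr
  have h3 : bTh W m π j g t (bR2 W m i e) = (t⁻¹) ^ m • tau W j g 0 (W.map i e.1) := by
    rw [bTh_apply, Finset.sum_eq_single 0]
    · simp [bR2]
    · intro s _ hs
      simp [bR2, hs]
    · intro hr
      exact absurd (Finset.mem_univ _) hr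
  have hp : ∀ s ≤ m, t ^ (m + 1 - s) * (t⁻¹) ^ (m - s) = t := by
    intro s hs
    rw [show m + 1 - s = (m - s) + 1 by omega, pow_succ, mul_right_comm, ← mul_pow, ht1, one_pow,
      one_mul]
  rw [hL, bM, LinearMap.sub_apply, LinearMap.sub_apply, LinearMap.sub_apply, map_sub, map_sub,
    map_sub, h0, LinearMap.smul_apply, map_smul, h1, LinearMap.sum_apply, map_sum,
    LinearMap.smul_apply, map_smul, h3]
  have h4 : ∑ r : Fin (m + 1), bTh W m π j g t ((eval t ((Polynomial.X : W.K[X]) ^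
      (m + 1 - (r : ℕ))) • bR1 W X Z m (topCo h) r) e) =
      t • ∑ r : Fin (m + 1), tau W j g r (topCo h (e.2 (Fin.last m)) r) := by
    rw [Finset.smul_sum]
    apply Finset.sum_congr rfl
    intro r _
    rw [LinearMap.smul_apply, map_smul, h2, smul_smul, eval_pow, eval_X, hp _ (by omega)]
  have h5 : (eval t ((Polynomial.X : W.K[X]) ^ (m + 1))) • (t⁻¹) ^ m •
      tau W j g 0 (W.map i e.1) = t • tau W j g 0 (W.map i e.1) := by
    rw [eval_pow, eval_X, smul_smul]
    congr 1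
    exact hp 0 (Nat.zero_le _)
  rw [h4, h5, eval_X]
  -- the shift
  have h6 : ∑ r : Fin (m + 1), (t⁻¹) ^ (m - (r : ℕ)) • (t • tau W j g (r + 1) (e.2 r)) =
      ∑ r : Fin (m + 1), (t⁻¹) ^ (m - (r : ℕ)) •
          tau W j g r (shiftF W.K (W.H Z) (m + 1) e.2 r) +
        t • tau W j g (m + 1) (e.2 (Fin.last m)) := by
    rw [Fin.sum_univ_castSucc, Fin.sum_univ_succ]
    have e1 : (t⁻¹) ^ (m - ((0 : Fin (m + 1)) : ℕ)) •
        tau W j g ((0 : Fin (m + 1)) : ℕ) (shiftF W.K (W.H Z) (m + 1) e.2 0) = 0 := by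
      rw [shiftF_apply, dif_neg (by simp), map_zero, smul_zero]
    rw [e1, zero_add]
    congr 1
    · apply Finset.sum_congr rfl
      intro r _
      rw [shiftF_apply, dif_pos (by simp), smul_smul]
      have e2 : (⟨((Fin.succ r : Fin (m + 1)) : ℕ) - 1, by omega⟩ : Fin (m + 1)) =
          Fin.castSucc r := by
        apply Fin.ext
        simp
      rw [e2]
      have e3 : (t⁻¹) ^ (m - ((Fin.castSucc r : Fin (m + 1)) : ℕ)) * t =
          (t⁻¹) ^ (m - ((Fin.succ r : Fin (m + 1)) : ℕ)) := by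
        have : m - ((Fin.castSucc r : Fin (m + 1)) : ℕ) =
            (m - ((Fin.succ r : Fin (m + 1)) : ℕ)) + 1 := by
          simp only [Fin.val_castSucc, Fin.val_succ]
          omega
        rw [this, pow_succ, mul_assoc, mul_comm t⁻¹ t, ht1, mul_one]
      rw [e3]
      simp only [Fin.val_castSucc, Fin.val_succ]
    · simp
  have h7 := tau_top h (e.2 (Fin.last m))
  have h8 : ∑ r : Fin (m + 1), (t⁻¹) ^ (m - (r : ℕ)) • (tau W j g r (W.map i a * e.2 r) -
      t • tau W j g (r + 1) (e.2 r)) = ∑ r : Fin (m + 1), (t⁻¹) ^ (m - (r : ℕ)) •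
        tau W j g r (W.map i a * e.2 r) - ∑ r : Fin (m + 1), (t⁻¹) ^ (m - (r : ℕ)) •
          (t • tau W j g (r + 1) (e.2 r)) := by
    rw [← Finset.sum_sub_distrib]
    apply Finset.sum_congr rfl
    intro r _
    rw [smul_sub]
  rw [h8, h6, h7, smul_add]
  abel

end Pool.Agent.Y101
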