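import Pool.Agent.Y101.BlowL

/-!
# Multiplication by `q^* D + t ξ` on the cohomology of a projective bundle
-/

open CategoryTheory AlgebraicGeometry Finset Polynomial

universe u v

namespace Pool.Agent.Y101

open Pool.Agent.H914 Pool.Agent.H447 Pool.Agent.W534 Pool.Agent.W498.Dom VarClass Obj
  WeilCohomology

variable {k : Type u} [Field k] {𝒱 : VarClass k} {ops : CycleOps 𝒱}
  {W : WeilCohomology.{u, v} ops} {X T : 𝒱.Obj} {q : T ⟶ X} {ξ : T.Cycles} {m : ℕ}

/-- `H(T)` is free over `H(X)` on the powers `1, …, ξ ^ m`. -/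
structure IsBun (W : WeilCohomology.{u, v} ops) {X T : 𝒱.Obj} (q : T ⟶ X) (ξ : T.Cycles)
    (m : ℕ) : Prop where
  dim : T.dim = X.dim + m
  div : T.IsCyc 1 ξ
  basis : Function.Bijective fun a : Fin (m + 1) → W.H X =>
    ∑ r, W.map q (a r) * W.cl T ξ ^ (r : ℕ)

/-- The class `q^*(a) ξ ^ r`. -/
noncomputable def sig (W : WeilCohomology.{u, v} ops) {X T : 𝒱.Obj} (q : T ⟶ X) (ξ : T.Cycles)
    (r : ℕ) : W.H X →ₗ[W.K] W.H T :=
  LinearMap.mulRight W.K (W.cl T ξ ^ r) ∘ₗ (W.map q).toLinearMap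

lemma sig_apply (r : ℕ) (a : W.H X) : sig W q ξ r a = W.map q a * W.cl T ξ ^ r := rfl

section

variable (h : IsBun W q ξ m)
include h

lemma xi_mem : W.cl T ξ ∈ W.gr T (2 * 1) := W.cl_mem h.div

lemma xi_pow_mem (r : ℕ) : W.cl T ξ ^ r ∈ W.gr T (2 * r) := pow_even (xi_mem h) r

lemma sig_hom (r : ℕ) (l : ℕ) (a : W.H X) (ha : a ∈ W.gr X l) :
    sig W q ξ r a ∈ grZ (W.gr T) (l + 2 * (r : ℤ)) := by
  have h1 := W.mul_mem (W.map_mem q ha) (xi_pow_mem h r)
  rw [sig_apply, show (l : ℤ) + 2 * (r : ℤ) = ((l + 2 * r : ℕ) : ℤ) by push_cast; ring,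
    grZ_natCast]
  exact h1

lemma xi_mul_sig (r : ℕ) (a : W.H X) : W.cl T ξ * sig W q ξ r a = sig W q ξ (r + 1) a := by
  rw [sig_apply, sig_apply, W.even_comm (xi_mem h), mul_assoc, ← pow_succ]

/-- The coordinates. -/
noncomputable def bcoords : (Fin (m + 1) → W.H X) ≃ₗ[W.K] W.H T :=
  LinearEquiv.ofBijective
    (∑ r : Fin (m + 1), sig W q ξ r ∘ₗ LinearMap.proj r)
    (by
      have := h.basis
      convert this using 1
      funext a
      simp only [LinearMap.comp_apply, LinearMap.sum_apply, LinearMap.proj_apply, sig_apply])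

lemma bcoords_apply (a : Fin (m + 1) → W.H X) :
    bcoords h a = ∑ r : Fin (m + 1), sig W q ξ r (a r) := by
  rw [bcoords, LinearEquiv.ofBijective_apply]
  simp only [LinearMap.comp_apply, LinearMap.sum_apply, LinearMap.proj_apply]

lemma bproj_coords (r : ℕ) (a : Fin (m + 1) → W.H X) :
    proj (W.isInternal T) (2 * r) (bcoords h a) =
      bcoords h (fun s => projZ (W.isInternal X) (2 * (r : ℤ) - 2 * (s : ℕ)) (a s)) := by
  rw [bcoords_apply, bcoords_apply, map_sum]
  apply Finset.sum_congr rfl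
  intro s _
  rw [proj_hom (W.isInternal X) (W.isInternal T) (sig_hom h s)]
  congr 3

/-- The coordinates of a class of degree `2 r`. -/
lemma bcoords_mem {r : ℕ} {a : Fin (m + 1) → W.H X} (ha : bcoords h a ∈ W.gr T (2 * r))
    (s : Fin (m + 1)) : a s ∈ grZ (W.gr X) (2 * (r : ℤ) - 2 * (s : ℕ)) := by
  have h1 := bproj_coords h r a
  rw [proj_same _ ha] at h1
  have h2 := (bcoords h).injective h1
  rw [h2]
  exact projZ_mem _ _ _

/-- The coordinates of `q^*(a) ξ ^ (m + 1)`. -/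
noncomputable def btop : W.H X →ₗ[W.K] (Fin (m + 1) → W.H X) :=
  (bcoords h).symm.toLinearMap ∘ₗ sig W q ξ (m + 1)

lemma sig_top (a : W.H X) :
    sig W q ξ (m + 1) a = ∑ r : Fin (m + 1), sig W q ξ r (btop h a r) := by
  rw [← bcoords_apply h]
  exact (LinearEquiv.apply_symm_apply _ _).symm

end

/-- The part with values in the coordinate `r`. -/
noncomputable def pR (W : WeilCohomology.{u, v} ops) (X : 𝒱.Obj) (m : ℕ)
    (B : W.H X →ₗ[W.K] (Fin (m + 1) → W.H X)) (r : Fin (m + 1)) :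
    Module.End W.K (Fin (m + 1) → W.H X) :=
  LinearMap.single W.K (fun _ => W.H X) r ∘ₗ LinearMap.proj r ∘ₗ B ∘ₗ LinearMap.proj (Fin.last m)

/-- The constant part. -/
noncomputable def pM0 (W : WeilCohomology.{u, v} ops) (X : 𝒱.Obj) (m : ℕ) (a : W.H X) :
    Module.End W.K (Fin (m + 1) → W.H X) :=
  (1 : W.K) • mapF (m + 1) (LinearMap.mulLeft W.K a) + (1 : W.K) • shiftF W.K (W.H X) (m + 1)

/-- Multiplication by `q^* D + t ξ` in the rescaled coordinates. -/
noncomputable def pM (W : WeilCohomology.{u, v} ops) (X : 𝒱.Obj) (m : ℕ)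
    (B : W.H X →ₗ[W.K] (Fin (m + 1) → W.H X)) (a : W.H X) (t : W.K) :
    Module.End W.K (Fin (m + 1) → W.H X) :=
  pM0 W X m a + ∑ r : Fin (m + 1), ((Polynomial.X : W.K[X]) ^ (m + 1 - (r : ℕ))).eval t •
    pR W X m B r

lemma pM_pfam (B : W.H X →ₗ[W.K] (Fin (m + 1) → W.H X)) (a : W.H X) :
    PFam (pM W X m B a) :=
  (PFam.const _).add (PFam.sum fun _ _ => (PFam.const _).smul _)

lemma pM_zero (B : W.H X →ₗ[W.K] (Fin (m + 1) → W.H X)) (a : W.H X) :
    pM W X m B a 0 = pM0 W X m a := by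
  unfold pM
  rw [Finset.sum_eq_zero, add_zero]
  intro r _
  rw [eval_pow, eval_X, zero_pow (by omega), zero_smul]

/-- The rescaled coordinates. -/
noncomputable def pTh (W : WeilCohomology.{u, v} ops) (q : T ⟶ X) (ξ : T.Cycles) (m : ℕ)
    (t : W.K) : (Fin (m + 1) → W.H X) →ₗ[W.K] W.H T :=
  ∑ r : Fin (m + 1), t ^ (r : ℕ) • (sig W q ξ r ∘ₗ LinearMap.proj r)

lemma pTh_apply (t : W.K) (a : Fin (m + 1) → W.H X) :
    pTh W q ξ m t a = ∑ r : Fin (m + 1), t ^ (r : ℕ) • sig W q ξ r (a r) := by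
  simp only [pTh, LinearMap.comp_apply, LinearMap.sum_apply, LinearMap.proj_apply,
    LinearMap.smul_apply]

section

variable (h : IsBun W q ξ m)
include h

/-- **Multiplication by `q^* D + t ξ`.** -/
lemma pM_spec (u : W.H X) (t : W.K) (a : Fin (m + 1) → W.H X) :
    (W.map q u + t • W.cl T ξ) * pTh W q ξ m t a =
      pTh W q ξ m t (pM W X m (btop h) u t a) := by
  have hL : (W.map q u + t • W.cl T ξ) * pTh W q ξ m t a =
      ∑ r : Fin (m + 1), t ^ (r : ℕ) • sig W q ξ r (u * a r) +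
        ∑ r : Fin (m + 1), t ^ ((r : ℕ) + 1) • sig W q ξ (r + 1) (a r) := by
    rw [pTh_apply, add_mul, Finset.mul_sum, Finset.mul_sum]
    congr 1
    · apply Finset.sum_congr rfl
      intro r _
      rw [mul_smul_comm, sig_apply, sig_apply, map_mul, mul_assoc]
    · apply Finset.sum_congr rfl
      intro r _
      rw [mul_smul_comm, smul_mul_assoc, smul_smul, xi_mul_sig h, pow_succ]
  have h0 : pTh W q ξ m t (pM0 W X m u a) =
      ∑ r : Fin (m + 1), t ^ (r : ℕ) • sig W q ξ r (u * a r) +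
        ∑ r : Fin (m + 1), t ^ (r : ℕ) • sig W q ξ r (shiftF W.K (W.H X) (m + 1) a r) := by
    rw [pTh_apply, ← Finset.sum_add_distrib]
    apply Finset.sum_congr rfl
    intro r _
    rw [← smul_add, ← map_add]
    congr 2
    simp only [pM0, LinearMap.add_apply, Pi.add_apply, mapF_apply, LinearMap.mulLeft_apply,
      one_smul]
  have h1 : ∀ r : Fin (m + 1), pTh W q ξ m t (pR W X m (btop h) r a) =
      t ^ (r : ℕ) • sig W q ξ r (btop h (a (Fin.last m)) r) := by
    intro r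
    rw [pTh_apply, Finset.sum_eq_single r]
    · simp [pR]
    · intro s _ hs
      simp [pR, hs]
    · intro hr
      exact absurd (Finset.mem_univ _) hr
  have h2 : pTh W q ξ m t ((∑ r : Fin (m + 1), ((Polynomial.X : W.K[X]) ^
      (m + 1 - (r : ℕ))).eval t • pR W X m (btop h) r) a) =
      t ^ (m + 1) • sig W q ξ (m + 1) (a (Fin.last m)) := by
    rw [LinearMap.sum_apply, map_sum, sig_top h, Finset.smul_sum]
    apply Finset.sum_congr rfl
    intro r _
    rw [LinearMap.smul_apply, map_smul, h1, smul_smul, eval_pow, eval_X, ← pow_add,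
      show m + 1 - (r : ℕ) + (r : ℕ) = m + 1 by omega]
  have h3 : ∑ r : Fin (m + 1), t ^ ((r : ℕ) + 1) • sig W q ξ (r + 1) (a r) =
      ∑ r : Fin (m + 1), t ^ (r : ℕ) • sig W q ξ r (shiftF W.K (W.H X) (m + 1) a r) +
        t ^ (m + 1) • sig W q ξ (m + 1) (a (Fin.last m)) := by
    rw [Fin.sum_univ_castSucc, Fin.sum_univ_succ]
    have e1 : t ^ ((0 : Fin (m + 1)) : ℕ) •
        sig W q ξ ((0 : Fin (m + 1)) : ℕ) (shiftF W.K (W.H X) (m + 1) a 0) = 0 := by
      rw [shiftF_apply, dif_neg (by simp), map_zero, smul_zero]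
    rw [e1, zero_add]
    congr 1
  rw [hL, pM, LinearMap.add_apply, map_add, h0, h2, h3]
  abel

lemma pM_pow_spec (u : W.H X) (t : W.K) (n : ℕ) (a : Fin (m + 1) → W.H X) :
    (W.map q u + t • W.cl T ξ) ^ n * pTh W q ξ m t a =
      pTh W q ξ m t ((pM W X m (btop h) u t ^ n) a) := by
  induction n generalizing a with
  | zero => simp
  | succ n ih =>
    rw [pow_succ, mul_assoc, pM_spec h, ih, pow_succ, Module.End.mul_apply]

lemma pTh_inj {t : W.K} (ht : t ≠ 0) : Function.Injective (pTh W q ξ m t) := by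
  rw [← LinearMap.ker_eq_bot, LinearMap.ker_eq_bot']
  intro a ha
  have h1 : bcoords h (fun s => t ^ (s : ℕ) • a s) = 0 := by
    rw [← ha, pTh_apply, bcoords_apply]
    apply Finset.sum_congr rfl
    intro s _
    rw [map_smul]
  have h2 : (fun s : Fin (m + 1) => t ^ (s : ℕ) • a s) = 0 := by
    apply (bcoords h).injective
    rw [h1, map_zero]
  funext s
  have h3 := congrFun h2 s
  exact (smul_eq_zero.1 h3).resolve_left (pow_ne_zero _ ht)

end

end Pool.Agent.Y101
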