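import Pool.Agent.Y101.Bun

/-!
# Algebraic coordinates, and degeneration of the polarisation on a projective bundle
-/

open CategoryTheory AlgebraicGeometry Finset Polynomial

universe u v

namespace Pool.Agent.Y101

open Pool.Agent.H914 Pool.Agent.H447 Pool.Agent.W534 Pool.Agent.W498.Dom VarClass Obj
  WeilCohomology

variable {k : Type u} [Field k] {𝒱 : VarClass k} {ops : CycleOps 𝒱}
  {W : WeilCohomology.{u, v} ops} {X T : 𝒱.Obj} {q : T ⟶ X} {ξ : T.Cycles} {m : ℕ}

lemma kaz_neg {l : ℤ} (hl : l < 0) {a : W.H X} (ha : a ∈ spanCycles W X l) : a = 0 := by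
  induction ha using Submodule.span_induction with
  | mem x hx =>
    obtain ⟨p, hp, -⟩ := hx
    omega
  | zero => rfl
  | add x y _ _ hx hy => rw [hx, hy, add_zero]
  | smul c x _ hx => rw [hx, smul_zero]

lemma kaz_mul {p : ℕ} {l l' : ℤ} (hl : l' = p + l) {a b : W.H X} (ha : a ∈ spanCycles W X p)
    (hb : b ∈ spanCycles W X l) : a * b ∈ spanCycles W X l' := by
  by_cases h0 : 0 ≤ l
  · lift l to ℕ using h0
    rw [hl, ← Nat.cast_add]
    exact ka_mul ha hb
  · rw [kaz_neg (by omega) hb, mul_zero]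
    exact Submodule.zero_mem _

lemma kaz_gr {l : ℤ} {a : W.H X} (ha : a ∈ spanCycles W X l) : a ∈ grZ (W.gr X) (2 * l) := by
  by_cases h0 : 0 ≤ l
  · lift l to ℕ using h0
    rw [show 2 * (l : ℤ) = ((2 * l : ℕ) : ℤ) by push_cast; ring, grZ_natCast]
    exact ka_gr ha
  · rw [kaz_neg (by omega) ha]
    exact Submodule.zero_mem _

section

variable (h : IsBun W q ξ m)
include h

/-- The push-forwards of the powers of `ξ`. -/
lemma push_xi_lt {r : ℕ} (hr : r < m) : W.push q (W.cl T ξ ^ r) = 0 := by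
  have h1 := W.push_mem q (xi_pow_mem h r)
  rw [h.dim, grZ_of_neg (by push_cast; omega)] at h1
  exact (Submodule.mem_bot _).1 h1

lemma push_xi_top : ∃ c : W.K, W.push q (W.cl T ξ ^ m) = c • 1 := by
  have h1 := W.push_mem q (xi_pow_mem h m)
  rw [h.dim, show ((2 * m : ℕ) : ℤ) + 2 * ((X.dim : ℤ) - ((X.dim + m : ℕ) : ℤ)) =
    ((0 : ℕ) : ℤ) by push_cast; ring, grZ_natCast, W.gr_zero] at h1
  obtain ⟨c, hc⟩ := Submodule.mem_span_singleton.1 h1
  exact ⟨c, hc.symm⟩

lemma push_xi_ka (r : ℕ) : W.push q (W.cl T ξ ^ r) ∈ spanCycles W X ((r : ℤ) - m) := by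
  by_cases hr : r < m
  · rw [push_xi_lt h hr]
    exact Submodule.zero_mem _
  · rw [show (r : ℤ) - m = ((r - m : ℕ) : ℤ) by omega]
    exact ka_push q (by rw [h.dim]; omega) (ka_pow (ka_gen h.div) r)

lemma push_xi_mul (r : ℕ) (a : Fin (m + 1) → W.H X) :
    W.push q (W.cl T ξ ^ r * bcoords h a) =
      ∑ s : Fin (m + 1), W.push q (W.cl T ξ ^ (r + (s : ℕ))) * a s := by
  rw [bcoords_apply, Finset.mul_sum, map_sum]
  apply Finset.sum_congr rfl
  intro s _
  rw [sig_apply, ← W.even_comm (xi_pow_mem h (s : ℕ)), ← mul_assoc, ← pow_add, W.push_mul]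

/-- If the push-forward of `ξ ^ m` is zero, then the cohomology is zero. -/
lemma subsingleton_of_push (h0 : W.push q (W.cl T ξ ^ m) = 0) (a : W.H X) : a = 0 := by
  have htr : ∀ y : W.H T, W.tr T y = 0 := by
    intro y
    obtain ⟨e, rfl⟩ := (bcoords h).surjective y
    have h1 := push_xi_mul h 0 e
    rw [pow_zero, one_mul] at h1
    have h2 : W.push q (bcoords h e) = 0 := by
      rw [h1]
      apply Finset.sum_eq_zero
      intro s _
      rw [zero_add]
      by_cases hs : (s : ℕ) < m
      · rw [push_xi_lt h hs, zero_mul]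
      · rw [show (s : ℕ) = m by omega, h0, zero_mul]
    have h3 := W.tr_push q (bcoords h e) 1
    rw [h2, zero_mul, map_zero, map_one, mul_one] at h3
    exact h3.symm
  have hT : ∀ y : W.H T, y = 0 := fun y => W.nondeg y (fun b => htr _)
  have h4 : (fun _ : Fin (m + 1) => a) = 0 := by
    apply (bcoords h).injective
    rw [hT (bcoords h _), map_zero]
  exact congrFun h4 0

/-- **The coordinates of an algebraic class are algebraic.** -/
theorem coords_ka {r : ℕ} {a : Fin (m + 1) → W.H X}
    (ha : bcoords h a ∈ spanCycles W T (r : ℕ)) (s : Fin (m + 1)) :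
    a s ∈ spanCycles W X ((r : ℤ) - (s : ℕ)) := by
  obtain ⟨c, hc⟩ := push_xi_top h
  by_cases hc0 : c = 0
  · rw [hc0, zero_smul] at hc
    rw [subsingleton_of_push h hc (a s)]
    exact Submodule.zero_mem _
  -- downward induction
  have key : ∀ l : ℕ, ∀ s : Fin (m + 1), (s : ℕ) + l = m →
      a s ∈ spanCycles W X ((r : ℤ) - (s : ℕ)) := by
    intro l
    induction l using Nat.strong_induction_on with
    | _ l ih =>
      intro s hs
      have h1 := push_xi_mul h l a
      rw [← Finset.add_sum_erase _ _ (Finset.mem_univ s), show l + (s : ℕ) = m by omega, hc,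
        smul_mul_assoc, one_mul] at h1
      have h2 : c • a s = W.push q (W.cl T ξ ^ l * bcoords h a) -
          ∑ x ∈ (Finset.univ : Finset (Fin (m + 1))).erase s,
            W.push q (W.cl T ξ ^ (l + (x : ℕ))) * a x := by
        rw [h1]; abel
      have h3 : c • a s ∈ spanCycles W X ((r : ℤ) - (s : ℕ)) := by
        rw [h2]
        apply Submodule.sub_mem
        · have h4 : W.cl T ξ ^ l * bcoords h a ∈ spanCycles W T (l + r : ℕ) :=
            ka_mul (ka_pow (ka_gen h.div) l) ha
          by_cases h5 : (s : ℕ) ≤ r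
          · rw [show (r : ℤ) - (s : ℕ) = ((r - (s : ℕ) : ℕ) : ℤ) by omega]
            exact ka_push q (by rw [h.dim]; omega) h4
          · have h6 := W.push_mem q (ka_gr h4)
            rw [h.dim, grZ_of_neg (by push_cast; omega)] at h6
            rw [(Submodule.mem_bot _).1 h6]
            exact Submodule.zero_mem _
        · apply Submodule.sum_mem
          intro x hx
          have hxs : x ≠ s := (Finset.mem_erase.1 hx).1
          have hxs' : (x : ℕ) ≠ s := fun h' => hxs (Fin.ext h')
          by_cases h5 : (x : ℕ) < s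
          · rw [push_xi_lt h (by omega), zero_mul]
            exact Submodule.zero_mem _
          · have h6 := ih (m - (x : ℕ)) (by omega) x (by omega)
            have h7 := push_xi_ka h (l + (x : ℕ))
            rw [show ((l + (x : ℕ) : ℕ) : ℤ) - m = ((l + (x : ℕ) - m : ℕ) : ℤ) by omega] at h7
            exact kaz_mul (by omega) h7 h6
      have h8 := Submodule.smul_mem _ c⁻¹ h3
      rwa [smul_smul, inv_mul_cancel₀ hc0, one_smul] at h8
  exact key (m - (s : ℕ)) s (by omega)

/-- The families of algebraic classes with the coordinates of an algebraic class of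
codimension `r`. -/
def bS (W : WeilCohomology.{u, v} ops) (X : 𝒱.Obj) (m r : ℕ) :
    Submodule W.K (Fin (m + 1) → W.H X) :=
  Submodule.pi Set.univ fun s : Fin (m + 1) => spanCycles W X ((r : ℤ) - (s : ℕ))

omit h in
lemma mem_bS {r : ℕ} {a : Fin (m + 1) → W.H X} :
    a ∈ bS W X m r ↔ ∀ s : Fin (m + 1), a s ∈ spanCycles W X ((r : ℤ) - (s : ℕ)) := by
  simp [bS, Submodule.mem_pi]

/-- **Degeneration of the polarisation on a projective bundle.** -/
theorem bun_limit {D : X.Cycles} (hD : X.IsCyc 1 D) (hX : HardLefschetz W X D) {r n : ℕ}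
    (hn : 2 * r + n = T.dim) {b : W.K → Fin (m + 1) → W.H X} (hb : PVec b)
    {S : Set ℚ} (hS : S.Infinite) (hw : ∀ t ∈ S, t ≠ 0 → ∃ y ∈ spanCycles W T (r : ℕ),
      (W.map q (W.cl X D) + (t : W.K) • W.cl T ξ) ^ n * y = pTh W q ξ m (t : W.K) (b t)) :
    ∃ a : Fin (m + 1) → W.H X, (∀ s : Fin (m + 1), a s ∈ spanCycles W X ((r : ℤ) - (s : ℕ))) ∧
      (pM0 W X m (W.cl X D) ^ n) a = b 0 := by
  set M := pM W X m (btop h) (W.cl X D) with hM
  set A : W.K → bS W X m r →ₗ[W.K] (Fin (m + 1) → W.H X) := fun t =>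
    (M t ^ n) ∘ₗ (bS W X m r).subtype with hA
  have hAf : PFam A := fun x => ((pM_pfam (btop h) (W.cl X D)).pow n) x.1
  have hA0 : Function.Injective (A 0) := by
    rw [← LinearMap.ker_eq_bot, LinearMap.ker_eq_bot']
    rintro ⟨x, hx⟩ h0
    apply Subtype.ext
    rw [mem_bS] at hx
    rw [hA] at h0
    simp only [LinearMap.comp_apply, Submodule.subtype_apply] at h0
    rw [hM, pM_zero] at h0
    refine shift_inj (W.isInternal X) (n := X.dim) (isHom_L hD) W_hbd hX (N := m + 1)
      one_ne_zero one_ne_zero (c := n) (d := 2 * (r : ℤ)) ?_ (fun s => ?_) h0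
    · have := h.dim
      push_cast
      omega
    · have := kaz_gr (hx s)
      rwa [show 2 * ((r : ℤ) - (s : ℕ)) = 2 * (r : ℤ) - 2 * (s : ℕ) by ring] at this
  obtain ⟨⟨x, hx⟩, hx0, -⟩ := PFam.limit hAf hA0 hb ((0 : _ →ₗ[W.K] W.K)) ⊥
    (T := (fun t : ℚ => (t : W.K)) '' (S \ {0}))
    ((hS.sdiff (Set.finite_singleton 0)).image (Set.injOn_of_injective Rat.cast_injective)) (by
      rintro _ ⟨t, ⟨ht, ht0⟩, rfl⟩
      have ht0' : (t : W.K) ≠ 0 := by
        rw [Ne, Rat.cast_eq_zero]
        exact ht0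
      obtain ⟨y, hy, hyw⟩ := hw t ht ht0
      set e := (bcoords h).symm y with he
      have hye : bcoords h e = y := LinearEquiv.apply_symm_apply _ _
      have hmem := coords_ka h (r := r) (a := e) (by rw [hye]; exact hy)
      set e' : Fin (m + 1) → W.H X := fun s => ((t : W.K) ^ (s : ℕ))⁻¹ • e s with he'
      have hyt : pTh W q ξ m (t : W.K) e' = y := by
        rw [← hye, pTh_apply, bcoords_apply]
        apply Finset.sum_congr rfl
        intro s _
        simp only [he']
        rw [map_smul, smul_smul, mul_inv_cancel₀ (pow_ne_zero _ ht0'), one_smul]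
      refine ⟨⟨e', ?_⟩, ?_, ?_⟩
      · rw [mem_bS]
        intro s
        exact Submodule.smul_mem _ _ (hmem s)
      · apply pTh_inj h ht0'
        rw [hA]
        simp only [LinearMap.comp_apply, Submodule.subtype_apply]
        rw [hM, ← pM_pow_spec h, hyt, hyw]
      · simp)
  refine ⟨x, mem_bS.1 hx, ?_⟩
  rw [hA] at hx0
  simp only [LinearMap.comp_apply, Submodule.subtype_apply] at hx0
  rw [hM, pM_zero] at hx0
  exact hx0

end

end Pool.Agent.Y101
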