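import Pool.Agent.Y101.CanDefs
import Pool.Agent.H914R2.KDefs

/-!
# The conjecture B and the canonical classes in one dimension: definitions
-/

open CategoryTheory AlgebraicGeometry

universe u v

namespace Pool.Agent.Y101.Can

open Pool.Agent.H914 VarClass Obj WeilCohomology

variable {k : Type u} [Field k] {𝒱 : VarClass k} {ops : CycleOps 𝒱}

/-- The Lefschetz standard conjecture `B(X, D)` holds for all `(X, D)` in `Pol`: the operator `Λ` is
algebraic. -/
def AllB (W : WeilCohomology.{u, v} ops) (Pol : ∀ X : 𝒱.Obj, X.Cycles → Prop) : Prop :=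
  ∀ X D, Pol X D → LefschetzB W X D

/-- On every `X` in `R` of the dimension `2 m + 1`, where `m` is given, the power `(can X) ^ (m + 1)` of
the canonical class is `D · x` for an `x` in the span, over the coefficient field of the cohomology, of
the algebraic classes of codimension `m`, for every ample divisor `D`. -/
def CanonicalPowersIn (W : WeilCohomology.{u, v} ops) (can : ∀ X : 𝒱.Obj, X.Cycles)
    (Pol : ∀ X : 𝒱.Obj, X.Cycles → Prop) (R : 𝒱.Obj → Prop) (m : ℕ) : Prop :=
  ∀ X D, R X → Pol X D → X.dim = 2 * m + 1 →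
    W.cl X (dpow ops (can X) (m + 1)) ∈ spanMultiples W X D m

/-- `V` is the centre, of codimension at least two, of a blow-up `T ⟶ X` of a variety `X` of dimension
`N`, where `T` is in `R` and `X` and `T` have ample divisors. -/
def IsCentreIn (W : WeilCohomology.{u, v} ops) (Pol : ∀ X : 𝒱.Obj, X.Cycles → Prop)
    (R : 𝒱.Obj → Prop) (V : 𝒱.Obj) (N : ℕ) : Prop :=
  ∃ (X T F : 𝒱.Obj) (i : V ⟶ X) (π : T ⟶ X) (j : F ⟶ T) (g : F ⟶ V) (c : ℕ),
    X.dim = N ∧ 1 ≤ c ∧ IsBlow W i π j g c ∧ R T ∧ (∃ D, Pol X D) ∧ ∃ D, Pol T D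

/-- Every variety `V` of dimension `d ≥ 2` is the centre of a blow-up `T ⟶ X` with `T` in `R` and
`dim X = 2 d + 1` (embed `V` in a projective space `X` of dimension `2 d + 1`). -/
def HasEmbeddings (W : WeilCohomology.{u, v} ops) (Pol : ∀ X : 𝒱.Obj, X.Cycles → Prop)
    (R : 𝒱.Obj → Prop) : Prop :=
  ∀ V, (∃ D, Pol V D) → 2 ≤ V.dim → IsCentreIn W Pol R V (2 * V.dim + 1)

end Pool.Agent.Y101.Can
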