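import Pool.Agent.Y101.Plane

/-!
# From the canonical classes to all divisors
-/

open CategoryTheory AlgebraicGeometry Finset Polynomial

universe u v

namespace Pool.Agent.Y101

open Pool.Agent.H914 Pool.Agent.H447 Pool.Agent.W534 Pool.Agent.W498.Dom VarClass Obj
  WeilCohomology Pool.Agent.TH720.LB

/-- The number `∑ C(p + 2, i + 2) (-3) ^ (i + 2)`, the sum over `i ≤ p`. -/
def snum (p : ℕ) : ℤ := ∑ i ∈ range (p + 1), ((p + 2).choose (i + 2) : ℤ) * (-3) ^ (i + 2)

lemma snum_eq (p : ℕ) : snum p = (-2) ^ (p + 2) + 3 * p + 5 := by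
  have h1 := add_pow (-3 : ℤ) 1 (p + 2)
  rw [Finset.sum_range_succ', Finset.sum_range_succ'] at h1
  simp only [one_pow, mul_one, zero_add, pow_one, pow_zero, Nat.choose_zero_right,
    Nat.choose_one_right, one_mul] at h1
  have h2 : snum p = ∑ k ∈ range (p + 1), (-3 : ℤ) ^ (k + 1 + 1) * ((p + 2).choose (k + 1 + 1) : ℤ) := by
    unfold snum
    apply Finset.sum_congr rfl
    intro i _
    rw [mul_comm]
  rw [h2]
  have h3 : (-3 + 1 : ℤ) = -2 := by norm_num
  rw [h3] at h1
  push_cast at h1 ⊢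
  linarith

lemma snum_ne {p : ℕ} (hp : 2 ≤ p) : snum p ≠ 0 := by
  rw [snum_eq]
  have h1 : ∀ p : ℕ, 2 ≤ p → (3 * p + 5 : ℤ) < 2 ^ (p + 2) := by
    intro p hp
    induction p, hp using Nat.le_induction with
    | base => norm_num
    | succ n hn ih =>
      rw [show n + 1 + 2 = (n + 2) + 1 by ring, pow_succ]
      push_cast
      have : (2 : ℤ) ≤ n := by exact_mod_cast hn
      linarith
  have h2 := h1 p hp
  rcases Nat.even_or_odd (p + 2) with h | h
  · rw [h.neg_pow]
    have : (0 : ℤ) < 2 ^ (p + 2) := by positivity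
    positivity
  · rw [h.neg_pow]
    omega

section Alg

variable {K : Type*} [Field K] [CharZero K] {A : Type*} [Ring A] [Algebra K A]
  [Module.Finite K A]

omit [CharZero K] [Module.Finite K A] in
lemma smul_term (c co : K) (a b : A) {i p : ℕ} (hi : i ≤ p) :
    co • ((c • a) ^ (p - i) * (c • b) ^ i) = c ^ p • (co • (a ^ (p - i) * b ^ i)) := by
  rw [_root_.smul_pow, _root_.smul_pow, smul_mul_smul_comm, ← pow_add, show p - i + i = p by omega,
    smul_comm]

/-- Values of a homogeneous polynomial in a subspace. -/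
lemma top_mem {J : Submodule K A} {p : ℕ} (hp : 2 ≤ p) {κ μ : A}
    (hJ : ∀ N : ℕ, 1 ≤ N → ∑ i ∈ range (p + 1),
      (((p + 2).choose (i + 2) : K) * (-3) ^ (i + 2)) •
        ((κ + (N : K) • μ) ^ (p - i) * ((N : K) • μ) ^ i) ∈ J) : μ ^ p ∈ J := by
  set co : ℕ → K := fun i => ((p + 2).choose (i + 2) : K) * (-3) ^ (i + 2) with hco
  set G : K → A := fun s => ∑ i ∈ range (p + 1), co i • ((s • κ + μ) ^ (p - i) * μ ^ i) with hG
  have hGv : PVec G := by
    apply PVec.sum
    intro i _
    have h1 : PFam (fun s : K => (LinearMap.mulLeft K (s • κ + μ) : Module.End K A)) := by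
      have h2 : (fun s : K => (LinearMap.mulLeft K (s • κ + μ) : Module.End K A)) =
          fun s => (Polynomial.X : K[X]).eval s • LinearMap.mulLeft K κ + LinearMap.mulLeft K μ := by
        funext s
        apply LinearMap.ext
        intro a
        simp [add_mul]
      rw [h2]
      exact ((PFam.const _).smul _).add (PFam.const _)
    have h3 := ((h1.pow (p - i)) (μ ^ i)).csmul (co i)
    have h4 : (fun s : K => co i • ((LinearMap.mulLeft K (s • κ + μ) : Module.End K A) ^ (p - i))
        (μ ^ i)) = fun s => co i • ((s • κ + μ) ^ (p - i) * μ ^ i) := by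
      funext s
      rw [LinearMap.pow_mulLeft, LinearMap.mulLeft_apply]
    rw [h4] at h3
    exact h3
  have hT : (Set.range fun n : ℕ => (((n : K) + 1)⁻¹ : K)).Infinite := by
    apply Set.infinite_range_of_injective
    intro a b hab
    have h1 : ((a : K) + 1) = (b : K) + 1 := inv_injective hab
    have h2 : (a : K) = b := by linear_combination h1
    exact_mod_cast h2
  have h0 := PVec.mem_of_infinite hGv (S := J) hT (by
    rintro _ ⟨n, rfl⟩
    have hn : ((n : K) + 1) ≠ 0 := Nat.cast_add_one_ne_zero n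
    have h1 := Submodule.smul_mem J ((((n : K) + 1)⁻¹) ^ p) (hJ (n + 1) (by omega))
    have h2 : G (((n : K) + 1)⁻¹) = (((n : K) + 1)⁻¹) ^ p • ∑ i ∈ range (p + 1), co i •
        ((κ + ((n + 1 : ℕ) : K) • μ) ^ (p - i) * (((n + 1 : ℕ) : K) • μ) ^ i) := by
      simp only [hG]
      rw [Finset.smul_sum]
      apply Finset.sum_congr rfl
      intro i hi
      rw [Finset.mem_range] at hi
      have e1 : ((n : K) + 1)⁻¹ • κ + μ = ((n : K) + 1)⁻¹ • (κ + ((n + 1 : ℕ) : K) • μ) := by
        rw [smul_add, smul_smul]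
        push_cast
        rw [inv_mul_cancel₀ hn, one_smul]
      have e2 : μ = ((n : K) + 1)⁻¹ • (((n + 1 : ℕ) : K) • μ) := by
        rw [smul_smul]
        push_cast
        rw [inv_mul_cancel₀ hn, one_smul]
      rw [e1]
      have e3 : (μ : A) ^ i = (((n : K) + 1)⁻¹ • (((n + 1 : ℕ) : K) • μ)) ^ i := by
        rw [← e2]
      rw [e3]
      exact smul_term _ _ _ _ (by omega)
    rw [h2]
    exact h1) 0
  have h1 : G 0 = ((snum p : ℤ) : K) • μ ^ p := by
    simp only [hG]
    have e1 : ∀ i ∈ range (p + 1), co i • (((0 : K) • κ + μ) ^ (p - i) * μ ^ i) = co i • μ ^ p := by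
      intro i hi
      rw [Finset.mem_range] at hi
      rw [zero_smul, zero_add, ← pow_add, show p - i + i = p by omega]
    rw [Finset.sum_congr rfl e1, ← Finset.sum_smul]
    congr 1
    simp only [hco, snum]
    push_cast
    rfl
  rw [h1] at h0
  have h2 : ((snum p : ℤ) : K) ≠ 0 := by
    rw [Ne, Int.cast_eq_zero]
    exact snum_ne hp
  have h3 := Submodule.smul_mem J (((snum p : ℤ) : K))⁻¹ h0
  rwa [smul_smul, inv_mul_cancel₀ h2, one_smul] at h3

end Alg

end Pool.Agent.Y101
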