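import Pool.Agent.TH720.LB.Stm
import Pool.Agent.Y101.Span

/-!
# Divisibility on the product with a projective space
-/

open CategoryTheory AlgebraicGeometry Finset

universe u v

namespace Pool.Agent.Y101

open Pool.Agent.H914 Pool.Agent.W534 VarClass Obj WeilCohomology Pool.Agent.TH720.LB

variable {k : Type u} [Field k] {𝒱 : VarClass k} {ops : CycleOps 𝒱}
  {W : WeilCohomology.{u, v} ops} {X P : 𝒱.Obj} {D : X.Cycles} {h : P.Cycles}

section

variable (hP : IsProjLike W P h)
include hP

lemma push_pow_mul (j : ℕ) (x : W.H X) :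
    W.push (fst X P) (W.map (snd X P) (W.cl P h) ^ j * W.map (fst X P) x) =
      if j = P.dim then x else 0 := by
  have h1 : W.cl P h ^ j ∈ W.gr P (2 * j) := t_mem hP j
  rw [← map_pow, push_fst_mul h1]
  split_ifs with hj
  · subst hj
    rw [hP.deg, one_smul]
  · rw [W.tr_eq_zero h1 (by omega), zero_smul]

lemma eta_even : W.map (snd X P) (W.cl P h) ∈ W.gr (X.prod P) (2 * 1) :=
  W.map_mem _ (W.cl_mem hP.div)

lemma eta_pow_zero {j : ℕ} (hj : P.dim < j) : W.map (snd X P) (W.cl P h) ^ j = 0 := by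
  rw [← map_pow, t_zero hP hj, map_zero]

/-- the coefficient of the power of a sum -/
lemma push_binom (κ : W.H X) (s : W.K) (q l : ℕ) (hl : l ≤ P.dim) :
    W.push (fst X P) (W.map (snd X P) (W.cl P h) ^ (P.dim - l) *
      (s • W.map (snd X P) (W.cl P h) + W.map (fst X P) κ) ^ q) =
      ((q.choose l : W.K) * s ^ l) • κ ^ (q - l) := by
  have hc : Commute (s • W.map (snd X P) (W.cl P h)) (W.map (fst X P) κ) := by
    apply Commute.smul_left
    exact (W.even_comm (eta_even hP) _)
  rw [hc.add_pow, Finset.mul_sum, map_sum]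
  have h1 : ∀ i ∈ range (q + 1), W.push (fst X P) (W.map (snd X P) (W.cl P h) ^ (P.dim - l) *
      ((s • W.map (snd X P) (W.cl P h)) ^ i * W.map (fst X P) κ ^ (q - i) * (q.choose i : W.H _))) =
      if i = l then ((q.choose l : W.K) * s ^ l) • κ ^ (q - l) else 0 := by
    intro i _
    have e1 : W.map (snd X P) (W.cl P h) ^ (P.dim - l) *
        ((s • W.map (snd X P) (W.cl P h)) ^ i * W.map (fst X P) κ ^ (q - i) *
          (q.choose i : W.H _)) = ((q.choose i : W.K) * s ^ i) •
        (W.map (snd X P) (W.cl P h) ^ (P.dim - l + i) * W.map (fst X P) (κ ^ (q - i))) := by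
      rw [_root_.smul_pow, ← (Nat.cast_commute (q.choose i) _).eq, ← nsmul_eq_mul,
        ← Nat.cast_smul_eq_nsmul W.K, mul_smul_comm, smul_mul_assoc, mul_smul_comm, smul_smul,
        ← mul_assoc, ← pow_add, map_pow]
    rw [e1, map_smul, push_pow_mul hP]
    by_cases hi : i = l
    · subst hi
      rw [if_pos (by omega), if_pos rfl]
    · rw [if_neg (by omega), if_neg hi, smul_zero]
  rw [Finset.sum_congr rfl h1, Finset.sum_ite_eq']
  split_ifs with h2
  · rfl
  · rw [Finset.mem_range, not_lt] at h2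
    rw [Nat.choose_eq_zero_of_lt (by omega), Nat.cast_zero, zero_mul, zero_smul]

/-- **Divisibility on the product with a projective space.** -/
theorem prod_div {u : W.H X} (hu : u ∈ W.gr X 2) (κ : W.H X) (s : W.K) (q : ℕ)
    {x : W.H (X.prod P)}
    (hx : (W.map (fst X P) u + W.map (snd X P) (W.cl P h)) * x =
      (s • W.map (snd X P) (W.cl P h) + W.map (fst X P) κ) ^ q) :
    (-u) ^ (P.dim + 1) * W.push (fst X P) x = -∑ l ∈ range (P.dim + 1),
      ((q.choose l : W.K) * s ^ l) • ((-u) ^ l * κ ^ (q - l)) := by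
  set η := W.map (snd X P) (W.cl P h) with hη
  set a := W.map (fst X P) (-u) with ha
  have hc : Commute η a := W.even_comm (eta_even hP) _
  have h1 := hc.mul_geom_sum₂ (P.dim + 1)
  rw [eta_pow_zero hP (Nat.lt_succ_self _), zero_sub] at h1
  have h2 : η - a = W.map (fst X P) u + η := by
    rw [ha, map_neg]; abel
  rw [h2] at h1
  set G := ∑ i ∈ range (P.dim + 1), η ^ i * a ^ (P.dim + 1 - 1 - i) with hG
  have hu1 : W.map (fst X P) u + η ∈ W.gr (X.prod P) (2 * 1) :=
    Submodule.add_mem _ (W.map_mem _ hu) (eta_even hP)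
  have h3 : -(a ^ (P.dim + 1)) * x = G * (s • η + W.map (fst X P) κ) ^ q := by
    rw [← h1, ← hx, W.even_comm hu1, mul_assoc]
  have h4 := congrArg (W.push (fst X P)) h3
  have hneg : -u ∈ W.gr X (2 * 1) := Submodule.neg_mem _ hu
  have hpow : ∀ l : ℕ, (-u) ^ l ∈ W.gr X (2 * l) := by
    intro l
    exact pow_mem' (Submodule.neg_mem _ hu) l
  rw [neg_mul, map_neg, ha, ← map_pow, ← W.mul_push _ (hpow _)] at h4
  rw [← neg_eq_iff_eq_neg, h4, hG, Finset.sum_mul, map_sum, ← Finset.sum_range_reflect]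
  apply Finset.sum_congr rfl
  intro l hl
  rw [Finset.mem_range] at hl
  rw [show P.dim + 1 - 1 - (P.dim + 1 - 1 - l) = l by omega,
    show P.dim + 1 - 1 - l = P.dim - l by omega]
  have e2 : η ^ (P.dim - l) * a ^ l * (s • η + W.map (fst X P) κ) ^ q =
      W.map (fst X P) ((-u) ^ l) * (η ^ (P.dim - l) * (s • η + W.map (fst X P) κ) ^ q) := by
    rw [← mul_assoc, map_pow, ← ha, (hc.pow_pow _ _).eq]
  rw [e2, ← W.mul_push _ (hpow _), push_binom hP κ s q l (by omega), mul_smul_comm]

end

end Pool.Agent.Y101
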