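import Pool.Agent.Y101.Ratio

/-!
# The solution of the quadratic equation is injective in the complementary degrees
-/

open Finset

namespace Pool.Agent.Y101

open Pool.Agent.H914 Pool.Agent.H447 Pool.Agent.W498.Dom

section

variable {K : Type*} [Field K] [CharZero K] {V : Type*} [AddCommGroup V] [Module K V]
variable {gr : ℕ → Submodule K V} {n : ℕ} {L : Module.End K V}

/-- The coefficients of the solution. -/
noncomputable def gco (ρ : K) (i j : ℕ) : K :=
  (i : K) * (1 - ρ ^ j) + (j : K) * (1 - (ρ⁻¹) ^ i)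

omit [CharZero K] in
lemma gco_rec {ρ : K} (hρ : ρ ≠ 0) (i j : ℕ) :
    ρ ^ 2 * gco ρ (i + 2) j - 2 * ρ * gco ρ (i + 1) (j + 1) + gco ρ i (j + 2) =
      (1 - ρ) ^ 2 * ((i : K) + j + 2) := by
  have h1 : ρ * ρ⁻¹ = 1 := mul_inv_cancel₀ hρ
  simp only [gco]
  push_cast
  have e1 : ρ ^ 2 * (ρ⁻¹) ^ (i + 2) = (ρ⁻¹) ^ i := by
    rw [pow_add, mul_comm, mul_assoc, ← mul_pow, mul_comm ρ⁻¹ ρ, h1, one_pow, mul_one]
  have e2 : ρ * (ρ⁻¹) ^ (i + 1) = (ρ⁻¹) ^ i := by
    rw [pow_succ, mul_comm, mul_assoc, mul_comm ρ⁻¹ ρ, h1, mul_one]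
  linear_combination (-(j : K)) * e1 + 2 * ((j : K) + 1) * e2

end

section Ineq

/-- The coefficients do not vanish for `ρ = - q`, `q ≥ 3`. -/
lemma gco_ne_rat {q : ℚ} (hq : 3 ≤ q) {i j : ℕ} (hi : 1 ≤ i) (hj : 1 ≤ j) :
    gco (-q) i j ≠ 0 := by
  have hq0 : (0 : ℚ) < q := by linarith
  have hqi : (0 : ℚ) < q⁻¹ := inv_pos.2 hq0
  have hq3 : q⁻¹ ≤ 1 / 3 := by
    rw [inv_le_comm₀ hq0 (by norm_num)]
    linarith
  have hpow : ∀ m : ℕ, (1 : ℚ) + 2 * m ≤ q ^ m := by
    intro m
    induction m with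
    | zero => simp
    | succ m ih =>
      rw [pow_succ]
      push_cast
      have h2 : (0 : ℚ) ≤ m := Nat.cast_nonneg m
      nlinarith
  have hs : ∀ m : ℕ, 1 ≤ m → |(-q)⁻¹ ^ m| ≤ 1 / 3 := by
    intro m hm
    rw [inv_neg, abs_pow, abs_neg, abs_of_pos hqi]
    obtain ⟨l, rfl⟩ : ∃ l, m = l + 1 := ⟨m - 1, by omega⟩
    have h1 : q⁻¹ ^ l ≤ 1 := pow_le_one₀ hqi.le (by linarith)
    rw [pow_succ]
    nlinarith [pow_pos hqi l]
  have hi' : (1 : ℚ) ≤ i := by exact_mod_cast hi
  have hj' : (1 : ℚ) ≤ j := by exact_mod_cast hj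
  have h4 := abs_le.1 (hs i hi)
  have h5 := hpow j
  unfold gco
  rcases Nat.even_or_odd j with h | h
  · rw [h.neg_pow]
    have : (i : ℚ) * (1 - q ^ j) + (j : ℚ) * (1 - (-q)⁻¹ ^ i) < 0 := by
      have e1 : (i : ℚ) * (1 - q ^ j) ≤ 1 - q ^ j := by nlinarith
      have e2 : (j : ℚ) * (1 - (-q)⁻¹ ^ i) ≤ j * (4 / 3) := by
        apply mul_le_mul_of_nonneg_left _ (by linarith)
        linarith [h4.1]
      linarith
    exact ne_of_lt this
  · rw [h.neg_pow]
    have : 0 < (i : ℚ) * (1 - -(q ^ j)) + (j : ℚ) * (1 - (-q)⁻¹ ^ i) := by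
      have e1 : 0 < (i : ℚ) * (1 - -(q ^ j)) := by
        apply mul_pos (by linarith)
        linarith
      have e2 : 0 ≤ (j : ℚ) * (1 - (-q)⁻¹ ^ i) := by
        apply mul_nonneg (by linarith)
        linarith [h4.2]
      linarith
    exact ne_of_gt this

lemma gco_cast (K : Type*) [Field K] [CharZero K] (ρ : ℚ) (i j : ℕ) :
    gco (ρ : K) i j = ((gco ρ i j : ℚ) : K) := by
  simp only [gco]
  push_cast
  ring

lemma gco_ne (K : Type*) [Field K] [CharZero K] {q : ℚ} (hq : 3 ≤ q) {i j : ℕ} (hi : 1 ≤ i)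
    (hj : 1 ≤ j) : gco (-(q : K)) i j ≠ 0 := by
  rw [← Rat.cast_neg, gco_cast]
  exact_mod_cast gco_ne_rat hq hi hj

end Ineq

section

variable {K : Type*} [Field K] [CharZero K] {V : Type*} [AddCommGroup V] [Module K V]
variable {gr : ℕ → Submodule K V} {n : ℕ} {L : Module.End K V}

/-- **The solution of the quadratic equation.** Let `x` be an operator of degree `-2` with
`s² L² x + 2 s L x L + x L² = κ L` and `κ ≠ 0`, where the coefficients `gco (-s) i j` do not
vanish. Then `x ^ c` is injective in degree `n + c`. -/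
theorem pow_inj_of_mix [Module.Finite K V] (h : DirectSum.IsInternal gr) (hL : IsHom gr 2 L)
    (hbd : ∀ i, 2 * n + 1 ≤ i → gr i = ⊥) (hHL : HardLef gr n L) {s κ : K} (hs : s ≠ 0)
    (hs1 : 1 + s ≠ 0) (hκ : κ ≠ 0) (hg : ∀ i j : ℕ, 1 ≤ i → 1 ≤ j → gco (-s) i j ≠ 0)
    {x : Module.End K V} (hx : IsHom gr (-2) x) (h0 : (mixOp s 1 L ^ 2) x = κ • L) {c : ℕ}
    (hc : c ≤ n) {v : V} (hv : v ∈ gr (n + c)) (hv0 : (x ^ c) v = 0) : v = 0 := by
  obtain ⟨Φ, hΦh, hΦ⟩ := exists_isLam h hL hbd hHL
  set co : ℕ → ℕ → K := fun i j =>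
    κ * ((1 + s) ^ 2 * (((n - i : ℕ) : K) + 1))⁻¹ * gco (-s) (n - i + 1 - j) j with hco
  have hcone : ∀ i j, 1 ≤ j → j ≤ n - i → co i j ≠ 0 := by
    intro i j h1 h2
    simp only [hco]
    apply mul_ne_zero (mul_ne_zero hκ _) (hg _ _ (by omega) h1)
    apply inv_ne_zero
    apply mul_ne_zero (pow_ne_zero _ hs1)
    exact Nat.cast_add_one_ne_zero _
  have hx' : x = lowOf h L Φ n co := by
    rw [← sub_eq_zero]
    apply mix_inj h hL hbd hHL hs one_ne_zero (hx.sub (lowOf_isHom h hL hΦh co))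
    rw [map_sub, h0, sub_eq_zero]
    symm
    rw [pow_two, Module.End.mul_apply, mixOp_apply, mixOp_apply]
    apply LinearMap.ext
    intro y
    refine lef_induction' h hL hbd hHL (p := fun y =>
      (s • (L * (s • (L * lowOf h L Φ n co) + (1 : K) • (lowOf h L Φ n co * L))) +
        (1 : K) • ((s • (L * lowOf h L Φ n co) + (1 : K) • (lowOf h L Φ n co * L)) * L)) y =
        (κ • L) y) ?_ ?_ y
    · intro a b ha hb; rw [map_add, map_add, ha, hb]
    · intro i hi a ha hp j
      have hval : ∀ l, lowOf h L Φ n co ((L ^ (l + 1)) a) =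
          (if l + 1 ≤ n - i then co i (l + 1) else 0) • (L ^ l) a := by
        intro l
        by_cases hl : l + 1 ≤ n - i
        · rw [lowOf_apply h hL hΦ co hi ha hp hl, if_neg (by omega), if_pos hl,
            Nat.add_sub_cancel]
        · rw [if_neg hl, L_pow_gt hp (by omega), map_zero, zero_smul]
      have hval0 : lowOf h L Φ n co a = 0 := by
        have := lowOf_apply h hL hΦ co hi ha hp (Nat.zero_le _)
        simpa using this
      have e0 : ∀ l, L ((L ^ l) a) = (L ^ (l + 1)) a := fun l => by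
        rw [pow_succ', Module.End.mul_apply]
      simp only [LinearMap.add_apply, LinearMap.smul_apply, Module.End.mul_apply, e0, map_add,
        map_smul, hval, one_smul]
      by_cases hj : j + 1 ≤ n - i
      · -- the target is not zero
        have hL2 : L (L (lowOf h L Φ n co ((L ^ j) a))) = co i j • (L ^ (j + 1)) a := by
          rcases Nat.eq_zero_or_pos j with rfl | hj0
          · rw [pow_zero, Module.End.one_apply, hval0, map_zero, map_zero]
            simp only [hco, gco]
            simp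
          · obtain ⟨l, rfl⟩ : ∃ l, j = l + 1 := ⟨j - 1, by omega⟩
            rw [hval, if_pos (by omega), map_smul, map_smul, e0, e0]
        rw [hL2, if_pos hj]
        have hl2 : (if j + 1 + 1 ≤ n - i then co i (j + 1 + 1) else 0) = co i (j + 2) := by
          split_ifs with h1
          · rfl
          · simp only [hco]
            rw [show n - i + 1 - (j + 2) = 0 by omega]
            simp [gco]
        rw [hl2]
        obtain ⟨w, hw⟩ : ∃ w, n - i = w + j + 1 := ⟨n - i - j - 1, by omega⟩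
        have key := gco_rec (K := K) (ρ := -s) (neg_ne_zero.2 hs) w j
        have hne : (1 + s) ^ 2 * (((n - i : ℕ) : K) + 1) ≠ 0 :=
          mul_ne_zero (pow_ne_zero _ hs1) (Nat.cast_add_one_ne_zero _)
        have hcj : s * (s * co i j) + s * co i (j + 1) + (s * co i (j + 1) + co i (j + 2)) = κ := by
          simp only [hco]
          rw [show n - i + 1 - j = w + 2 by omega, show n - i + 1 - (j + 1) = w + 1 by omega,
            show n - i + 1 - (j + 2) = w by omega]
          have hcast : ((n - i : ℕ) : K) + 1 = (w : K) + j + 2 := by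
            rw [hw]; push_cast; ring
          rw [hcast] at hne ⊢
          have h3 : s * (s * (κ * ((1 + s) ^ 2 * ((w : K) + j + 2))⁻¹ * gco (-s) (w + 2) j)) +
              s * (κ * ((1 + s) ^ 2 * ((w : K) + j + 2))⁻¹ * gco (-s) (w + 1) (j + 1)) +
              (s * (κ * ((1 + s) ^ 2 * ((w : K) + j + 2))⁻¹ * gco (-s) (w + 1) (j + 1)) +
                κ * ((1 + s) ^ 2 * ((w : K) + j + 2))⁻¹ * gco (-s) w (j + 2)) =
              κ * ((1 + s) ^ 2 * ((w : K) + j + 2))⁻¹ *
                ((-s) ^ 2 * gco (-s) (w + 2) j - 2 * (-s) * gco (-s) (w + 1) (j + 1) +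
                  gco (-s) w (j + 2)) := by ring
          rw [h3, key]
          have h4 : (1 - -s) ^ 2 * ((w : K) + j + 2) = (1 + s) ^ 2 * ((w : K) + j + 2) := by ring
          rw [h4, mul_assoc, inv_mul_cancel₀ hne, mul_one]
        rw [← hcj]
        simp only [smul_smul, smul_add]
        module
      · -- everything is zero
        have hz : (L ^ (j + 1)) a = 0 := L_pow_gt hp (by omega)
        have hz2 : L (L (lowOf h L Φ n co ((L ^ j) a))) = 0 := by
          rcases Nat.eq_zero_or_pos j with rfl | hj0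
          · rw [pow_zero, Module.End.one_apply, hval0, map_zero, map_zero]
          · obtain ⟨l, rfl⟩ : ∃ l, j = l + 1 := ⟨j - 1, by omega⟩
            rw [hval, map_smul, map_smul, e0, e0, hz, smul_zero]
        rw [hz2, hz, if_neg (by omega)]
        simp
  -- the powers
  set γ : ℕ → ℕ → ℕ → K := fun i r j => ∏ l ∈ range r, co i (l + 1 + j) with hγ
  have hpow : ∀ i ≤ n, ∀ a ∈ gr i, (L ^ (n - i + 1)) a = 0 → ∀ r j, r + j ≤ n - i →
      (x ^ r) ((L ^ (r + j)) a) = γ i r j • (L ^ j) a := by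
    intro i hi a ha hp r
    induction r with
    | zero => intro j _; simp [hγ]
    | succ r ih =>
      intro j hj
      rw [pow_succ, Module.End.mul_apply]
      conv_lhs => rw [hx']
      rw [lowOf_apply h hL hΦ co hi ha hp hj, if_neg (by omega),
        show r + 1 + j - 1 = r + j by omega, ← hx', map_smul, ih j (by omega), smul_smul]
      simp only [hγ]
      rw [Finset.prod_range_succ, mul_comm]
  have hγne : ∀ i r j, r + j ≤ n - i → γ i r j ≠ 0 := by
    intro i r j hj
    simp only [hγ]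
    apply Finset.prod_ne_zero_iff.2
    intro l hl
    rw [Finset.mem_range] at hl
    exact hcone i _ (by omega) (by omega)
  set Q := diagOf h L Φ n (fun i j => (γ i c j)⁻¹) with hQ
  have key := lef_induction hL hbd hHL
    (p := fun i y => i = n - c → Q ((x ^ c) ((L ^ c) y)) = y)
    (by
      intro i a b ha hb hi
      rw [map_add, map_add, map_add, ha hi, hb hi])
    (by
      intro i hi a ha hp j hij
      rw [← Module.End.mul_apply (L ^ c), ← pow_add, hpow i hi a ha hp c j (by omega), map_smul,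
        hQ, diagOf_apply h hL hΦ _ hi ha hp (by omega), smul_smul,
        mul_inv_cancel₀ (hγne i c j (by omega)), one_smul])
  obtain ⟨w, hw, hwv⟩ := (hHL (n - c) (by omega)).2 v
    (by rw [show 2 * n - (n - c) = n + c by omega]; exact hv)
  rw [show n - (n - c) = c by omega] at hwv
  have h1 := key (n - c) (by omega) w hw 0 (by omega)
  rw [pow_zero, Module.End.one_apply, hwv, hv0, map_zero] at h1
  rw [← hwv, ← h1, map_zero]

end

end Pool.Agent.Y101
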