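import Pool.Agent.Y101.BlowL
import Pool.Agent.Y101.ProdP
import Pool.Agent.Y101.RatioB
import Pool.Agent.W498.Dom.Class

/-!
# The blow-up of the diagonal
-/

open CategoryTheory AlgebraicGeometry Finset

universe u v

namespace Pool.Agent.Y101

open Pool.Agent.H914 Pool.Agent.H447 Pool.Agent.W534 VarClass Obj WeilCohomology
  Pool.Agent.TH720.LB

variable {k : Type u} [Field k] {𝒱 : VarClass k} {ops : CycleOps 𝒱}
  {W : WeilCohomology.{u, v} ops}

section Blow

variable {X Z T F : 𝒱.Obj} {i : Z ⟶ X} {π : T ⟶ X} {j : F ⟶ T} {g : F ⟶ Z} {c m : ℕ}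

lemma cl_sub' (z w : X.Cycles) : W.cl X (z - w) = W.cl X z - W.cl X w := map_sub _ _ _

lemma cl_blowDiv (C : X.Cycles) (t : ℚ) :
    W.cl T (blowDiv ops π j C t) = W.map π (W.cl X C) - (t : W.K) • W.cl T (exc ops j) := by
  rw [blowDiv, cl_sub', W.cl_pull, cl_smul]

lemma IsCyc.neg' {z : X.Cycles} {p : ℕ} (hz : X.IsCyc p z) : X.IsCyc p (-z) := by
  have := SmVar.IsCyc.smul (-1) hz
  rwa [neg_one_smul] at this

lemma blowDiv_mem (h : IsBlowup W i π j g c) {C : X.Cycles} (hC : X.IsCyc 1 C) (t : ℚ) :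
    T.IsCyc 1 (blowDiv ops π j C t) := by
  rw [blowDiv, sub_eq_add_neg]
  exact SmVar.IsCyc.add (ops.pull_mem π hC) (IsCyc.neg' (SmVar.IsCyc.smul t (exc_mem h.dimF)))

lemma exc_pow_mul_map (h : IsBlowup W i π j g c) (r : ℕ) (x : W.H X) :
    W.cl T (exc ops j) ^ (r + 1) * W.map π x = tau W j g r (W.map i x) := by
  induction r with
  | zero => rw [zero_add, pow_one, exc_mul_map h]
  | succ r ih => rw [pow_succ', mul_assoc, ih, exc_mul_tau h]

/-- **From the product with a projective line to the blow-up.** -/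
theorem blow_line (h : IsBlowup W i π j g c) {P : 𝒱.Obj} {hh : P.Cycles} (hP : IsProjLike W P hh)
    (hP1 : P.dim = 1) {C : X.Cycles} (hC : X.IsCyc 1 C) {t : ℚ} (ht : t ≠ 0) {d : ℕ}
    {x : W.H (T.prod P)} (hx : x ∈ spanCycles W (T.prod P) (d + 1 : ℕ))
    (hxx : W.cl _ (sumDiv ops (blowDiv ops π j C t) hh) * x =
      (W.cl _ (((d + 2 : ℚ) * t) • ops.pull (fst T P) (exc ops j) - ops.pull (snd T P) hh)) ^
        (d + 2)) :
    ∃ y ∈ spanCycles W T (d : ℕ), (W.map π (W.cl X C) - (t : W.K) • W.cl T (exc ops j)) ^ 2 * y =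
      W.cl T (exc ops j) ^ (d + 1) * W.map π (W.cl X C) := by
  set E := W.cl T (exc ops j) with hE
  set u := W.map π (W.cl X C) - (t : W.K) • E with hu
  have hu2 : u ∈ W.gr T 2 := by
    rw [hu, ← cl_blowDiv]
    exact W.cl_mem (p := 1) (blowDiv_mem h hC t)
  have hE2 : E ∈ W.gr T (2 * 1) := W.cl_mem (exc_mem h.dimF)
  set κ : W.H T := ((((d + 2 : ℚ) * t : ℚ)) : W.K) • E with hκ
  have h1 : W.cl _ (sumDiv ops (blowDiv ops π j C t) hh) =
      W.map (fst T P) u + W.map (snd T P) (W.cl P hh) := by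
    rw [sumDiv, map_add, W.cl_pull, W.cl_pull, cl_blowDiv]
  have h2 : W.cl _ (((d + 2 : ℚ) * t) • ops.pull (fst T P) (exc ops j) -
      ops.pull (snd T P) hh) = (-1 : W.K) • W.map (snd T P) (W.cl P hh) + W.map (fst T P) κ := by
    rw [cl_sub', cl_smul, W.cl_pull, W.cl_pull, hκ, map_smul, neg_one_smul]
    abel
  rw [h1, h2] at hxx
  have h3 := prod_div hP hu2 κ (-1) (d + 2) hxx
  rw [hP1, Finset.sum_range_succ, Finset.sum_range_one] at h3
  simp only [Nat.choose_zero_right, Nat.cast_one, pow_zero, one_mul, one_smul, Nat.sub_zero,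
    Nat.choose_one_right, pow_one, mul_neg, mul_one] at h3
  have h4 : (-u) ^ (1 + 1) = u ^ 2 := by
    rw [neg_pow, show (1 + 1 : ℕ) = 2 from rfl]; simp
  rw [h4] at h3
  -- the right hand side
  have hN : (((d + 2 : ℚ) * t : ℚ) : W.K) ≠ 0 := by
    rw [Ne, Rat.cast_eq_zero]
    apply mul_ne_zero _ ht
    have : (0 : ℚ) ≤ d := Nat.cast_nonneg d
    linarith
  set N : W.K := (((d + 2 : ℚ) * t : ℚ) : W.K) with hNdef
  have hd2 : ((d : W.K) + 2) ≠ 0 := by
    have := Nat.cast_ne_zero (R := W.K) (n := d + 2)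
    have h5 := this.2 (by omega)
    push_cast at h5
    exact h5
  have hNt : N = ((d : W.K) + 2) * (t : W.K) := by
    rw [hNdef]; push_cast; ring
  have hEu : E * W.map π (W.cl X C) = W.map π (W.cl X C) * E := W.even_comm hE2 _
  have e1 : κ ^ (d + 2) = (N ^ (d + 1) * N) • (E ^ (d + 1) * E) := by
    rw [hκ, _root_.smul_pow, pow_succ N (d + 1), pow_succ E (d + 1)]
  have e2 : κ ^ (d + 2 - 1) = N ^ (d + 1) • E ^ (d + 1) := by
    rw [show d + 2 - 1 = d + 1 by omega, hκ, _root_.smul_pow]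
  have hEE : W.map π (W.cl X C) * E ^ (d + 1) = E ^ (d + 1) * W.map π (W.cl X C) :=
    (Commute.pow_left hEu (d + 1)).eq.symm
  have e3 : u ^ 2 * W.push (fst T P) x =
      (-(N ^ (d + 1) * ((d : W.K) + 2))) • (E ^ (d + 1) * W.map π (W.cl X C)) := by
    rw [h3, e1, e2, hu]
    push_cast
    rw [mul_smul_comm, neg_mul, sub_mul, hEE, smul_mul_assoc, ← pow_succ' E, ← pow_succ E, hNt]
    module
  have hne : -(N ^ (d + 1) * ((d : W.K) + 2)) ≠ 0 :=
    neg_ne_zero.2 (mul_ne_zero (pow_ne_zero _ hN) hd2)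
  refine ⟨(-(N ^ (d + 1) * ((d : W.K) + 2)))⁻¹ • W.push (fst T P) x,
    Submodule.smul_mem _ _ (ka_push (fst T P) ?_ hx), ?_⟩
  · rw [dim_prod, hP1]; ring
  · rw [mul_smul_comm, e3, smul_smul, inv_mul_cancel₀ hne, one_smul]

end Blow

section Diagonal

variable {V T F P : 𝒱.Obj} {π : T ⟶ V.prod V} {j : F ⟶ T} {g : F ⟶ V} {m : ℕ}

lemma cl_mixDiv (D : V.Cycles) (q : ℚ) : W.cl _ (mixDiv ops D q) =
    W.map (fst V V) (W.cl V D) + (q : W.K) • W.map (snd V V) (W.cl V D) := by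
  rw [mixDiv, map_add, cl_smul, W.cl_pull, W.cl_pull]

lemma mixDiv_mem {D : V.Cycles} (hD : V.IsCyc 1 D) (q : ℚ) :
    (V.prod V).IsCyc 1 (mixDiv ops D q) :=
  SmVar.IsCyc.add (ops.pull_mem _ hD) (SmVar.IsCyc.smul q (ops.pull_mem _ hD))

lemma diag_mixDiv (D : V.Cycles) (q : ℚ) :
    W.map (diag V) (W.cl _ (mixDiv ops D q)) = (1 + (q : W.K)) • W.cl V D := by
  have e1 : diag V ≫ fst V V = 𝟙 V := Obj.lift_fst _ _
  have e2 : diag V ≫ snd V V = 𝟙 V := Obj.lift_snd _ _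
  rw [cl_mixDiv, map_add, map_smul, ← W.map_comp, ← W.map_comp, e1, e2, W.map_id, add_smul,
    one_smul]

lemma corr_mixDiv {D : V.Cycles} (hD : V.IsCyc 1 D) (q : ℚ) (c : W.H (V.prod V)) :
    W.corr (W.cl _ (mixDiv ops D q) * c) =
      mixOp (q : W.K) 1 (LinearMap.mulLeft W.K (W.cl V D)) (W.corr c) := by
  rw [cl_mixDiv, add_mul, corr_add, corr_fst _ _ (W.cl_mem (p := 1) hD), smul_mul_assoc,
    corr_smul, corr_snd _ _ (W.cl_mem (p := 1) hD), mixOp_apply, one_smul, add_comm]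

lemma corr_mixDiv_pow {D : V.Cycles} (hD : V.IsCyc 1 D) (q : ℚ) (n : ℕ) (c : W.H (V.prod V)) :
    W.corr (W.cl _ (mixDiv ops D q) ^ n * c) =
      ((mixOp (q : W.K) 1 (LinearMap.mulLeft W.K (W.cl V D))) ^ n) (W.corr c) := by
  induction n generalizing c with
  | zero => simp
  | succ n ih =>
    rw [pow_succ, mul_assoc, ih, corr_mixDiv hD, pow_succ, Module.End.mul_apply]

lemma hardLef_smul {K : Type*} [Field K] {V' : Type*} [AddCommGroup V'] [Module K V']
    {gr : ℕ → Submodule K V'} {n : ℕ} {L : Module.End K V'} (h : HardLef gr n L) {c : K}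
    (hc : c ≠ 0) : HardLef gr n (c • L) := by
  intro i hi
  obtain ⟨h1, h2⟩ := h i hi
  have hcp : c ^ (n - i) ≠ 0 := pow_ne_zero _ hc
  refine ⟨fun a ha h0 => h1 a ha ?_, fun b hb => ?_⟩
  · rw [_root_.smul_pow, LinearMap.smul_apply] at h0
    exact (smul_eq_zero.1 h0).resolve_left hcp
  · obtain ⟨a, ha, hab⟩ := h2 _ (Submodule.smul_mem _ (c ^ (n - i))⁻¹ hb)
    refine ⟨a, ha, ?_⟩
    rw [_root_.smul_pow, LinearMap.smul_apply, hab, smul_smul, mul_inv_cancel₀ hcp, one_smul]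

/-- An algebraic solution of the quadratic equation on the square gives the conjecture B. -/
theorem lefschetzB_of_mix {D : V.Cycles} (hD : V.IsCyc 1 D) (hHL : HardLefschetz W V D)
    (hV : 1 ≤ V.dim) {q : ℚ} (hq : 3 ≤ q) {x : W.H (V.prod V)}
    (hx : x ∈ spanCycles W (V.prod V) (V.dim - 1 : ℕ)) {c : W.K} (hc : c ≠ 0)
    (hxx : W.cl _ (mixDiv ops D q) ^ 2 * x =
      c • W.push (diag V) (W.cl V D)) : LefschetzB W V D := by
  have hq0 : (q : W.K) ≠ 0 := by
    rw [Ne, Rat.cast_eq_zero]; linarith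
  have hq1 : 1 + (q : W.K) ≠ 0 := by
    have : ((1 + q : ℚ) : W.K) ≠ 0 := by
      rw [Ne, Rat.cast_eq_zero]; linarith
    push_cast at this
    exact this
  have hx1 : W.corr x ∈ KOp W V V (-1) := by
    rw [mem_KOp_iff]
    refine ⟨x, ?_, rfl⟩
    rwa [show (V.dim : ℤ) + -1 = ((V.dim - 1 : ℕ) : ℤ) by omega]
  have hx2 : IsHom (W.gr V) (-2) (W.corr x) := by
    intro i a ha
    have := KOp.isHom hx1 i a ha
    rwa [show i + 2 * (-1 : ℤ) = i + -2 by ring] at this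
  have heq : (mixOp (q : W.K) 1 (LinearMap.mulLeft W.K (W.cl V D)) ^ 2) (W.corr x) =
      c • LinearMap.mulLeft W.K (W.cl V D) := by
    rw [← corr_mixDiv_pow hD, hxx, corr_smul]
    congr 1
    apply LinearMap.ext
    intro a
    rw [corr_diag, LinearMap.mulLeft_apply]
  apply lefschetzB_of_inj hD hHL
  intro n hn
  refine ⟨W.corr x ^ n, KOp.cast (Pool.Agent.W498.Dom.kop_pow hx1 n) (by ring), ?_⟩
  intro a ha h0
  exact pow_inj_of_mix (W.isInternal V) (isHom_L hD) W_hbd hHL hq0 hq1 hc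
    (fun i j hi hj => gco_ne W.K hq hi hj) hx2 heq hn ha h0

/-- **The conjecture B from one class on the blow-up of the diagonal.** -/
theorem lefschetzB_of_blow (h : IsBlowup W (diag V) π j g (m + 1)) {hh : P.Cycles}
    (hP : IsProjLike W P hh) (hP1 : P.dim = 1) {D : V.Cycles} (hD : V.IsCyc 1 D)
    (hHL : HardLefschetz W V D) {q : ℚ} (hq : 3 ≤ q)
    (hX : HardLefschetz W (V.prod V) (mixDiv ops D q)) {S : Set ℚ} (hS : S.Infinite)
    (hw : ∀ t ∈ S, ∃ x ∈ spanCycles W (T.prod P) (V.dim : ℕ),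
      W.cl _ (sumDiv ops (blowDiv ops π j (mixDiv ops D q) t) hh) * x =
        (W.cl _ (((V.dim + 1 : ℚ) * t) • ops.pull (fst T P) (exc ops j) -
          ops.pull (snd T P) hh)) ^ (V.dim + 1)) : LefschetzB W V D := by
  have hdim : V.dim = m + 2 := by
    have := h.dimX
    rw [dim_prod] at this
    omega
  have hq1 : 1 + (q : W.K) ≠ 0 := by
    have : ((1 + q : ℚ) : W.K) ≠ 0 := by
      rw [Ne, Rat.cast_eq_zero]; linarith
    push_cast at this
    exact this
  have hZ : HardLefschetz W V (ops.pull (diag V) (mixDiv ops D q)) := by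
    unfold HardLefschetz
    rw [W.cl_pull, diag_mixDiv]
    have e1 : LinearMap.mulLeft W.K ((1 + (q : W.K)) • W.cl V D) =
        (1 + (q : W.K)) • LinearMap.mulLeft W.K (W.cl V D) := by
      apply LinearMap.ext
      intro a
      simp
    rw [e1]
    exact hardLef_smul hHL hq1
  obtain ⟨x, hx, hxx⟩ := blow_limit h (mixDiv_mem hD q) hX hZ (r := m + 1) (n := 2)
    (by rw [dim_prod]; omega) (w := W.cl T (exc ops j) ^ (m + 1 + 1) *
      W.map π (W.cl _ (mixDiv ops D q))) (S := S \ {0}) (hS.sdiff (Set.finite_singleton 0)) (by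
        rintro t ⟨ht, ht0⟩
        obtain ⟨x, hx, hxx⟩ := hw t ht
        apply blow_line h hP hP1 (mixDiv_mem hD q) ht0 (x := x)
        · exact ka_cast hx (by omega)
        · rw [hxx]
          have e1 : ((V.dim + 1 : ℚ)) = (((m + 1 : ℕ) : ℚ) + 2) := by
            rw [hdim]; push_cast; ring
          rw [e1, show V.dim + 1 = m + 1 + 2 by omega])
  rw [exc_pow_mul_map h, push_tau_top h, diag_mixDiv, map_smul, smul_smul] at hxx
  exact lefschetzB_of_mix hD hHL (by omega) hq (ka_cast hx (by omega))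
    (mul_ne_zero (pow_ne_zero _ (neg_ne_zero.2 one_ne_zero)) hq1) hxx

end Diagonal

end Pool.Agent.Y101
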