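import Pool.Agent.Y101.CanDefs
import Pool.Agent.Y101.Canon
import Pool.Agent.Y101.Diag
import Pool.Agent.Y101.BlowB
import Pool.Agent.W534.Uni

/-!
# The conjecture A and the canonical classes
-/

open CategoryTheory AlgebraicGeometry Finset

universe u v

namespace Pool.Agent.Y101.Can

open Pool.Agent.H914 Pool.Agent.H447 Pool.Agent.W534 Pool.Agent.W550.B VarClass Obj
  WeilCohomology Pool.Agent.TH720.LB

variable {k : Type u} [Field k] {𝒱 : VarClass k} {ops : CycleOps 𝒱}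
  {W : WeilCohomology.{u, v} ops}

section Cyc

variable {X : 𝒱.Obj}

lemma coeff_smul (q : ℚ) (z : X.Cycles) (x : X.V.X) :
    X.V.coeff (q • z) x = q * X.V.coeff z x :=
  Finsupp.smul_apply (M := ℚ) (α := X.V.X) q z x

/-- A divisor has a multiple with integral coefficients. -/
lemma exists_int {z : X.Cycles} (hz : X.IsCyc 1 z) :
    ∃ e : ℚ, e ≠ 0 ∧ IsIntDiv X (e • z) := by
  classical
  set f : X.V.X →₀ ℚ := z with hf
  refine ⟨((∏ x ∈ f.support, (f x).den : ℕ) : ℚ), ?_, SmVar.IsCyc.smul _ hz, fun x => ?_⟩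
  · rw [Ne, Nat.cast_eq_zero]
    exact Finset.prod_ne_zero_iff.2 (fun x _ => (f x).den_ne_zero)
  · rw [coeff_smul]
    have hc : X.V.coeff z x = f x := rfl
    rw [hc]
    by_cases hx : x ∈ f.support
    · rw [← Finset.mul_prod_erase _ _ hx]
      refine ⟨(f x).num * (∏ y ∈ f.support.erase x, (f y).den : ℕ), ?_⟩
      have h1 : ((f x).den : ℚ) * f x = (f x).num := Rat.den_mul_eq_num _
      push_cast
      calc ((f x).den : ℚ) * (∏ y ∈ f.support.erase x, ((f y).den : ℚ)) * f x =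
          ((f x).den : ℚ) * f x * (∏ y ∈ f.support.erase x, ((f y).den : ℚ)) := by ring
        _ = _ := by rw [h1]
    · rw [Finsupp.notMem_support_iff.1 hx, mul_zero]
      exact ⟨0, by simp⟩

lemma IsIntDiv.nat {z : X.Cycles} (hz : IsIntDiv X z) (N : ℕ) : IsIntDiv X ((N : ℚ) • z) := by
  refine ⟨SmVar.IsCyc.smul _ hz.1, fun x => ?_⟩
  obtain ⟨n, hn⟩ := hz.2 x
  refine ⟨N * n, ?_⟩
  rw [coeff_smul, hn]
  push_cast
  ring

end Cyc

section Conv

variable {X Z T F : 𝒱.Obj}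

lemma cl_dpow (D : X.Cycles) (i : ℕ) : W.cl X (dpow ops D i) = W.cl X D ^ i := by
  rw [dpow, cl_divPow, W.cl_fund, LinearMap.pow_mulLeft, LinearMap.mulLeft_apply, mul_one]

lemma cl_addMul (C E : X.Cycles) (t : ℚ) :
    W.cl X (addMul C E t) = W.cl X C + (t : W.K) • W.cl X E := by
  rw [addMul, map_add, cl_smul]

lemma IsBlow.to {i : Z ⟶ X} {π : T ⟶ X} {j : F ⟶ T} {g : F ⟶ Z} {c : ℕ}
    (h : IsBlow W i π j g c) : IsBlowup W i π j g c where
  comm := h.comm
  dimX := h.dims.1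
  dimT := h.dims.2.1
  dimF := h.dims.2.2
  birational := h.birational
  top := by
    have h1 := h.formula.1
    rw [W.cl_pull] at h1
    exact h1
  basis := by
    have h1 := h.formula.2
    rw [W.cl_pull] at h1
    exact h1

lemma IsPlane.to {q : T ⟶ X} {M : X.Cycles} {ξ : T.Cycles} (h : IsPlane W q M ξ) :
    IsPlaneBundle W q M ξ where
  dim := h.dim
  div := h.div
  basis := h.formula.2
  rel := by
    rw [W.cl_mul, W.cl_mul, map_sub, W.cl_pull, ← mul_assoc, ← pow_two]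
    exact h.formula.1

lemma IsSpace.to {P : 𝒱.Obj} {h : P.Cycles} {m : ℕ} (hP : IsSpace W P h m) :
    IsProjLike W P h := ⟨hP.div, by rw [hP.dim]; exact hP.formula.1, hP.formula.2⟩

lemma boxDiv_one {P : 𝒱.Obj} (D : X.Cycles) (h : P.Cycles) :
    boxDiv ops D h 1 = sumDiv ops D h := by
  rw [boxDiv, addMul, one_smul, sumDiv]

lemma infinite_neg {π : T ⟶ X} {j : F ⟶ T} {C : X.Cycles}
    {Pol : ∀ X : 𝒱.Obj, X.Cycles → Prop}
    (h : {t | Pol T (addMul (ops.pull π C) (Can.exc ops j) t)}.Infinite) :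
    {t : ℚ | Pol T (blowDiv ops π j C t)}.Infinite := by
  have h1 : {t : ℚ | Pol T (blowDiv ops π j C t)} =
      (fun t => -t) ⁻¹' {t | Pol T (addMul (ops.pull π C) (Can.exc ops j) t)} := by
    ext t
    simp only [Set.mem_preimage, Set.mem_ofPred_eq, blowDiv, addMul, neg_smul, sub_eq_add_neg]
    rfl
  rw [h1]
  exact h.preimage (by simp)

lemma span_alg (m : ℕ) : Submodule.span W.K (algClasses W X m) = spanCycles W X (m : ℤ) := by
  rw [spanCycles]
  congr 1
  ext c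
  constructor
  · rintro ⟨z, hz, rfl⟩
    exact ⟨m, rfl, z, hz, rfl⟩
  · rintro ⟨p, hp, z, hz, rfl⟩
    obtain rfl : p = m := by exact_mod_cast hp
    exact ⟨z, hz, rfl⟩

lemma mem_spanMultiples {D : X.Cycles} {m : ℕ} {a : W.H X} :
    a ∈ spanMultiples W X D m ↔ ∃ x ∈ spanCycles W X (m : ℤ), W.cl X D * x = a := by
  rw [spanMultiples, spanMultiplesBy, span_alg]
  rfl

lemma spanMultiples_iff {D : X.Cycles} {m : ℕ} {a : W.H X} :
    a ∈ spanMultiples W X D m ↔ a ∈ divBy W X D (m : ℤ) := by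
  rw [mem_spanMultiples]
  rfl

end Conv

variable {P : ℕ → 𝒱.Obj} {h : ∀ m, (P m).Cycles} {can : ∀ X : 𝒱.Obj, X.Cycles}
  {Pol : ∀ X : 𝒱.Obj, X.Cycles → Prop} {R : 𝒱.Obj → Prop}

section

variable (hP : ∀ m, IsSpace W (P m) (h m) m) (hPol : IsPolarisation W P h Pol)
  (hcan : IsCanonical W P h can) (hR : IsRationalClass W P can Pol R)

include hP hPol hcan hR

/-- From the canonical classes to the divisors with integral coefficients. -/
lemma canon_int (hK : CanonicalPowers W can Pol R) {X : 𝒱.Obj} {D : X.Cycles} (hX : R X)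
    (hD : Pol X D) {p : ℕ} (hp : 2 ≤ p) (hdim : X.dim + 1 = 2 * p) {M : X.Cycles}
    (hM : IsIntDiv X M) : W.cl X M ^ p ∈ divBy W X D ((p : ℤ) - 1) := by
  apply top_mem hp (κ := W.cl X (can X))
  intro N _
  obtain ⟨T, q, ξ, hT', hRT, hcT, hpol⟩ := hR.plane X hX ((N : ℚ) • M) (hM.nat N)
  have hT := hT'.to
  have h1 := plane_step hT (hP 2).to (hP 2).dim (hPol.div X D hD) (hPol.hard X D hD)
    (p := p) (by omega) hdim (κ := W.cl T (can T)) (ka_gen (hcan.int T).1) (hpol D hD) (by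
      intro t ht
      have h2 := hPol.space T _ 2 ht
      rw [boxDiv_one] at h2
      have h3 := hK (T.prod (P 2)) _ (p + 1) (hR.space T 2 hRT) h2 (by
        rw [dim_prod, (hP 2).dim, hT.dim]; omega)
      rw [mem_spanMultiples, cl_dpow] at h3
      obtain ⟨x, hx, hxx⟩ := h3
      refine ⟨x, hx, ?_⟩
      have h4 : W.map (fst T (P 2)) (W.cl T (can T)) -
          (3 : W.K) • W.map (snd T (P 2)) (W.cl (P 2) (h 2)) =
          W.cl _ (can (T.prod (P 2))) := by
        rw [show W.cl _ (can (T.prod (P 2))) = W.cl _ (boxDiv ops (can T) (h 2) (-((2 : ℕ) + 1)))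
          from hcan.space T 2, boxDiv, cl_addMul, W.cl_pull, W.cl_pull, sub_eq_add_neg, ← neg_smul]
        norm_num
      rw [h4]
      exact hxx)
  have hcT' : W.cl T (can T) =
      W.map q (W.cl X (can X) + W.cl X ((N : ℚ) • M)) - (3 : W.K) • W.cl T ξ := by
    rw [show W.cl T (can T) = _ from hcT, cl_addMul, W.cl_pull, cl_addMul, sub_eq_add_neg,
      ← neg_smul]
    norm_num
  rw [hcT', co2_pow hT (SmVar.IsCyc.smul _ hM.1)] at h1
  have e1 : W.cl X ((N : ℚ) • M) = (N : W.K) • W.cl X M := by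
    rw [cl_smul, Rat.cast_natCast]
  rw [e1] at h1
  exact h1

/-- From the canonical classes to all divisors. -/
lemma canon_all (hK : CanonicalPowers W can Pol R) {X : 𝒱.Obj} {D : X.Cycles} (hX : R X)
    (hD : Pol X D) {p : ℕ} (hp : 2 ≤ p) (hdim : X.dim + 1 = 2 * p) {v : X.Cycles}
    (hv : X.IsCyc 1 v) : W.cl X v ^ p ∈ divBy W X D ((p : ℤ) - 1) := by
  obtain ⟨e, he, hev⟩ := exists_int hv
  have h1 := canon_int hP hPol hcan hR hK hX hD hp hdim hev
  rw [cl_smul, _root_.smul_pow] at h1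
  have h2 : ((e : W.K) ^ p) ≠ 0 := pow_ne_zero _ (by rwa [Ne, Rat.cast_eq_zero])
  have h3 := Submodule.smul_mem _ ((e : W.K) ^ p)⁻¹ h1
  rwa [smul_smul, inv_mul_cancel₀ h2, one_smul] at h3

/-- The conjecture B for the members of `R`. -/
lemma canon_B (hK : CanonicalPowers W can Pol R) {V : 𝒱.Obj} {D : V.Cycles} (hV : R V)
    (hD : Pol V D) : LefschetzB W V D := by
  have hD1 := hPol.div V D hD
  have hHL := hPol.hard V D hD
  by_cases hdim : V.dim ≤ 1
  · exact lefschetzB_of_inj hD1 hHL (Pool.Agent.W498.Dom.Inj.curve hdim)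
  obtain ⟨T, F, π, j, g, hbl', hRT, hpol⟩ := hR.diagonal V hV (by omega)
  have hbl := hbl'.to
  obtain ⟨m, hm⟩ : ∃ m, V.dim - 1 = m + 1 := ⟨V.dim - 2, by omega⟩
  rw [hm] at hbl
  have hsq := hPol.square V D 3 (by norm_num) hD
  change Pol (V.prod V) (mixDiv ops D 3) at hsq
  refine lefschetzB_of_blow hbl (hP 1).to (hP 1).dim hD1 hHL (q := 3) le_rfl
    (hPol.hard _ _ hsq) (infinite_neg (hpol _ hsq)) (fun t ht => ?_)
  have h1 := hPol.space T _ 1 ht
  rw [boxDiv_one] at h1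
  have hTdim : T.dim = 2 * V.dim := by
    rw [hbl.dimT, dim_prod]; ring
  have h2 := canon_all hP hPol hcan hR hK (hR.space T 1 hRT) h1 (p := V.dim + 1) (by omega)
    (by rw [dim_prod, (hP 1).dim, hTdim]; ring)
    (v := ((V.dim + 1 : ℚ) * t) • ops.pull (fst T (P 1)) (Y101.exc ops j) -
      ops.pull (snd T (P 1)) (h 1)) (by
        rw [sub_eq_add_neg]
        exact SmVar.IsCyc.add (SmVar.IsCyc.smul _ (ops.pull_mem _ (exc_mem hbl.dimF)))
          (IsCyc.neg' (ops.pull_mem _ (hP 1).div)))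
  rw [show ((V.dim + 1 : ℕ) : ℤ) - 1 = ((V.dim : ℕ) : ℤ) by push_cast; ring] at h2
  exact h2

/-- The conjecture B for all. -/
lemma canon_B_all (hK : CanonicalPowers W can Pol R) {V : 𝒱.Obj} {D : V.Cycles}
    (hD : Pol V D) : LefschetzB W V D := by
  obtain ⟨X, T, F, i, π, j, g, c, hc, hbl, hRT, ⟨C, hC⟩, ⟨E, hE⟩⟩ := hR.centre V ⟨D, hD⟩
  have h1 : ∀ {Y : 𝒱.Obj} {G : Y.Cycles}, Pol Y G → IsLefschetzDivisor W Y G :=
    fun hG => ⟨hPol.div _ _ hG, hPol.hard _ _ hG⟩
  exact ((blow_B hbl.to hc (h1 hC) (h1 hD) (h1 hE)).1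
    (canon_B hP hPol hcan hR hK hRT hE)).2

end

/-- The conjecture B implies the conjecture A. -/
lemma lefschetzA_of_B {X : 𝒱.Obj} {D : X.Cycles} (hD : X.IsCyc 1 D) (hHL : HardLefschetz W X D)
    (hB : LefschetzB W X D) : LefschetzA W X D := by
  by_cases hn : 1 ≤ X.dim
  · intro j hj z hz
    obtain ⟨z', hz', h1⟩ := uniform_self hn hD hHL hB j hj z hz
    exact ⟨z', hz', h1 W (fun _ => rfl)⟩
  · intro j hj z hz
    obtain rfl : j = 0 := by omega
    refine ⟨z, by rwa [Nat.sub_zero, show X.dim = 0 by omega] at hz, ?_⟩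
    rw [show X.dim - 2 * 0 = 0 by omega]
    rfl

section AlgCl

variable {X : 𝒱.Obj} {p q : ℕ}

lemma alg_add {a b : W.H X} (ha : a ∈ algClasses W X p) (hb : b ∈ algClasses W X p) :
    a + b ∈ algClasses W X p := by
  obtain ⟨z, hz, rfl⟩ := ha
  obtain ⟨w, hw, rfl⟩ := hb
  exact ⟨z + w, SmVar.IsCyc.add hz hw, map_add _ _ _⟩

lemma alg_smul (c : ℚ) {a : W.H X} (ha : a ∈ algClasses W X p) :
    (c : W.K) • a ∈ algClasses W X p := by
  obtain ⟨z, hz, rfl⟩ := ha
  exact ⟨c • z, SmVar.IsCyc.smul c hz, cl_smul W c z⟩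

lemma alg_zero : (0 : W.H X) ∈ algClasses W X p := ⟨0, SmVar.IsCyc.zero _ _, map_zero _⟩

lemma alg_neg {a : W.H X} (ha : a ∈ algClasses W X p) : -a ∈ algClasses W X p := by
  have := alg_smul (-1) ha
  rwa [Rat.cast_neg, Rat.cast_one, neg_one_smul] at this

lemma alg_mul {a b : W.H X} (ha : a ∈ algClasses W X p) (hb : b ∈ algClasses W X q) :
    a * b ∈ algClasses W X (p + q) := by
  obtain ⟨z, hz, rfl⟩ := ha
  obtain ⟨w, hw, rfl⟩ := hb
  exact ⟨ops.mul z w, ops.mul_mem hz hw, W.cl_mul _ _⟩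

lemma alg_pow {a : W.H X} (ha : a ∈ algClasses W X 1) (r : ℕ) : a ^ r ∈ algClasses W X r := by
  induction r with
  | zero => exact ⟨_, X.V.fundCycle_mem, by rw [W.cl_fund, pow_zero]⟩
  | succ r ih =>
    rw [pow_succ]
    exact alg_mul ih ha

lemma alg_sum {ι : Type*} {s : Finset ι} {f : ι → W.H X} (hf : ∀ i ∈ s, f i ∈ algClasses W X p) :
    ∑ i ∈ s, f i ∈ algClasses W X p := by
  classical
  induction s using Finset.induction_on with
  | empty => rw [Finset.sum_empty]; exact alg_zero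
  | insert a s ha ih =>
    rw [Finset.sum_insert ha]
    exact alg_add (hf a (by simp)) (ih (fun i hi => hf i (by simp [hi])))

lemma mem_multiples {D : X.Cycles} {m : ℕ} {a : W.H X} :
    a ∈ multiples W X D m ↔ ∃ b ∈ algClasses W X m, W.cl X D * b = a := Iff.rfl

end AlgCl

/-- **The conjecture A, polarisations, divisors and canonical classes.** -/
theorem canonical_tfae (hP : ∀ m, IsSpace W (P m) (h m) m) (hPol : IsPolarisation W P h Pol)
    (hcan : IsCanonical W P h can) (hR : IsRationalClass W P can Pol R) :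
    List.TFAE [AllA W Pol, SameMultiples W Pol, DivisorPowers W Pol,
      CanonicalPowers W can Pol R] := by
  tfae_have 1 → 2 := by
    intro hA
    have key : ∀ X D D' m, Pol X D → Pol X D' → X.dim = 2 * m + 1 →
        multiples W X D' m ⊆ multiples W X D m := by
      rintro X D D' m hD hD' hdim _ ⟨_, ⟨z, hz, rfl⟩, rfl⟩
      obtain ⟨z', hz', h1⟩ := hA X D hD m (by omega) (ops.mul D' z) (by
        have := ops.mul_mem (hPol.div X D' hD') hz
        rwa [show 1 + m = X.dim - m by omega] at this)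
      rw [show X.dim - 2 * m = 1 by omega] at h1
      refine ⟨_, ⟨z', hz', rfl⟩, ?_⟩
      rw [← W.cl_mul, ← W.cl_mul]
      exact h1
    intro X D D' m hD hD' hdim
    exact Set.Subset.antisymm (key X D' D m hD' hD hdim) (key X D D' m hD hD' hdim)
  tfae_have 2 → 3 := by
    intro h2 X D v m hD hv hdim
    obtain ⟨N, hN⟩ := hPol.add X D v hD hv
    have h3 := h2 X D _ m hD hN hdim
    set a := W.cl X (addMul v D N) with ha
    have hab : a - W.cl X v = (N : W.K) • W.cl X D := by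
      rw [ha, cl_addMul]; abel
    have ha1 : a ∈ algClasses W X 1 := ⟨_, hPol.div _ _ hN, rfl⟩
    have hv1 : W.cl X v ∈ algClasses W X 1 := ⟨_, hv, rfl⟩
    have h4 : a ^ (m + 1) ∈ multiples W X D m := by
      rw [h3, mem_multiples]
      exact ⟨a ^ m, alg_pow ha1 m, by rw [← ha, pow_succ']⟩
    obtain ⟨b, hb, hb'⟩ := mem_multiples.1 h4
    have hc : Commute a (W.cl X v) := W.even_comm (W.cl_mem (p := 1) (hPol.div _ _ hN)) _
    have h5 := hc.mul_geom_sum₂ (m + 1)
    rw [hab] at h5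
    rw [mem_multiples, cl_dpow]
    refine ⟨b - (N : W.K) • ∑ i ∈ range (m + 1), a ^ i * W.cl X v ^ (m + 1 - 1 - i), ?_, ?_⟩
    · rw [sub_eq_add_neg]
      refine alg_add hb (alg_neg (alg_smul N (alg_sum fun i hi => ?_)))
      rw [Finset.mem_range] at hi
      have := alg_mul (alg_pow ha1 i) (alg_pow hv1 (m + 1 - 1 - i))
      rwa [show i + (m + 1 - 1 - i) = m by omega] at this
    · rw [mul_sub, hb', mul_smul_comm, ← smul_mul_assoc, h5]
      abel
  tfae_have 3 → 4 := by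
    intro h3 X D m _ hD hdim
    obtain ⟨_, ⟨z, hz, rfl⟩, hzz⟩ := h3 X D (can X) m hD (hcan.int X).1 hdim
    rw [mem_spanMultiples]
    exact ⟨W.cl X z, ka_gen hz, hzz⟩
  tfae_have 4 → 1 := by
    intro h4 X D hD
    exact lefschetzA_of_B (hPol.div X D hD) (hPol.hard X D hD)
      (canon_B_all hP hPol hcan hR h4 hD)
  tfae_finish

end Pool.Agent.Y101.Can
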