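import Pool.Agent.Y101.CanBDefs
import Pool.Agent.Y101.CanMain

/-!
# The conjecture B and the canonical classes in one dimension
-/

open CategoryTheory AlgebraicGeometry Finset

universe u v

namespace Pool.Agent.Y101.Can

open Pool.Agent.H914 Pool.Agent.H447 Pool.Agent.W534 Pool.Agent.W550.B VarClass Obj
  WeilCohomology Pool.Agent.TH720.LB

variable {k : Type u} [Field k] {𝒱 : VarClass k} {ops : CycleOps 𝒱}
  {W : WeilCohomology.{u, v} ops} {P : ℕ → 𝒱.Obj} {h : ∀ m, (P m).Cycles}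
  {can : ∀ X : 𝒱.Obj, X.Cycles} {Pol : ∀ X : 𝒱.Obj, X.Cycles → Prop} {R : 𝒱.Obj → Prop}

section

variable (hP : ∀ m, IsSpace W (P m) (h m) m) (hPol : IsPolarisation W P h Pol)
  (hcan : IsCanonical W P h can) (hR : IsRationalClass W P can Pol R)

include hP hPol hcan hR

/-- From the canonical classes in one dimension to the divisors with integral coefficients. -/
lemma canonIn_int {X : 𝒱.Obj} {D : X.Cycles} (hX : R X)
    (hD : Pol X D) {p : ℕ} (hK : CanonicalPowersIn W can Pol R (p + 1)) (hp : 2 ≤ p)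
    (hdim : X.dim + 1 = 2 * p) {M : X.Cycles}
    (hM : IsIntDiv X M) : W.cl X M ^ p ∈ divBy W X D ((p : ℤ) - 1) := by
  apply top_mem hp (κ := W.cl X (can X))
  intro N _
  obtain ⟨T, q, ξ, hT', hRT, hcT, hpol⟩ := hR.plane X hX ((N : ℚ) • M) (hM.nat N)
  have hT := hT'.to
  have h1 := plane_step hT (hP 2).to (hP 2).dim (hPol.div X D hD) (hPol.hard X D hD)
    (p := p) (by omega) hdim (κ := W.cl T (can T)) (ka_gen (hcan.int T).1) (hpol D hD) (by
      intro t ht
      have h2 := hPol.space T _ 2 ht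
      rw [boxDiv_one] at h2
      have h3 := hK (T.prod (P 2)) _ (hR.space T 2 hRT) h2 (by
        rw [dim_prod, (hP 2).dim, hT.dim]; omega)
      rw [mem_spanMultiples, cl_dpow] at h3
      obtain ⟨x, hx, hxx⟩ := h3
      refine ⟨x, hx, ?_⟩
      have h4 : W.map (fst T (P 2)) (W.cl T (can T)) -
          (3 : W.K) • W.map (snd T (P 2)) (W.cl (P 2) (h 2)) =
          W.cl _ (can (T.prod (P 2))) := by
        rw [show W.cl _ (can (T.prod (P 2))) = W.cl _ (boxDiv ops (can T) (h 2) (-((2 : ℕ) + 1)))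
          from hcan.space T 2, boxDiv, cl_addMul, W.cl_pull, W.cl_pull, sub_eq_add_neg, ← neg_smul]
        norm_num
      rw [h4]
      exact hxx)
  have hcT' : W.cl T (can T) =
      W.map q (W.cl X (can X) + W.cl X ((N : ℚ) • M)) - (3 : W.K) • W.cl T ξ := by
    rw [show W.cl T (can T) = _ from hcT, cl_addMul, W.cl_pull, cl_addMul, sub_eq_add_neg,
      ← neg_smul]
    norm_num
  rw [hcT', co2_pow hT (SmVar.IsCyc.smul _ hM.1)] at h1
  have e1 : W.cl X ((N : ℚ) • M) = (N : W.K) • W.cl X M := by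
    rw [cl_smul, Rat.cast_natCast]
  rw [e1] at h1
  exact h1

/-- From the canonical classes in one dimension to all divisors. -/
lemma canonIn_all {X : 𝒱.Obj} {D : X.Cycles} (hX : R X)
    (hD : Pol X D) {p : ℕ} (hK : CanonicalPowersIn W can Pol R (p + 1)) (hp : 2 ≤ p)
    (hdim : X.dim + 1 = 2 * p) {v : X.Cycles}
    (hv : X.IsCyc 1 v) : W.cl X v ^ p ∈ divBy W X D ((p : ℤ) - 1) := by
  obtain ⟨e, he, hev⟩ := exists_int hv
  have h1 := canonIn_int hP hPol hcan hR hX hD hK hp hdim hev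
  rw [cl_smul, _root_.smul_pow] at h1
  have h2 : ((e : W.K) ^ p) ≠ 0 := pow_ne_zero _ (by rwa [Ne, Rat.cast_eq_zero])
  have h3 := Submodule.smul_mem _ ((e : W.K) ^ p)⁻¹ h1
  rwa [smul_smul, inv_mul_cancel₀ h2, one_smul] at h3

/-- The conjecture B for the members of `R` of dimension `d` follows from the divisibility of the
power of the canonical class of the members of `R` of dimension `2 d + 5`. -/
lemma canonIn_B {V : 𝒱.Obj} {D : V.Cycles} (hV : R V) (hD : Pol V D)
    (hK : CanonicalPowersIn W can Pol R (V.dim + 2)) : LefschetzB W V D := by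
  have hD1 := hPol.div V D hD
  have hHL := hPol.hard V D hD
  by_cases hdim : V.dim ≤ 1
  · exact lefschetzB_of_inj hD1 hHL (Pool.Agent.W498.Dom.Inj.curve hdim)
  obtain ⟨T, F, π, j, g, hbl', hRT, hpol⟩ := hR.diagonal V hV (by omega)
  have hbl := hbl'.to
  obtain ⟨m, hm⟩ : ∃ m, V.dim - 1 = m + 1 := ⟨V.dim - 2, by omega⟩
  rw [hm] at hbl
  have hsq := hPol.square V D 3 (by norm_num) hD
  change Pol (V.prod V) (mixDiv ops D 3) at hsq
  refine lefschetzB_of_blow hbl (hP 1).to (hP 1).dim hD1 hHL (q := 3) le_rfl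
    (hPol.hard _ _ hsq) (infinite_neg (hpol _ hsq)) (fun t ht => ?_)
  have h1 := hPol.space T _ 1 ht
  rw [boxDiv_one] at h1
  have hTdim : T.dim = 2 * V.dim := by
    rw [hbl.dimT, dim_prod]; ring
  have h2 := canonIn_all hP hPol hcan hR (hR.space T 1 hRT) h1 (p := V.dim + 1) hK (by omega)
    (by rw [dim_prod, (hP 1).dim, hTdim]; ring)
    (v := ((V.dim + 1 : ℚ) * t) • ops.pull (fst T (P 1)) (Y101.exc ops j) -
      ops.pull (snd T (P 1)) (h 1)) (by
        rw [sub_eq_add_neg]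
        exact SmVar.IsCyc.add (SmVar.IsCyc.smul _ (ops.pull_mem _ (exc_mem hbl.dimF)))
          (IsCyc.neg' (ops.pull_mem _ (hP 1).div)))
  rw [show ((V.dim + 1 : ℕ) : ℤ) - 1 = ((V.dim : ℕ) : ℤ) by push_cast; ring] at h2
  exact h2

/-- The conjecture B for all varieties of dimension `d` follows from the divisibility of the power of
the canonical class of the members of `R` of dimension `4 d + 7`. -/
lemma canonIn_B_all (hE : HasEmbeddings W Pol R) {V : 𝒱.Obj} {D : V.Cycles}
    (hD : Pol V D) (hK : CanonicalPowersIn W can Pol R (2 * V.dim + 3)) :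
    LefschetzB W V D := by
  by_cases hdim : V.dim ≤ 1
  · exact lefschetzB_of_inj (hPol.div V D hD) (hPol.hard V D hD)
      (Pool.Agent.W498.Dom.Inj.curve hdim)
  obtain ⟨X, T, F, i, π, j, g, c, hX, hc, hbl, hRT, ⟨C, hC⟩, ⟨E, hE'⟩⟩ :=
    hE V ⟨D, hD⟩ (by omega)
  have h1 : ∀ {Y : 𝒱.Obj} {G : Y.Cycles}, Pol Y G → IsLefschetzDivisor W Y G :=
    fun hG => ⟨hPol.div _ _ hG, hPol.hard _ _ hG⟩
  have hT : T.dim = 2 * V.dim + 1 := by rw [hbl.dims.2.1, hX]
  refine ((blow_B hbl.to hc (h1 hC) (h1 hD) (h1 hE')).1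
    (canonIn_B hP hPol hcan hR hRT hE' ?_)).2
  rw [hT]
  exact hK

/-- **The conjecture B for all varieties and the canonical classes of the rational ones.** -/
theorem canonicalB_tfae :
    List.TFAE [AllB W Pol, AllA W Pol, SameMultiples W Pol, DivisorPowers W Pol,
      CanonicalPowers W can Pol R] := by
  have key := canonical_tfae hP hPol hcan hR
  have e1 : AllA W Pol ↔ SameMultiples W Pol := key.out 0 1
  have e2 : AllA W Pol ↔ DivisorPowers W Pol := key.out 0 2
  have e3 : AllA W Pol ↔ CanonicalPowers W can Pol R := key.out 0 3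
  have e0 : AllB W Pol ↔ AllA W Pol :=
    ⟨fun hB X D hD => lefschetzA_of_B (hPol.div _ _ hD) (hPol.hard _ _ hD) (hB X D hD),
      fun hA X D hD => canon_B_all hP hPol hcan hR (e3.1 hA) hD⟩
  tfae_have 1 ↔ 2 := e0
  tfae_have 2 ↔ 3 := e1
  tfae_have 2 ↔ 4 := e2
  tfae_have 2 ↔ 5 := e3
  tfae_finish

end

end Pool.Agent.Y101.Can
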