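import Pool.Agent.H914R2.HodgeDefs

/-!
# Polarisations, canonical classes and the class of rational varieties: definitions
-/

open CategoryTheory AlgebraicGeometry

universe u v

namespace Pool.Agent.Y101.Can

section Alg

variable {K : Type*} [Field K] {A B C H : Type*} [Ring A] [Algebra K A] [Ring B] [Algebra K B]
  [Ring C] [Algebra K C] [Ring H] [Algebra K H]

/-- The cohomology of the blow-up of `X` along `Z`. Here `A`, `B`, `C`, `H` are the cohomologies of `X`,
of the exceptional divisor `F`, of the centre `Z` and of the blow-up `T`, the maps are `π^*`, `j_*`, `g^*`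
and `g_*`, and `ζ` is the restriction to `F` of the class of `F`, the class of `O(-1)` on a bundle of
projective spaces of dimension `c` over `Z`:

* `g_*(ζ ^ c) = (-1) ^ c`;
* `H(T) = π^* H(X) ⊕ ⨁ j_*(g^* H(Z) · ζ ^ r)`, the sum over `r < c`. -/
def BlowFormula (π : A →ₐ[K] H) (j : B →ₗ[K] H) (g : C →ₐ[K] B) (g' : B →ₗ[K] C) (ζ : B)
    (c : ℕ) : Prop :=
  g' (ζ ^ c) = (-1) ^ c ∧ Function.Bijective fun a : A × (Fin c → C) =>
    π a.1 + ∑ r : Fin c, j (g (a.2 r) * ζ ^ (r : ℕ))

/-- The cohomology `H` of the bundle `P(O ⊕ O ⊕ O(M))` of planes over `X` with the cohomology `A`: it is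
free over `A` on `1, ξ, ξ ^ 2`, and `ξ ^ 2 (ξ - q^* M) = 0`, where `ξ` is the class of `O(1)`. -/
def PlaneFormula (q : A →ₐ[K] H) (M : A) (ξ : H) : Prop :=
  ξ ^ 2 * (ξ - q M) = 0 ∧
    Function.Bijective fun a : Fin 3 → A => ∑ r : Fin 3, q (a r) * ξ ^ (r : ℕ)

/-- The cohomology of the projective space of dimension `m`: it is spanned by the powers of `t`, and
`t ^ m` has degree `1`. -/
def SpaceFormula (tr : A →ₗ[K] K) (t : A) (m : ℕ) : Prop :=
  tr (t ^ m) = 1 ∧ ∀ a, a ∈ Submodule.span K (Set.range fun i : ℕ => t ^ i)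

/-- The products of `t` and the elements of `S`. -/
def multiplesBy (t : A) (S : Set A) : Set A := {c | ∃ x ∈ S, t * x = c}

/-- The products of `t` and the elements of the `K`-span of `S`. -/
def spanMultiplesBy (K : Type*) [Field K] {A : Type*} [Ring A] [Algebra K A] (t : A)
    (S : Set A) : Set A :=
  {c | ∃ x ∈ Submodule.span K S, t * x = c}

end Alg

open Pool.Agent.H914 VarClass Obj WeilCohomology

variable {k : Type u} [Field k] {𝒱 : VarClass k} {ops : CycleOps 𝒱}

/-- The cycle `C + t E`. -/
noncomputable def addMul {X : 𝒱.Obj} (C E : X.Cycles) (t : ℚ) : X.Cycles := C + t • E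

/-- The cycle `D ^ i = D ⋯ D · [X]`. -/
noncomputable def dpow (ops : CycleOps 𝒱) {X : 𝒱.Obj} (D : X.Cycles) (i : ℕ) : X.Cycles :=
  divPow ops D i X.V.fundCycle

/-- The cycles `z` and `w` have the same cohomology class. -/
def SameClass (W : WeilCohomology.{u, v} ops) {X : 𝒱.Obj} (z w : X.Cycles) : Prop :=
  W.cl X z = W.cl X w

/-- The image `j_*[F]` of the fundamental cycle of `F`: the exceptional divisor `E`. -/
noncomputable def exc (ops : CycleOps 𝒱) {F T : 𝒱.Obj} (j : F ⟶ T) : T.Cycles :=
  ops.push j F.V.fundCycle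

/-- The morphism `π : T ⟶ X` looks like the blow-up of `X` along the centre `i : Z ⟶ X` of
codimension `c + 1`, with the exceptional divisor `j : F ⟶ T` over `g : F ⟶ Z`: the push-forward of
`[T]` is `[X]`, and the formula for the cohomology of a blow-up holds. -/
structure IsBlow (W : WeilCohomology.{u, v} ops) {X Z T F : 𝒱.Obj} (i : Z ⟶ X) (π : T ⟶ X)
    (j : F ⟶ T) (g : F ⟶ Z) (c : ℕ) : Prop where
  comm : j ≫ π = g ≫ i
  dims : X.dim = Z.dim + c + 1 ∧ T.dim = X.dim ∧ T.dim = F.dim + 1
  birational : SameClass W (ops.push π T.V.fundCycle) X.V.fundCycle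
  formula : BlowFormula (W.map π) (W.push j) (W.map g) (W.push g)
    (W.cl F (ops.pull j (exc ops j))) c

/-- The morphism `q : T ⟶ X` with the divisor `ξ` on `T` looks like the bundle of projective
planes `P(O ⊕ O ⊕ O(M))` over `X` (the bundle of the quotients of rank one) with the divisor `ξ` of
`O(1)`. -/
structure IsPlane (W : WeilCohomology.{u, v} ops) {X T : 𝒱.Obj} (q : T ⟶ X)
    (M : X.Cycles) (ξ : T.Cycles) : Prop where
  dim : T.dim = X.dim + 2
  div : T.IsCyc 1 ξ
  formula : PlaneFormula (W.map q) (W.cl X M) (W.cl T ξ)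

/-- `z` is a divisor with integral coefficients. -/
def IsIntDiv (X : 𝒱.Obj) (z : X.Cycles) : Prop :=
  X.IsCyc 1 z ∧ ∀ x, ∃ n : ℤ, X.V.coeff z x = n

/-- `P` with the divisor `h` looks like a projective space of dimension `m` with a hyperplane: the
powers of `h` span the cohomology, and `h ^ m` has degree `1`. -/
structure IsSpace (W : WeilCohomology.{u, v} ops) (P : 𝒱.Obj) (h : P.Cycles) (m : ℕ) : Prop where
  dim : P.dim = m
  div : P.IsCyc 1 h
  formula : SpaceFormula (W.tr P) (W.cl P h) m

/-- The divisor `D × P + t X × h` on `X × P`. -/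
noncomputable def boxDiv (ops : CycleOps 𝒱) {X P : 𝒱.Obj} (D : X.Cycles) (h : P.Cycles) (t : ℚ) :
    (X.prod P).Cycles :=
  addMul (ops.pull (fst X P) D) (ops.pull (snd X P) h) t

/-- The properties of the class `Pol` of the pairs `(X, D)` of a variety and an ample divisor with
rational coefficients which are used: hard Lefschetz; for every divisor `v` some `v + N D` is ample;
`D × P^m + X × h` is ample on `X × P^m`; and `D × X + t X × D`, `t > 0`, is ample on `X × X`. -/
structure IsPolarisation (W : WeilCohomology.{u, v} ops) (P : ℕ → 𝒱.Obj)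
    (h : ∀ m, (P m).Cycles) (Pol : ∀ X : 𝒱.Obj, X.Cycles → Prop) : Prop where
  div : ∀ X D, Pol X D → X.IsCyc 1 D
  hard : ∀ X D, Pol X D → HardLefschetz W X D
  add : ∀ X D v, Pol X D → X.IsCyc 1 v → ∃ N, Pol X (addMul v D N)
  space : ∀ X D m, Pol X D → Pol (X.prod (P m)) (boxDiv ops D (h m) 1)
  square : ∀ X D, ∀ t > 0, Pol X D → Pol (X.prod X) (boxDiv ops D D t)

/-- The properties of the canonical divisors `can X` which are used: they have integral
coefficients, and `can (X × P^m)` is in cohomology `can X × P^m - (m + 1) X × h`. -/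
structure IsCanonical (W : WeilCohomology.{u, v} ops) (P : ℕ → 𝒱.Obj)
    (h : ∀ m, (P m).Cycles) (can : ∀ X : 𝒱.Obj, X.Cycles) : Prop where
  int : ∀ X, IsIntDiv X (can X)
  space : ∀ X m, SameClass W (can (X.prod (P m))) (boxDiv ops (can X) (h m) (-(m + 1)))

/-- There is a blow-up `T` of `X × X` along the diagonal such that `T` is in `R` and infinitely many
of the divisors `π^* C + t E`, with `t` rational, are ample, for every ample divisor `C` on
`X × X`. -/
def HasDiagonalBlowup (W : WeilCohomology.{u, v} ops) (Pol : ∀ X : 𝒱.Obj, X.Cycles → Prop)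
    (R : 𝒱.Obj → Prop) (X : 𝒱.Obj) : Prop :=
  ∃ (T F : 𝒱.Obj) (π : T ⟶ X.prod X) (j : F ⟶ T) (g : F ⟶ X),
    IsBlow W (diag X) π j g (X.dim - 1) ∧ R T ∧
      ∀ C, Pol (X.prod X) C → {t | Pol T (addMul (ops.pull π C) (exc ops j) t)}.Infinite

/-- There is a bundle `T = P(O ⊕ O ⊕ O(M))` of planes over `X`, with `ξ` the divisor of `O(1)`, such
that `T` is in `R`, the canonical divisor of `T` is in cohomology `q^*(can X + M) - 3 ξ`, and
infinitely many of the divisors `q^* D + t ξ`, with `t` rational, are ample, for every ample divisor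
`D` on `X`. -/
def HasPlaneBundle (W : WeilCohomology.{u, v} ops) (can : ∀ X : 𝒱.Obj, X.Cycles)
    (Pol : ∀ X : 𝒱.Obj, X.Cycles → Prop) (R : 𝒱.Obj → Prop) (X : 𝒱.Obj) (M : X.Cycles) : Prop :=
  ∃ (T : 𝒱.Obj) (q : T ⟶ X) (ξ : T.Cycles), IsPlane W q M ξ ∧ R T ∧
    SameClass W (can T) (addMul (ops.pull q (addMul (can X) M 1)) ξ (-3)) ∧
    ∀ D, Pol X D → {t | Pol T (addMul (ops.pull q D) ξ t)}.Infinite

/-- `V` is the centre, of codimension at least two, of a blow-up `T ⟶ X`, where `T` is in `R` and `X`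
and `T` have ample divisors. -/
def IsCentre (W : WeilCohomology.{u, v} ops) (Pol : ∀ X : 𝒱.Obj, X.Cycles → Prop)
    (R : 𝒱.Obj → Prop) (V : 𝒱.Obj) : Prop :=
  ∃ (X T F : 𝒱.Obj) (i : V ⟶ X) (π : T ⟶ X) (j : F ⟶ T) (g : F ⟶ V) (c : ℕ),
    1 ≤ c ∧ IsBlow W i π j g c ∧ R T ∧ (∃ D, Pol X D) ∧ ∃ D, Pol T D

/-- The properties of the class `R` of rational varieties which are used: `R` contains, with `X`,

* the product `X × P^m`;
* the blow-up of `X × X` along the diagonal (for `dim X ≥ 2`);
* the bundle `P(O ⊕ O ⊕ O(M))` of projective planes over `X`, for every divisor `M` on `X` with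
  integral coefficients;

and every variety `V` is the centre of a blow-up `T ⟶ X` of codimension at least two with `T` in `R`
(embed `V` in a projective space `X`). -/
structure IsRationalClass (W : WeilCohomology.{u, v} ops) (P : ℕ → 𝒱.Obj)
    (can : ∀ X : 𝒱.Obj, X.Cycles) (Pol : ∀ X : 𝒱.Obj, X.Cycles → Prop)
    (R : 𝒱.Obj → Prop) : Prop where
  space : ∀ X m, R X → R (X.prod (P m))
  diagonal : ∀ X, R X → 2 ≤ X.dim → HasDiagonalBlowup W Pol R X
  plane : ∀ X, R X → ∀ M, IsIntDiv X M → HasPlaneBundle W can Pol R X M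
  centre : ∀ V, (∃ D, Pol V D) → IsCentre W Pol R V

/-- The products of the class of the divisor `D` with the classes of the algebraic cycles of
codimension `m`. -/
def multiples (W : WeilCohomology.{u, v} ops) (X : 𝒱.Obj) (D : X.Cycles) (m : ℕ) :
    Set (W.H X) :=
  multiplesBy (W.cl X D) (algClasses W X m)

/-- The products of the class of the divisor `D` with the elements of the span over the coefficient
field of the classes of the algebraic cycles of codimension `m`. -/
def spanMultiples (W : WeilCohomology.{u, v} ops) (X : 𝒱.Obj) (D : X.Cycles) (m : ℕ) :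
    Set (W.H X) :=
  spanMultiplesBy W.K (W.cl X D) (algClasses W X m)

/-- The conjecture `A(X, D)` holds for all `(X, D)` in `Pol`. -/
def AllA (W : WeilCohomology.{u, v} ops) (Pol : ∀ X : 𝒱.Obj, X.Cycles → Prop) : Prop :=
  ∀ X D, Pol X D → LefschetzA W X D

/-- On every `X` of dimension `2 m + 1` the set of the products `D · z`, where `z` runs over the
algebraic classes of codimension `m`, does not depend on the ample divisor `D`. -/
def SameMultiples (W : WeilCohomology.{u, v} ops) (Pol : ∀ X : 𝒱.Obj, X.Cycles → Prop) : Prop :=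
  ∀ X D D' m, Pol X D → Pol X D' → X.dim = 2 * m + 1 → multiples W X D m = multiples W X D' m

/-- On every `X` of dimension `2 m + 1` the power `v ^ (m + 1)` of every divisor `v` is `D · z` for an
algebraic class `z` of codimension `m`, for every ample divisor `D`. -/
def DivisorPowers (W : WeilCohomology.{u, v} ops) (Pol : ∀ X : 𝒱.Obj, X.Cycles → Prop) : Prop :=
  ∀ X D v m, Pol X D → X.IsCyc 1 v → X.dim = 2 * m + 1 →
    W.cl X (dpow ops v (m + 1)) ∈ multiples W X D m

/-- On every `X` in `R` of dimension `2 m + 1` the power `(can X) ^ (m + 1)` of the canonical class is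
`D · x` for an `x` in the span, over the coefficient field of the cohomology, of the algebraic classes
of codimension `m`, for every ample divisor `D`. -/
def CanonicalPowers (W : WeilCohomology.{u, v} ops) (can : ∀ X : 𝒱.Obj, X.Cycles)
    (Pol : ∀ X : 𝒱.Obj, X.Cycles → Prop) (R : 𝒱.Obj → Prop) : Prop :=
  ∀ X D m, R X → Pol X D → X.dim = 2 * m + 1 →
    W.cl X (dpow ops (can X) (m + 1)) ∈ spanMultiples W X D m

end Pool.Agent.Y101.Can
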