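import Pool.Agent.Y101.CanBDefs

/-!
# Generic sections of the squares `X × X`: definitions
-/

open CategoryTheory AlgebraicGeometry

universe u v

namespace Pool.Agent.Y101.Can

section Alg

variable {K : Type*} [Field K] {A B : Type*} [Ring A] [Algebra K A] [Ring B] [Algebra K B]

/-- Weak Lefschetz for the restriction `f`: every element of `grB j`, for `j < n`, is the image under
`f` of an element of `grA j`. -/
def LiftsBelow (grA : ℕ → Submodule K A) (grB : ℕ → Submodule K B) (n : ℕ)
    (f : A →ₐ[K] B) : Prop :=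
  ∀ j < n, ∀ b ∈ grB j, ∃ a ∈ grA j, f a = b

/-- Some nonzero element of `M` is killed by the push-forward `p`: there is nonzero vanishing
cohomology. -/
def HasVanishing (M : Submodule K B) (p : B →ₗ[K] A) : Prop :=
  ∃ x ∈ M, p x = 0 ∧ x ≠ 0

/-- The operator `T` acts as a scalar on the vanishing cohomology, which is the kernel of the
push-forward `p` on `M`, and it maps the image of the restriction `f` to itself. -/
def ScalarPreserving (M : Submodule K B) (p : B →ₗ[K] A) (f : A →ₐ[K] B)
    (T : B →ₗ[K] B) : Prop :=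
  (∃ c : K, ∀ x ∈ M, p x = 0 → T x = c • x) ∧ ∀ a, ∃ b, T (f a) = f b

/-- The operator `T` is the identity on the pieces `gr j` with `p j`, and zero on the others. -/
def ProjectsOn {V : Type*} [AddCommGroup V] [Module K V] (gr : ℕ → Submodule K V)
    (p : ℕ → Prop) (T : V →ₗ[K] V) : Prop :=
  ∀ j, ∀ a ∈ gr j, (p j → T a = a) ∧ (¬ p j → T a = 0)

end Alg

open Pool.Agent.H914 VarClass Obj WeilCohomology

variable {k : Type u} [Field k] {𝒱 : VarClass k} {ops : CycleOps 𝒱}

/-- The morphism `i × i` from `Y × Y` to `Z × Z`. -/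
noncomputable def prodMap {Y Z : 𝒱.Obj} (i : Y ⟶ Z) : Y.prod Y ⟶ Z.prod Z :=
  Obj.lift (fst Y Y ≫ i) (snd Y Y ≫ i)

/-- The action of the cycle `z` on `Y × Y` on the cohomology of `Y`. -/
noncomputable def act (W : WeilCohomology.{u, v} ops) {Y : 𝒱.Obj} (z : (Y.prod Y).Cycles) :
    W.H Y →ₗ[W.K] W.H Y :=
  W.corr (W.cl (Y.prod Y) z)

/-- The projector onto the sum of the `H^j(X)` with `p j` is induced by an algebraic cycle on
`X × X`. -/
def AlgProjector (W : WeilCohomology.{u, v} ops) (X : 𝒱.Obj) (p : ℕ → Prop) : Prop :=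
  ∃ z, (X.prod X).IsCyc X.dim z ∧ ProjectsOn (W.gr X) p (act W z)

/-- The sign conjecture for `X`: the projector onto the even cohomology of `X` is induced by an
algebraic cycle on `X × X`. -/
def SignConj (W : WeilCohomology.{u, v} ops) (X : 𝒱.Obj) : Prop := AlgProjector W X Even

/-- The cycle `z` on `Y × Y` has the class of `(i × i)^* w + c Δ`, where `w` is a cycle of codimension
`dim Y` on `Z × Z`, `c` is rational and `Δ` is the diagonal. -/
def Restricts (W : WeilCohomology.{u, v} ops) {Y Z : 𝒱.Obj} (i : Y ⟶ Z)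
    (z : (Y.prod Y).Cycles) : Prop :=
  ∃ (w : (Z.prod Z).Cycles) (c : ℚ), (Z.prod Z).IsCyc Y.dim w ∧
    SameClass W z (addMul (ops.pull (prodMap i) w) (exc ops (diag Y)) c)

/-- `i : Y ⟶ Z` behaves like the geometric generic member of the linear system of the divisor `E`
on `Z`: the class of `Y` on `Z` is the class of `E`, the weak Lefschetz theorem holds, there is
nonzero vanishing cohomology, and every correspondence of degree zero on `Y` which acts as a scalar
on the vanishing cohomology and preserves the restrictions from `Z` is, up to homological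
equivalence, the sum of a multiple of the diagonal and of the restriction of a cycle from
`Z × Z`. -/
structure IsSection (W : WeilCohomology.{u, v} ops) {Y Z : 𝒱.Obj} (i : Y ⟶ Z)
    (E : Z.Cycles) : Prop where
  dim : Z.dim = Y.dim + 1
  cls : SameClass W (exc ops i) E
  lef : LiftsBelow (W.gr Z) (W.gr Y) Y.dim (W.map i)
  van : HasVanishing (W.gr Y Y.dim) (W.push i)
  restr : ∀ z, (Y.prod Y).IsCyc Y.dim z →
    ScalarPreserving (W.gr Y Y.dim) (W.push i) (W.map i) (act W z) →
    Restricts W i z

/-- The class of varieties contains a curve, and every variety `X` has an ample divisor `D` such that,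
if `dim X ≥ 1`, the product `X × X` has a generic section in the class of `D × X + X × D`. -/
def HasSquareSections (W : WeilCohomology.{u, v} ops)
    (Pol : ∀ X : 𝒱.Obj, X.Cycles → Prop) : Prop :=
  (∃ C : 𝒱.Obj, C.dim = 1) ∧ ∀ X : 𝒱.Obj, ∃ D, Pol X D ∧
    (1 ≤ X.dim → ∃ (Y : 𝒱.Obj) (i : Y ⟶ X.prod X), IsSection W i (boxDiv ops D D 1))

end Pool.Agent.Y101.Can
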