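import Pool.Agent.Y101.CanBMain
import Pool.Agent.Y101.CanSignDefs
import Pool.Agent.Y99.GH.Six

/-!
# The sign conjecture and the canonical classes
-/

open CategoryTheory AlgebraicGeometry

universe u v

namespace Pool.Agent.Y101.Can

open Pool.Agent.H914 Pool.Agent.H447 VarClass Obj WeilCohomology

variable {k : Type u} [Field k] {𝒱 : VarClass k} {ops : CycleOps 𝒱}
  {W : WeilCohomology.{u, v} ops} {P : ℕ → 𝒱.Obj} {h : ∀ m, (P m).Cycles}
  {can : ∀ X : 𝒱.Obj, X.Cycles} {Pol : ∀ X : 𝒱.Obj, X.Cycles → Prop} {R : 𝒱.Obj → Prop}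

lemma algProjector_iff {X : 𝒱.Obj} {p : ℕ → Prop} : AlgProjector W X p ↔
    ∃ z, (X.prod X).IsCyc X.dim z ∧
      Pool.Agent.Y99.GH.ProjectsOn (W.gr X) p (Pool.Agent.Y99.GH.act W z) := Iff.rfl

lemma signConj_iff' {X : 𝒱.Obj} : SignConj W X ↔ Pool.Agent.Y99.GH.SignConj W X := Iff.rfl

lemma kunneth_iff' {X : 𝒱.Obj} {j : ℕ} :
    AlgProjector W X (fun l => l = j) ↔ Pool.Agent.Y99.GH.KunnethOne W X j := Iff.rfl

/-- The conjecture B for one divisor implies the sign conjecture. -/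
lemma sign_of_B {V : 𝒱.Obj} {D : V.Cycles} (hD : Pool.Agent.W550.B.IsLefschetzDivisor W V D)
    (hB : LefschetzB W V D) : SignConj W V := by
  rw [signConj_iff', Pool.Agent.Y99.GH.signConj_iff]
  exact Pool.Agent.Y99.GH.sign_of_kunneth fun j =>
    Pool.Agent.Y99.GH.kunneth_of_lefschetzB hD.1 hD.2 hB j

lemma allB_iff_pol (hPol : IsPolarisation W P h Pol) (hA : ∀ X, ∃ D, Pol X D) :
    Pool.Agent.Y99.GH.AllB W ↔ AllB W Pol := by
  constructor
  · intro hB X D hD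
    exact hB X D ⟨hPol.div _ _ hD, hPol.hard _ _ hD⟩
  · intro hB X
    obtain ⟨D, hD⟩ := hA X
    exact (Pool.Agent.Y99.GH.allB_iff ⟨hPol.div _ _ hD, hPol.hard _ _ hD⟩).2 (hB X D hD)

/-- The conjecture A implies the divisibility of the powers of the divisors. -/
lemma canon_of_A {X : 𝒱.Obj} {D v : X.Cycles} {m : ℕ} (hv : X.IsCyc 1 v)
    (hdim : X.dim = 2 * m + 1) (hA : LefschetzA W X D) :
    W.cl X (dpow ops v (m + 1)) ∈ multiples W X D m := by
  have h1 : W.cl X v ∈ algClasses W X 1 := ⟨v, hv, rfl⟩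
  obtain ⟨z, hz, hz'⟩ := alg_pow h1 (m + 1)
  obtain ⟨z', hz1, hz2⟩ := hA m (by omega) z (by rwa [show X.dim - m = m + 1 by omega])
  rw [show X.dim - 2 * m = 1 by omega] at hz2
  refine ⟨_, ⟨z', hz1, rfl⟩, ?_⟩
  rw [← W.cl_mul, cl_dpow, ← hz', ← hz2]
  rfl

lemma boxDiv_sum {X : 𝒱.Obj} (D : X.Cycles) :
    boxDiv ops D D 1 = Pool.Agent.Y99.GH.sumDivisor ops D := by
  simp only [boxDiv, addMul, Pool.Agent.Y99.GH.sumDivisor, one_smul]

/-- The two definitions of a generic section agree. -/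
lemma IsSection.generic {Y Z : 𝒱.Obj} {i : Y ⟶ Z} {E : Z.Cycles} (h : IsSection W i E) :
    Pool.Agent.Y99.GH.IsGenericSection W i E where
  dim := h.dim
  cls := h.cls
  lef := h.lef
  van := by
    obtain ⟨x, hx, hx1, hx2⟩ := h.van
    exact (Submodule.ne_bot_iff _).2 ⟨x, ⟨hx, LinearMap.mem_ker.2 hx1⟩, hx2⟩
  restr := by
    intro z hz h1 h2
    obtain ⟨c, hc⟩ := h1
    obtain ⟨w, c', hw, hw'⟩ := h.restr z hz
      ⟨⟨c, fun x hx hx' => hc x ⟨hx, LinearMap.mem_ker.2 hx'⟩⟩, h2⟩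
    refine ⟨c', w, hw, ?_⟩
    rw [Pool.Agent.Y99.GH.diagPlus, add_comm]
    exact hw'

/-- The sign conjecture for a generic section of `X × X` implies the divisibility of the power of the
canonical class of `X`. -/
lemma canon_of_sign (hPol : IsPolarisation W P h Pol) (hcan : IsCanonical W P h can)
    {X Y : 𝒱.Obj} {D : X.Cycles} {m : ℕ} (hD : Pol X D) (hdim : X.dim = 2 * m + 1)
    {i : Y ⟶ X.prod X} (hY : IsSection W i (boxDiv ops D D 1))
    (hs : SignConj W Y) : W.cl X (dpow ops (can X) (m + 1)) ∈ multiples W X D m := by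
  have hD' : Pool.Agent.W550.B.IsLefschetzDivisor W X D := ⟨hPol.div _ _ hD, hPol.hard _ _ hD⟩
  have hY' := hY.generic
  rw [boxDiv_sum] at hY'
  have h1 : Pool.Agent.Y99.GH.StandardB W X :=
    ((Pool.Agent.Y99.GH.main_one hD' hY').out 0 3).2
      (Pool.Agent.Y99.GH.signConj_iff.1 (signConj_iff'.1 hs))
  exact canon_of_A (hcan.int X).1 hdim (lefschetzA_of_B hD'.1 hD'.2 (h1 D hD'))

/-- **The sign conjecture for all varieties and the canonical classes of the rational ones.** -/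
theorem canonicalSign_tfae (hW : HasSquareSections W Pol)
    (hP : ∀ m, IsSpace W (P m) (h m) m) (hPol : IsPolarisation W P h Pol)
    (hcan : IsCanonical W P h can) (hR : IsRationalClass W P can Pol R) :
    List.TFAE [∀ X, SignConj W X, ∀ X j, AlgProjector W X (fun l => l = j), AllB W Pol,
      ∀ m, CanonicalPowersIn W can Pol R m] := by
  have hW' : Pool.Agent.Y99.GH.HasSections W := by
    refine ⟨hW.1, fun X hX => ?_⟩
    obtain ⟨D, hD, hD'⟩ := hW.2 X
    obtain ⟨Y, i, hi⟩ := hD' hX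
    refine ⟨D, ⟨hPol.div _ _ hD, hPol.hard _ _ hD⟩, Y, i, ?_⟩
    have := hi.generic
    rwa [boxDiv_sum] at this
  have key := (Pool.Agent.Y99.GH.main_four hW').1
  have e1 : Pool.Agent.Y99.GH.AllC W ↔ Pool.Agent.Y99.GH.AllSign W := key.out 0 1
  have e2 : Pool.Agent.Y99.GH.AllC W ↔ Pool.Agent.Y99.GH.AllB W := key.out 0 2
  have e3 : AllB W Pol ↔ CanonicalPowers W can Pol R :=
    (canonicalB_tfae hP hPol hcan hR).out 0 4
  have e4 := allB_iff_pol hPol fun X => (hW.2 X).imp fun _ h => h.1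
  have e5 : (∀ X, SignConj W X) ↔ Pool.Agent.Y99.GH.AllSign W := Iff.rfl
  have e6 : (∀ X j, AlgProjector W X (fun l => l = j)) ↔ Pool.Agent.Y99.GH.AllC W := Iff.rfl
  have e7 : CanonicalPowers W can Pol R ↔ ∀ m, CanonicalPowersIn W can Pol R m :=
    ⟨fun hK m X D h1 h2 h3 => hK X D m h1 h2 h3, fun hK X D m h1 h2 h3 => hK m X D h1 h2 h3⟩
  tfae_have 2 ↔ 1 := e6.trans (e1.trans e5.symm)
  tfae_have 2 ↔ 3 := e6.trans (e2.trans e4)
  tfae_have 3 ↔ 4 := e3.trans e7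
  tfae_finish

end Pool.Agent.Y101.Can
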