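import Pool.Agent.H914R2.KDefs2
import Pool.Agent.H914R2.HodgeDefs

/-!
# Blow-ups and projective bundles in a Weil cohomology theory: definitions
-/

open CategoryTheory AlgebraicGeometry

universe u v

namespace Pool.Agent.Y101

open Pool.Agent.H914 VarClass Obj WeilCohomology

variable {k : Type u} [Field k] {𝒱 : VarClass k} {ops : CycleOps 𝒱}

/-- The image `j_*[F]` of the fundamental cycle of `F`: the exceptional divisor. -/
noncomputable def exc (ops : CycleOps 𝒱) {F T : 𝒱.Obj} (j : F ⟶ T) : T.Cycles :=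
  ops.push j F.V.fundCycle

/-- The power `ζ ^ c` of the restriction `ζ` to `F` of the class of the exceptional divisor. -/
noncomputable def zetaPow (W : WeilCohomology.{u, v} ops) {F T : 𝒱.Obj} (j : F ⟶ T) (c : ℕ) :
    W.H F :=
  W.map j (W.cl T (exc ops j)) ^ c

/-- The element `j_*(g^* y · ζ ^ r)` of `H(T)`. -/
noncomputable def excTerm (W : WeilCohomology.{u, v} ops) {Z T F : 𝒱.Obj} (j : F ⟶ T)
    (g : F ⟶ Z) (r : ℕ) (y : W.H Z) : W.H T :=
  W.push j (W.map g y * zetaPow W j r)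

/-- The element `π^* x + ∑ r < c, j_*(g^* y_r · ζ ^ r)` of `H(T)` with the coordinates
`a = (x, y_0, …, y_(c - 1))`. -/
noncomputable def blowSum (W : WeilCohomology.{u, v} ops) {X Z T F : 𝒱.Obj} (π : T ⟶ X)
    (j : F ⟶ T) (g : F ⟶ Z) (c : ℕ) (a : W.H X × (Fin c → W.H Z)) : W.H T :=
  W.map π a.1 + ∑ r : Fin c, excTerm W j g r (a.2 r)

/-- The push-forward of `ζ ^ c` under `g : F ⟶ Z` is `(-1) ^ c`. -/
def TopIsSign (W : WeilCohomology.{u, v} ops) {Z T F : 𝒱.Obj} (j : F ⟶ T) (g : F ⟶ Z)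
    (c : ℕ) : Prop :=
  W.push g (zetaPow W j c) = (-1) ^ c

/-- The morphism `π : T ⟶ X` looks like the blow-up of `X` along the centre `i : Z ⟶ X` of
codimension `c + 1`, with the exceptional divisor `j : F ⟶ T` over `g : F ⟶ Z`: the degree of `π` is
one, the restriction `ζ` of the exceptional divisor to `F` is the class of `O(-1)` on a bundle of
projective spaces of dimension `c` over `Z` (so that `g_*(ζ ^ c) = (-1) ^ c`), and
`H(T) = π^* H(X) ⊕ ⨁ j_*(g^* H(Z) ζ ^ r)`, the sum over `r < c`. -/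
structure IsBlowup (W : WeilCohomology.{u, v} ops) {X Z T F : 𝒱.Obj} (i : Z ⟶ X) (π : T ⟶ X)
    (j : F ⟶ T) (g : F ⟶ Z) (c : ℕ) : Prop where
  comm : j ≫ π = g ≫ i
  dimX : X.dim = Z.dim + c + 1
  dimT : T.dim = X.dim
  dimF : T.dim = F.dim + 1
  birational : W.cl X (ops.push π T.V.fundCycle) = W.cl X X.V.fundCycle
  top : TopIsSign W j g c
  basis : Function.Bijective (blowSum W π j g c)

/-- The element `q^* a_0 + q^* a_1 · ξ + q^* a_2 · ξ ^ 2` of `H(T)`. -/
noncomputable def planeSum (W : WeilCohomology.{u, v} ops) {X T : 𝒱.Obj} (q : T ⟶ X)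
    (ξ : T.Cycles) (a : Fin 3 → W.H X) : W.H T :=
  ∑ r, W.map q (a r) * W.cl T ξ ^ (r : ℕ)

/-- The morphism `q : T ⟶ X` with the divisor `ξ` on `T` looks like the bundle of projective
planes `P(O ⊕ O ⊕ O(M))` over `X` (the bundle of the quotients of rank one) with the divisor `ξ` of
`O(1)`: `H(T)` is free over `H(X)` on `1, ξ, ξ ^ 2`, and `ξ · ξ · (ξ - q^* M) = 0`. -/
structure IsPlaneBundle (W : WeilCohomology.{u, v} ops) {X T : 𝒱.Obj} (q : T ⟶ X)
    (M : X.Cycles) (ξ : T.Cycles) : Prop where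
  dim : T.dim = X.dim + 2
  div : T.IsCyc 1 ξ
  basis : Function.Bijective (planeSum W q ξ)
  rel : W.cl T (ops.mul ξ (ops.mul ξ (ξ - ops.pull q M))) = 0

/-- The divisor `π^* C - t E` on a blow-up `π : T ⟶ X` with exceptional divisor `E = j_*[F]`. -/
noncomputable def blowDiv (ops : CycleOps 𝒱) {X T F : 𝒱.Obj} (π : T ⟶ X) (j : F ⟶ T)
    (C : X.Cycles) (t : ℚ) : T.Cycles :=
  ops.pull π C - t • exc ops j

/-- The divisor `D × V + q V × D` on `V × V`. -/
noncomputable def mixDiv (ops : CycleOps 𝒱) {V : 𝒱.Obj} (D : V.Cycles) (q : ℚ) :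
    (V.prod V).Cycles :=
  ops.pull (fst V V) D + q • ops.pull (snd V V) D

/-- The multiples of the class of the divisor `D` by the elements of the span (over the coefficient
field) of the algebraic classes of codimension `l`. -/
noncomputable def divBy (W : WeilCohomology.{u, v} ops) (X : 𝒱.Obj) (D : X.Cycles) (l : ℤ) :
    Submodule W.K (W.H X) :=
  (spanCycles W X l).map (LinearMap.mulLeft W.K (W.cl X D))

/-- `z` is a divisor with integral coefficients. -/
def IsIntDiv (X : 𝒱.Obj) (z : X.Cycles) : Prop :=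
  X.IsCyc 1 z ∧ ∀ x, ∃ n : ℤ, X.V.coeff z x = n

end Pool.Agent.Y101
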