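import Pool.Agent.Y101.BunL
import Pool.Agent.Y101.ProdP

/-!
# The canonical class of a bundle of projective planes
-/

open CategoryTheory AlgebraicGeometry Finset Polynomial

universe u v

namespace Pool.Agent.Y101

open Pool.Agent.H914 Pool.Agent.H447 Pool.Agent.W534 Pool.Agent.W498.Dom VarClass Obj
  WeilCohomology Pool.Agent.TH720.LB

variable {k : Type u} [Field k] {𝒱 : VarClass k} {ops : CycleOps 𝒱}
  {W : WeilCohomology.{u, v} ops} {X T P : 𝒱.Obj} {q : T ⟶ X} {ξ : T.Cycles} {M : X.Cycles}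

lemma mem_divBy {D : X.Cycles} {l : ℤ} {a : W.H X} :
    a ∈ divBy W X D l ↔ ∃ y ∈ spanCycles W X l, W.cl X D * y = a := Iff.rfl

lemma IsPlaneBundle.bun (h : IsPlaneBundle W q M ξ) : IsBun W q ξ 2 := ⟨h.dim, h.div, h.basis⟩

/-- The coefficient of `ξ ^ 2`. -/
noncomputable def co2 (h : IsPlaneBundle W q M ξ) : W.H T →ₗ[W.K] W.H X :=
  LinearMap.proj (2 : Fin 3) ∘ₗ (bcoords h.bun).symm.toLinearMap

section

variable (h : IsPlaneBundle W q M ξ)
include h

lemma co2_bcoords (a : Fin 3 → W.H X) : co2 h (bcoords h.bun a) = a 2 := by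
  simp [co2]

lemma co2_mul (x : W.H X) (y : W.H T) : co2 h (W.map q x * y) = x * co2 h y := by
  obtain ⟨a, rfl⟩ := (bcoords h.bun).surjective y
  have h1 : W.map q x * bcoords h.bun a = bcoords h.bun (fun s => x * a s) := by
    rw [bcoords_apply, bcoords_apply, Finset.mul_sum]
    apply Finset.sum_congr rfl
    intro s _
    rw [sig_apply, sig_apply, map_mul, mul_assoc]
  rw [h1, co2_bcoords, co2_bcoords]

lemma xi_pow_rel (hM : X.IsCyc 1 M) (i : ℕ) :
    W.cl T ξ ^ (i + 2) = W.map q (W.cl X M ^ i) * W.cl T ξ ^ 2 := by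
  induction i with
  | zero => simp
  | succ i ih =>
    have h1 := h.rel
    rw [W.cl_mul, W.cl_mul, map_sub, W.cl_pull, ← mul_assoc, ← pow_two, mul_sub, sub_eq_zero,
      ← pow_succ] at h1
    have h2 : W.map q (W.cl X M) ∈ W.gr T (2 * 1) := W.map_mem _ (W.cl_mem hM)
    rw [show i + 1 + 2 = (i + 2) + 1 by ring, pow_succ, ih, mul_assoc, ← pow_succ, h1,
      ← W.even_comm h2, ← mul_assoc, ← map_mul, ← pow_succ]

lemma co2_xi_low {i : ℕ} (hi : i < 2) : co2 h (W.cl T ξ ^ i) = 0 := by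
  have h1 : W.cl T ξ ^ i = bcoords h.bun (Pi.single (⟨i, by omega⟩ : Fin 3) 1) := by
    rw [bcoords_apply, Finset.sum_eq_single (⟨i, by omega⟩ : Fin 3)]
    · simp [sig_apply]
    · intro s _ hs
      simp [sig_apply, hs]
    · intro hr; exact absurd (Finset.mem_univ _) hr
  rw [h1, co2_bcoords, Pi.single_eq_of_ne]
  intro h2
  have := congrArg Fin.val h2
  simp at this
  omega

lemma co2_xi (hM : X.IsCyc 1 M) (i : ℕ) : co2 h (W.cl T ξ ^ (i + 2)) = W.cl X M ^ i := by
  have h1 : W.cl T ξ ^ 2 = bcoords h.bun (Pi.single (2 : Fin 3) 1) := by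
    rw [bcoords_apply, Finset.sum_eq_single (2 : Fin 3)]
    · simp [sig_apply]
    · intro s _ hs
      simp [sig_apply, hs]
    · intro hr; exact absurd (Finset.mem_univ _) hr
  rw [xi_pow_rel h hM, co2_mul, h1, co2_bcoords, Pi.single_eq_same, mul_one]

/-- The coefficient of `ξ ^ 2` in the powers of `γ - 3 ξ`. -/
lemma co2_pow (hM : X.IsCyc 1 M) (γ : W.H X) (p : ℕ) :
    co2 h ((W.map q γ - (3 : W.K) • W.cl T ξ) ^ (p + 2)) =
      ∑ i ∈ range (p + 1), (((p + 2).choose (i + 2) : W.K) * (-3) ^ (i + 2)) •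
        (γ ^ (p - i) * W.cl X M ^ i) := by
  have hc0 : Commute (W.cl T ξ) (W.map q γ) := W.even_comm (xi_mem h.bun) _
  have hc : Commute ((-3 : W.K) • W.cl T ξ) (W.map q γ) := hc0.smul_left _
  have e0 : W.map q γ - (3 : W.K) • W.cl T ξ = (-3 : W.K) • W.cl T ξ + W.map q γ := by
    rw [neg_smul]; abel
  have hterm : ∀ i, co2 h (((-3 : W.K) • W.cl T ξ) ^ i * W.map q γ ^ (p + 2 - i) *
      ((p + 2).choose i : W.H T)) = (((p + 2).choose i : W.K) * (-3) ^ i) •
        (γ ^ (p + 2 - i) * co2 h (W.cl T ξ ^ i)) := by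
    intro i
    have e1 : ((-3 : W.K) • W.cl T ξ) ^ i * W.map q γ ^ (p + 2 - i) *
        ((p + 2).choose i : W.H T) = (((p + 2).choose i : W.K) * (-3) ^ i) •
          (W.map q (γ ^ (p + 2 - i)) * W.cl T ξ ^ i) := by
      rw [_root_.smul_pow, ← (Nat.cast_commute ((p + 2).choose i) _).eq, ← nsmul_eq_mul,
        ← Nat.cast_smul_eq_nsmul W.K, smul_mul_assoc, smul_smul, map_pow,
        W.even_comm (xi_pow_mem h.bun i)]
    rw [e1, map_smul, co2_mul]
  rw [e0, hc.add_pow, map_sum, Finset.sum_congr rfl (fun i _ => hterm i),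
    Finset.sum_range_succ', Finset.sum_range_succ']
  rw [co2_xi_low h (i := 0) (by omega), co2_xi_low h (i := 0 + 1) (by omega), mul_zero, mul_zero,
    smul_zero, smul_zero, add_zero, add_zero]
  apply Finset.sum_congr rfl
  intro i _
  rw [show i + 1 + 1 = i + 2 by ring, co2_xi h hM, show p + 2 - (i + 2) = p - i by omega]

/-- **The step.** If the powers of the canonical class on `T × P^2` are divisible by the
polarisations, then the coefficient of `ξ ^ 2` in the power of the canonical class of `T` is divisible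
by the polarisation of `X`. -/
theorem plane_step {hh : P.Cycles} (hP : IsProjLike W P hh) (hP2 : P.dim = 2)
    {D : X.Cycles} (hD : X.IsCyc 1 D) (hHL : HardLefschetz W X D) {p : ℕ} (hp : 1 ≤ p)
    (hdim : X.dim + 1 = 2 * p) {κ : W.H T} (hκ : κ ∈ spanCycles W T (1 : ℕ))
    {S : Set ℚ} (hS : S.Infinite)
    (hw : ∀ t ∈ S, ∃ x ∈ spanCycles W (T.prod P) (p + 1 : ℕ),
      W.cl _ (sumDiv ops (ops.pull q D + t • ξ) hh) * x =
        (W.map (fst T P) κ - (3 : W.K) • W.map (snd T P) (W.cl P hh)) ^ (p + 2)) :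
    co2 h (κ ^ (p + 2)) ∈ divBy W X D ((p : ℤ) - 1) := by
  set u := W.cl X D with hu
  have hD2 : u ∈ W.gr X (2 * 1) := W.cl_mem hD
  set uT : W.K → W.H T := fun t => W.map q u + t • W.cl T ξ with huT
  have huT2 : ∀ t, uT t ∈ W.gr T (2 * 1) := fun t =>
    Submodule.add_mem _ (W.map_mem q hD2) (Submodule.smul_mem _ _ (xi_mem h.bun))
  -- the right hand side
  set co : ℕ → W.K := fun l => ((p + 2).choose l : W.K) * (-3) ^ l with hco
  set R : W.K → W.H T := fun t => ∑ l ∈ range 3, co l • ((-uT t) ^ l * κ ^ (p + 2 - l)) with hR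
  have hRv : PVec R := by
    apply PVec.sum
    intro l _
    have h1 : PFam (fun t : W.K => (LinearMap.mulLeft W.K (-uT t) : Module.End W.K (W.H T))) := by
      have h2 : (fun t : W.K => (LinearMap.mulLeft W.K (-uT t) : Module.End W.K (W.H T))) =
          fun t => LinearMap.mulLeft W.K (-(W.map q u)) -
            (Polynomial.X : W.K[X]).eval t • LinearMap.mulLeft W.K (W.cl T ξ) := by
        funext t
        apply LinearMap.ext
        intro a
        simp only [huT, LinearMap.mulLeft_apply, LinearMap.sub_apply, LinearMap.smul_apply,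
          eval_X, neg_add, add_mul, neg_mul, smul_mul_assoc]
        abel
      rw [h2]
      exact (PFam.const _).sub ((PFam.const _).smul _)
    have h3 := ((h1.pow l) (κ ^ (p + 2 - l))).csmul (co l)
    have h4 : (fun t : W.K => co l • ((LinearMap.mulLeft W.K (-uT t) : Module.End W.K (W.H T)) ^ l)
        (κ ^ (p + 2 - l))) = fun t => co l • ((-uT t) ^ l * κ ^ (p + 2 - l)) := by
      funext t
      rw [LinearMap.pow_mulLeft, LinearMap.mulLeft_apply]
    rw [h4] at h3
    exact h3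
  set ρ : W.K → Fin 3 → W.H X := fun t => (bcoords h.bun).symm (R t) with hρ
  have hρv : PVec ρ := hRv.map (bcoords h.bun).symm.toLinearMap
  set b : W.K → Fin 3 → W.H X := fun t => ∑ s : Fin 3,
    ((Polynomial.X : W.K[X]) ^ (2 - (s : ℕ))).eval t • (LinearMap.single W.K (fun _ => W.H X) s ∘ₗ
      LinearMap.proj s) (ρ t) with hb
  have hbv : PVec b := PVec.sum fun s _ => (hρv.map _).smul _
  have hbs : ∀ t (s : Fin 3), b t s = t ^ (2 - (s : ℕ)) • ρ t s := by
    intro t s
    simp only [hb, Finset.sum_apply, Pi.smul_apply, eval_pow, eval_X, LinearMap.comp_apply,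
      LinearMap.proj_apply, LinearMap.single_apply]
    rw [Finset.sum_eq_single s]
    · rw [Pi.single_eq_same]
    · intro s' _ hs'
      rw [Pi.single_eq_of_ne (Ne.symm hs'), smul_zero]
    · intro hr; exact absurd (Finset.mem_univ _) hr
  have hTh : ∀ t, pTh W q ξ 2 t (b t) = t ^ 2 • R t := by
    intro t
    have h1 : bcoords h.bun (ρ t) = R t := LinearEquiv.apply_symm_apply _ _
    rw [pTh_apply, ← h1, bcoords_apply, Finset.smul_sum]
    apply Finset.sum_congr rfl
    intro s _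
    rw [hbs, map_smul, smul_smul, ← pow_add, show (s : ℕ) + (2 - (s : ℕ)) = 2 by omega]
  obtain ⟨a, ha, ha0⟩ := bun_limit h.bun hD hHL (r := p - 1) (n := 3) (by
    have := h.dim
    omega) hbv hS (by
      intro t ht _
      obtain ⟨x, hx, hxx⟩ := hw t ht
      have h1 : W.cl _ (sumDiv ops (ops.pull q D + t • ξ) hh) =
          W.map (fst T P) (uT t) + W.map (snd T P) (W.cl P hh) := by
        rw [sumDiv, map_add, W.cl_pull, W.cl_pull, map_add, W.cl_pull, cl_smul]
      have h2 : W.map (fst T P) κ - (3 : W.K) • W.map (snd T P) (W.cl P hh) =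
          (-3 : W.K) • W.map (snd T P) (W.cl P hh) + W.map (fst T P) κ := by
        rw [neg_smul]; abel
      rw [h1, h2] at hxx
      have h3 := prod_div hP (huT2 t) κ (-3) (p + 2) hxx
      rw [hP2] at h3
      have h4 : (-uT (t : W.K)) ^ (2 + 1) = -(uT (t : W.K) ^ 3) := by
        rw [show 2 + 1 = 3 from rfl, Odd.neg_pow (by decide)]
      rw [h4, neg_mul, neg_inj] at h3
      refine ⟨(t : W.K) ^ 2 • W.push (fst T P) x, Submodule.smul_mem _ _ (ka_push (fst T P) ?_ hx),
        ?_⟩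
      · rw [dim_prod, hP2]; omega
      · rw [hTh, mul_smul_comm, h3])
  -- the third coordinate
  have e0 : ∀ (c : Fin 3 → W.H X), (pM0 W X 2 u c) 0 = u * c 0 := by
    intro c
    simp [pM0, mapF_apply, shiftF_apply]
  have e1 : ∀ (c : Fin 3 → W.H X), (pM0 W X 2 u c) 1 = u * c 1 + c 0 := by
    intro c
    simp [pM0, mapF_apply, shiftF_apply]
  have e2 : ∀ (c : Fin 3 → W.H X), (pM0 W X 2 u c) 2 = u * c 2 + c 1 := by
    intro c
    simp [pM0, mapF_apply, shiftF_apply]
  have h5 := congrFun ha0 2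
  have h6 : ((pM0 W X 2 u) ^ 3) a 2 = u * (u * (u * a 2) + (3 : W.K) • (u * a 1) +
      (3 : W.K) • a 0) := by
    rw [show (pM0 W X 2 u) ^ 3 = pM0 W X 2 u * (pM0 W X 2 u * pM0 W X 2 u) by
      rw [pow_succ', pow_two], Module.End.mul_apply, Module.End.mul_apply]
    simp only [e0, e1, e2, mul_add, mul_smul_comm]
    module
  rw [h6, hbs] at h5
  have h7 : (0 : W.K) ^ (2 - ((2 : Fin 3) : ℕ)) = 1 := by simp
  rw [h7, one_smul] at h5
  -- the value at zero
  have h8 : ρ 0 2 = co2 h (R 0) := rfl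
  have hu0 : uT 0 = W.map q u := by
    simp [huT]
  have h9 : co2 h (R 0) = co2 h (κ ^ (p + 2)) + u * (-(co 1 • co2 h (κ ^ (p + 1))) +
      co 2 • (u * co2 h (κ ^ p))) := by
    simp only [hR]
    rw [hu0, Finset.sum_range_succ, Finset.sum_range_succ, Finset.sum_range_one, map_add, map_add,
      map_smul, map_smul, map_smul, ← map_neg, ← map_pow, ← map_pow, ← map_pow, co2_mul, co2_mul,
      co2_mul]
    have hco0 : co 0 = 1 := by simp [hco]
    rw [hco0, one_smul, pow_zero, one_mul, pow_one, show p + 2 - 0 = p + 2 by omega,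
      show p + 2 - 1 = p + 1 by omega, show p + 2 - 2 = p by omega, pow_two (-u), neg_mul_neg,
      mul_add, mul_neg, mul_smul_comm, mul_smul_comm, neg_mul, smul_neg, mul_assoc]
    abel
  rw [h8, h9] at h5
  have hu1 : u ∈ spanCycles W X (1 : ℕ) := ka_gen hD
  have hκ' : ∀ l, κ ^ l ∈ spanCycles W T (l : ℕ) := fun l => ka_pow hκ l
  have hco2 : ∀ l : ℕ, co2 h (κ ^ l) ∈ spanCycles W X ((l : ℤ) - 2) := by
    intro l
    have h1 : bcoords h.bun ((bcoords h.bun).symm (κ ^ l)) ∈ spanCycles W T (l : ℕ) := by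
      rw [LinearEquiv.apply_symm_apply]
      exact hκ' l
    exact coords_ka h.bun h1 2
  rw [mem_divBy]
  refine ⟨u * (u * a 2) + (3 : W.K) • (u * a 1) + (3 : W.K) • a 0 -
    (-(co 1 • co2 h (κ ^ (p + 1))) + co 2 • (u * co2 h (κ ^ p))), ?_, ?_⟩
  · have a0 := ha 0
    have a1 := ha 1
    have a2 := ha 2
    have f0 : (((0 : Fin 3) : ℕ) : ℤ) = 0 := rfl
    have f1 : (((1 : Fin 3) : ℕ) : ℤ) = 1 := rfl
    have f2 : (((2 : Fin 3) : ℕ) : ℤ) = 2 := rfl
    refine Submodule.sub_mem _ (Submodule.add_mem _ (Submodule.add_mem _ ?_ ?_) ?_)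
      (Submodule.add_mem _ ?_ ?_)
    · exact kaz_mul (l := (p : ℤ) - 2) (by push_cast; ring) hu1
        (kaz_mul (l := (p : ℤ) - 3) (by push_cast; ring) hu1 (by
          rw [show (p : ℤ) - 3 = ((p - 1 : ℕ) : ℤ) - (((2 : Fin 3) : ℕ) : ℤ) by rw [f2]; omega]
          exact a2))
    · refine Submodule.smul_mem _ _ (kaz_mul (l := (p : ℤ) - 2) (by push_cast; ring) hu1 ?_)
      rw [show (p : ℤ) - 2 = ((p - 1 : ℕ) : ℤ) - (((1 : Fin 3) : ℕ) : ℤ) by rw [f1]; omega]
      exact a1
    · refine Submodule.smul_mem _ _ ?_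
      rw [show (p : ℤ) - 1 = ((p - 1 : ℕ) : ℤ) - (((0 : Fin 3) : ℕ) : ℤ) by rw [f0]; omega]
      exact a0
    · refine Submodule.neg_mem _ (Submodule.smul_mem _ _ ?_)
      have := hco2 (p + 1)
      rwa [show ((p + 1 : ℕ) : ℤ) - 2 = (p : ℤ) - 1 by push_cast; ring] at this
    · exact Submodule.smul_mem _ _ (kaz_mul (l := (p : ℤ) - 2) (by push_cast; ring) hu1 (hco2 p))
  · rw [mul_sub, h5]
    abel

end

end Pool.Agent.Y101
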