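import Pool.Agent.H447R3.AoB
import Pool.Agent.W498.Dom.Bi

/-!
# A quadratic equation for operators on a Lefschetz structure
-/

open Finset

namespace Pool.Agent.Y101

open Pool.Agent.H914 Pool.Agent.H447 Pool.Agent.W498.Dom

section

variable {K : Type*} [Field K] [CharZero K] {V : Type*} [AddCommGroup V] [Module K V]
variable {gr : ℕ → Submodule K V} {n : ℕ} {L Φ : Module.End K V}

/-- The operator with `L ^ j a ↦ c i j L ^ (j - 1) a` for `a` primitive of degree `i`. -/
noncomputable def lowOf (h : DirectSum.IsInternal gr) (L Φ : Module.End K V) (n : ℕ)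
    (c : ℕ → ℕ → K) : Module.End K V :=
  ∑ i ∈ range (n + 1), ∑ j ∈ range (n - i + 1), c i j • (Φ * eij h L Φ i j)

/-- The operator with `L ^ j a ↦ c i j L ^ j a` for `a` primitive of degree `i`. -/
noncomputable def diagOf (h : DirectSum.IsInternal gr) (L Φ : Module.End K V) (n : ℕ)
    (c : ℕ → ℕ → K) : Module.End K V :=
  ∑ i ∈ range (n + 1), ∑ j ∈ range (n - i + 1), c i j • eij h L Φ i j

omit [CharZero K] in
lemma lowOf_apply (h : DirectSum.IsInternal gr) (hL : IsHom gr 2 L) (hΦ : IsLam gr n L Φ)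
    (c : ℕ → ℕ → K) {i : ℕ} (hi : i ≤ n) {a : V} (ha : a ∈ gr i)
    (hp : (L ^ (n - i + 1)) a = 0) {j : ℕ} (hj : j ≤ n - i) :
    lowOf h L Φ n c ((L ^ j) a) = if j = 0 then 0 else c i j • (L ^ (j - 1)) a := by
  rw [lowOf, LinearMap.sum_apply, Finset.sum_eq_single i]
  · rw [LinearMap.sum_apply, Finset.sum_eq_single j]
    · rw [LinearMap.smul_apply, Module.End.mul_apply, eij_apply h hL hΦ hi ha hp hj,
        if_pos ⟨rfl, rfl⟩]
      rcases Nat.eq_zero_or_pos j with rfl | h0
      · rw [pow_zero, Module.End.one_apply, (hΦ i hi a ha hp).1, smul_zero, if_pos rfl]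
      · have := (hΦ i hi a ha hp).2 (j - 1) (by omega)
        rw [show j - 1 + 1 = j by omega] at this
        rw [this, if_neg (by omega)]
    · intro j' _ hj'
      rw [LinearMap.smul_apply, Module.End.mul_apply, eij_apply h hL hΦ hi ha hp hj,
        if_neg (by tauto), map_zero, smul_zero]
    · intro h'; exact absurd (Finset.mem_range.2 (by omega)) h'
  · intro i' _ hi'
    rw [LinearMap.sum_apply]
    apply Finset.sum_eq_zero
    intro j' _
    rw [LinearMap.smul_apply, Module.End.mul_apply, eij_apply h hL hΦ hi ha hp hj,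
      if_neg (by tauto), map_zero, smul_zero]
  · intro h'; exact absurd (Finset.mem_range.2 (by omega)) h'

omit [CharZero K] in
lemma diagOf_apply (h : DirectSum.IsInternal gr) (hL : IsHom gr 2 L) (hΦ : IsLam gr n L Φ)
    (c : ℕ → ℕ → K) {i : ℕ} (hi : i ≤ n) {a : V} (ha : a ∈ gr i)
    (hp : (L ^ (n - i + 1)) a = 0) {j : ℕ} (hj : j ≤ n - i) :
    diagOf h L Φ n c ((L ^ j) a) = c i j • (L ^ j) a := by
  rw [diagOf, LinearMap.sum_apply, Finset.sum_eq_single i]
  · rw [LinearMap.sum_apply, Finset.sum_eq_single j]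
    · rw [LinearMap.smul_apply, eij_apply h hL hΦ hi ha hp hj, if_pos ⟨rfl, rfl⟩]
    · intro j' _ hj'
      rw [LinearMap.smul_apply, eij_apply h hL hΦ hi ha hp hj, if_neg (by tauto), smul_zero]
    · intro h'; exact absurd (Finset.mem_range.2 (by omega)) h'
  · intro i' _ hi'
    rw [LinearMap.sum_apply]
    apply Finset.sum_eq_zero
    intro j' _
    rw [LinearMap.smul_apply, eij_apply h hL hΦ hi ha hp hj, if_neg (by tauto), smul_zero]
  · intro h'; exact absurd (Finset.mem_range.2 (by omega)) h'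

omit [CharZero K] in
lemma eij_isHom (h : DirectSum.IsInternal gr) (hL : IsHom gr 2 L) (hΦ : IsHom gr (-2) Φ)
    (i j : ℕ) : IsHom gr 0 (eij h L Φ i j) := by
  unfold eij
  have h2 := (isHom_one (gr := gr)).sub (by simpa using hL.mul hΦ)
  have h3 : IsHom gr 0 (proj h i) := isHom_scal h _
  have h4 := (hL.pow j).mul ((h2.mul h3).mul (hΦ.pow j))
  have e : (j : ℤ) * 2 + (0 + 0 + (j : ℤ) * (-2)) = 0 := by ring
  rw [e] at h4
  exact h4

omit [CharZero K] in
lemma lowOf_isHom (h : DirectSum.IsInternal gr) (hL : IsHom gr 2 L) (hΦ : IsHom gr (-2) Φ)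
    (c : ℕ → ℕ → K) : IsHom gr (-2) (lowOf h L Φ n c) := by
  apply IsHom.sum
  intro i _
  apply IsHom.sum
  intro j _
  apply IsHom.smul
  simpa using hΦ.mul (eij_isHom h hL hΦ i j)

/-- `x ↦ r L x + s x L` -/
def mixOp (r s : K) (L : Module.End K V) : Module.End K (Module.End K V) :=
  r • LinearMap.mulLeft K L + s • LinearMap.mulRight K L

omit [CharZero K] in
lemma mixOp_apply (r s : K) (L x : Module.End K V) : mixOp r s L x = r • (L * x) + s • (x * L) := by
  simp [mixOp]

omit [CharZero K] in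
/-- The triple of `mixOp`. -/
lemma sl2_mix {H e f : Module.End K V} (t : Sl2 H e f) {r s : K} (hr : r ≠ 0) (hs : s ≠ 0) :
    Sl2 (LinearMap.mulLeft K H - LinearMap.mulRight K H) (mixOp r s e) (mixOp r⁻¹ s⁻¹ f) := by
  have hr' : r * r⁻¹ = 1 := mul_inv_cancel₀ hr
  have hs' : s * s⁻¹ = 1 := mul_inv_cancel₀ hs
  constructor
  · apply LinearMap.ext
    intro Y
    rw [LinearMap.sub_apply, Module.End.mul_apply, Module.End.mul_apply]
    simp only [mixOp_apply, LinearMap.sub_apply, LinearMap.mulLeft_apply, LinearMap.mulRight_apply,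
      mul_add, add_mul, mul_smul_comm, smul_mul_assoc, smul_add, smul_smul]
    rw [← t.ef]
    have e1 : ((e * f - f * e) * Y - Y * (e * f - f * e)) =
        (e * (f * Y) - f * (e * Y)) + (Y * f * e - Y * e * f) := by noncomm_ring
    rw [e1, mul_comm r⁻¹ r, mul_comm s⁻¹ s, hr', hs', mul_comm s⁻¹ r, mul_comm r⁻¹ s]
    simp only [one_smul]
    have e2 : e * (Y * f) = e * Y * f := by noncomm_ring
    have e3 : f * (Y * e) = f * Y * e := by noncomm_ring
    rw [e2, e3]
    abel
  · apply LinearMap.ext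
    intro Y
    rw [LinearMap.sub_apply, Module.End.mul_apply, Module.End.mul_apply, two_mul,
      LinearMap.add_apply]
    simp only [mixOp_apply, LinearMap.sub_apply, LinearMap.mulLeft_apply, LinearMap.mulRight_apply]
    have h1 := t.he
    have e1 : H * (r • (e * Y) + s • (Y * e)) - (r • (e * Y) + s • (Y * e)) * H -
        (r • (e * (H * Y - Y * H)) + s • ((H * Y - Y * H) * e)) =
        r • ((H * e - e * H) * Y) + s • (Y * (H * e - e * H)) := by
      simp only [mul_add, add_mul, mul_smul_comm, smul_mul_assoc, mul_sub, sub_mul, smul_sub,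
        mul_assoc]
      abel
    rw [e1, h1, two_mul, add_mul, mul_add, smul_add, smul_add]
    abel
  · apply LinearMap.ext
    intro Y
    rw [LinearMap.sub_apply, Module.End.mul_apply, Module.End.mul_apply, LinearMap.neg_apply,
      two_mul, LinearMap.add_apply]
    simp only [mixOp_apply, LinearMap.sub_apply, LinearMap.mulLeft_apply, LinearMap.mulRight_apply]
    have h1 := t.hf
    have e1 : H * (r⁻¹ • (f * Y) + s⁻¹ • (Y * f)) - (r⁻¹ • (f * Y) + s⁻¹ • (Y * f)) * H -
        (r⁻¹ • (f * (H * Y - Y * H)) + s⁻¹ • ((H * Y - Y * H) * f)) =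
        r⁻¹ • ((H * f - f * H) * Y) + s⁻¹ • (Y * (H * f - f * H)) := by
      simp only [mul_add, add_mul, mul_smul_comm, smul_mul_assoc, mul_sub, sub_mul, smul_sub,
        mul_assoc]
      abel
    rw [e1, h1, two_mul, neg_mul, mul_neg, add_mul, mul_add, smul_neg, smul_neg, smul_add,
      smul_add]
    abel

/-- Uniqueness. -/
lemma mix_inj [Module.Finite K V] (h : DirectSum.IsInternal gr) (hL : IsHom gr 2 L)
    (hbd : ∀ i, 2 * n + 1 ≤ i → gr i = ⊥) (hHL : HardLef gr n L) {r s : K} (hr : r ≠ 0)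
    (hs : s ≠ 0) {x : Module.End K V} (hx : IsHom gr (-2) x)
    (h0 : (mixOp r s L ^ 2) x = 0) : x = 0 := by
  obtain ⟨f, t, -, -⟩ := exists_sl2 h hL hbd hHL
  have t' := sl2_mix t hr hs
  apply Pool.Agent.H447.e_pow_inj t' (c := 2) _ h0
  rw [LinearMap.sub_apply, LinearMap.mulLeft_apply, LinearMap.mulRight_apply, hx.wt_comm h n]
  push_cast
  rw [add_sub_cancel_left]

end

end Pool.Agent.Y101
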